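import Mathlib

/-!
# ROT-15: exchange for matchings

`im π` is the image of an injective map `π : Fin m ↪ Fin n`, `cst c π = ∑ i, c i (π i)`.

`exch_maps`.  Let `a0` be the element with `π a0 = x`.  Call a set `P` of indices closed if for all
`a ∈ P` and all `a'` with `π a' = σ a` also `a' ∈ P`.  Let `P` be the intersection of all closed sets
that contain `a0` (a finite type, so a `Finset.univ.filter`; the full set is closed).  Let
`π' = σ` on `P` and `π` off `P`, `σ' = π` on `P` and `σ` off `P`.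
 - `π'` is injective: `σ a = π a'` with `a ∈ P`, `a' ∉ P` is impossible since `P` is closed.
 - (min) if `a ∈ P`, `a ≠ a0`, then `a` is an image: there is `a'' ∈ P` with `σ a'' = π a`
   (otherwise `P \ {a}` would be closed and contain `a0`).
 - `σ'` is injective: `π a = σ a'` with `a ∈ P`, `a' ∉ P`: if `a = a0` then `x = σ a' ∈ im σ`, no; if
   `a ≠ a0`, take `a''` from (min): `σ a'' = π a = σ a'`, so `a' = a'' ∈ P`, no.
 - images: `σ(P)` has `card P` elements; the elements of `σ(P)` that lie in `im π` are exactly the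
   `π a`, `a ∈ P`, `a ≠ a0` (if `σ a'' = π a` with `a'' ∈ P`, then `a ∈ P` by closedness and
   `a ≠ a0` because `x ∉ im σ`; conversely (min)).  So exactly one element `y` of `σ(P)` is not in
   `im π`, and `σ(P) = (π(P) - x) + y`.  Hence `im π' = σ(P) ∪ π(P^c) = (im π - x) + y` and
   `im σ' = π(P) ∪ σ(P^c) = (im σ - y) + x`.
 (Another way to organise this: let `a0, a1, ..., ar` be the path `π (a_{k+1}) = σ (a_k)`.)

`fm c T` is the minimal cost of a matching with image `T`.
`fm_eq`: the index type is finite and nonempty (an enumeration of `T`: `Finset.orderEmbOfFin`), so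
the infimum is attained (`exists_eq_ciInf_of_finite`).  `fm_exch`: take minimisers `π`, `σ` for `T`
and `R` and apply `exch_maps`; `cst c π' + cst c σ' = cst c π + cst c σ` since termwise the two
values are only exchanged.
-/

set_option autoImplicit false

namespace Pool.Agent.ROT

variable {m n : ℕ}

/-- Cost of a matching. -/
def cst (c : Fin m → Fin n → ℝ) (π : Fin m ↪ Fin n) : ℝ := ∑ i, c i (π i)

/-- Image of a matching. -/
def im (π : Fin m ↪ Fin n) : Finset (Fin n) := Finset.univ.map π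

lemma mem_im {π : Fin m ↪ Fin n} {x : Fin n} : x ∈ im π ↔ ∃ i, π i = x := by
  simp [im]

lemma card_im (π : Fin m ↪ Fin n) : (im π).card = m := by simp [im]

/-- Least cost of a matching with image `T`. -/
noncomputable def fm (c : Fin m → Fin n → ℝ) (T : Finset (Fin n)) : ℝ :=
  ⨅ π : {π : Fin m ↪ Fin n // im π = T}, cst c π.1

theorem exch_maps (π σ : Fin m ↪ Fin n) {x : Fin n} (hx : x ∈ im π \ im σ) :
    ∃ y ∈ im σ \ im π, ∃ π' σ' : Fin m ↪ Fin n, im π' = insert y ((im π).erase x) ∧
      im σ' = insert x ((im σ).erase y) ∧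
      ∀ i, (π' i = π i ∧ σ' i = σ i) ∨ (π' i = σ i ∧ σ' i = π i) := by
  classical
  rw [Finset.mem_sdiff] at hx
  obtain ⟨hxπ, hxσ⟩ := hx
  obtain ⟨a0, ha0⟩ := mem_im.1 hxπ
  have hxσ' : ∀ i, σ i ≠ x := fun i h => hxσ (mem_im.2 ⟨i, h⟩)
  set P : Fin m → Prop := Relation.ReflTransGen (fun a a' => π a' = σ a) a0 with hP
  have hP0 : P a0 := Relation.ReflTransGen.refl
  have hcl : ∀ a a', P a → π a' = σ a → P a' := fun a a' h h' => Relation.ReflTransGen.tail h h'
  have hmin : ∀ a, P a → a ≠ a0 → ∃ a'', P a'' ∧ π a = σ a'' := by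
    intro a ha hne
    rcases Relation.ReflTransGen.cases_tail ha with h | ⟨c, hc, h⟩
    · exact absurd h hne
    · exact ⟨c, hc, h⟩
  let π' : Fin m ↪ Fin n := ⟨fun i => if P i then σ i else π i, by
    intro a b hab
    simp only at hab
    by_cases ha : P a <;> by_cases hb : P b
    · rw [if_pos ha, if_pos hb] at hab
      exact σ.injective hab
    · rw [if_pos ha, if_neg hb] at hab
      exact absurd (hcl a b ha hab.symm) hb
    · rw [if_neg ha, if_pos hb] at hab
      exact absurd (hcl b a hb hab) ha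
    · rw [if_neg ha, if_neg hb] at hab
      exact π.injective hab⟩
  have key : ∀ a b, P a → ¬ P b → π a ≠ σ b := by
    intro a b ha hb h
    by_cases h0 : a = a0
    · subst h0
      exact hxσ' b (h.symm.trans ha0)
    · obtain ⟨c, hc, h'⟩ := hmin a ha h0
      have : c = b := σ.injective (h'.symm.trans h)
      exact hb (this ▸ hc)
  let σ' : Fin m ↪ Fin n := ⟨fun i => if P i then π i else σ i, by
    intro a b hab
    simp only at hab
    by_cases ha : P a <;> by_cases hb : P b
    · rw [if_pos ha, if_pos hb] at hab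
      exact π.injective hab
    · rw [if_pos ha, if_neg hb] at hab
      exact absurd hab (key a b ha hb)
    · rw [if_neg ha, if_pos hb] at hab
      exact absurd hab.symm (key b a hb ha)
    · rw [if_neg ha, if_neg hb] at hab
      exact σ.injective hab⟩
  have hπ'1 : ∀ i, P i → π' i = σ i := fun i hi => if_pos hi
  have hπ'2 : ∀ i, ¬ P i → π' i = π i := fun i hi => if_neg hi
  have hσ'1 : ∀ i, P i → σ' i = π i := fun i hi => if_pos hi
  have hσ'2 : ∀ i, ¬ P i → σ' i = σ i := fun i hi => if_neg hi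
  have hm : 0 < m := Fin.pos a0
  have hx' : x ∉ im π' := by
    intro h
    obtain ⟨i, hi⟩ := mem_im.1 h
    by_cases h1 : P i
    · rw [hπ'1 i h1] at hi
      exact hxσ' i hi
    · rw [hπ'2 i h1] at hi
      have : i = a0 := π.injective (hi.trans ha0.symm)
      exact h1 (this ▸ hP0)
  have hex : ∃ a, P a ∧ σ a ∉ im π := by
    by_contra hcon
    push Not at hcon
    have hsub : im π' ⊆ (im π).erase x := by
      intro z hz
      refine Finset.mem_erase.2 ⟨fun h => hx' (h ▸ hz), ?_⟩
      obtain ⟨i, rfl⟩ := mem_im.1 hz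
      by_cases h1 : P i
      · rw [hπ'1 i h1]
        exact hcon i h1
      · rw [hπ'2 i h1]
        exact mem_im.2 ⟨i, rfl⟩
    have := Finset.card_le_card hsub
    rw [card_im, Finset.card_erase_of_mem hxπ, card_im] at this
    omega
  obtain ⟨a, ha, hy⟩ := hex
  have hyσ : σ a ∈ im σ := mem_im.2 ⟨a, rfl⟩
  have him1 : im π' = insert (σ a) ((im π).erase x) := by
    symm
    apply Finset.eq_of_subset_of_card_le
    · intro z hz
      rcases Finset.mem_insert.1 hz with rfl | hz
      · exact mem_im.2 ⟨a, hπ'1 a ha⟩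
      · obtain ⟨hzx, hz⟩ := Finset.mem_erase.1 hz
        obtain ⟨i, rfl⟩ := mem_im.1 hz
        by_cases h1 : P i
        · obtain ⟨c, hc, h'⟩ := hmin i h1 (fun h => hzx (h ▸ ha0))
          exact mem_im.2 ⟨c, (hπ'1 c hc).trans h'.symm⟩
        · exact mem_im.2 ⟨i, hπ'2 i h1⟩
    · rw [Finset.card_insert_of_notMem (fun h => hy (Finset.mem_of_mem_erase h)),
        Finset.card_erase_of_mem hxπ, card_im, card_im]
      omega
  have him2 : im σ' = insert x ((im σ).erase (σ a)) := by
    symm
    apply Finset.eq_of_subset_of_card_le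
    · intro z hz
      rcases Finset.mem_insert.1 hz with rfl | hz
      · exact mem_im.2 ⟨a0, (hσ'1 a0 hP0).trans ha0⟩
      · obtain ⟨hzx, hz⟩ := Finset.mem_erase.1 hz
        obtain ⟨i, rfl⟩ := mem_im.1 hz
        by_cases h1 : P i
        · have h2 : σ i ∈ im π' := mem_im.2 ⟨i, hπ'1 i h1⟩
          rw [him1, Finset.mem_insert] at h2
          rcases h2 with h2 | h2
          · exact absurd h2 hzx
          · obtain ⟨b, hb⟩ := mem_im.1 (Finset.mem_of_mem_erase h2)
            exact mem_im.2 ⟨b, (hσ'1 b (hcl i b h1 hb)).trans hb⟩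
        · exact mem_im.2 ⟨i, hσ'2 i h1⟩
    · rw [Finset.card_insert_of_notMem (fun h => hxσ (Finset.mem_of_mem_erase h)),
        Finset.card_erase_of_mem hyσ, card_im, card_im]
      omega
  refine ⟨σ a, Finset.mem_sdiff.2 ⟨hyσ, hy⟩, π', σ', him1, him2, fun i => ?_⟩
  by_cases h1 : P i
  · exact Or.inr ⟨hπ'1 i h1, hσ'1 i h1⟩
  · exact Or.inl ⟨hπ'2 i h1, hσ'2 i h1⟩

theorem fm_le (c : Fin m → Fin n → ℝ) (π : Fin m ↪ Fin n) : fm c (im π) ≤ cst c π :=
  ciInf_le (Set.finite_range _).bddBelow (⟨π, rfl⟩ : {π' : Fin m ↪ Fin n // im π' = im π})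

theorem fm_eq (c : Fin m → Fin n → ℝ) {T : Finset (Fin n)} (hT : T.card = m) :
    ∃ π : Fin m ↪ Fin n, im π = T ∧ fm c T = cst c π := by
  have h1 : im (T.orderEmbOfFin hT).toEmbedding = T := by
    unfold im
    exact Finset.map_orderEmbOfFin_univ T hT
  have : Nonempty {π : Fin m ↪ Fin n // im π = T} := ⟨⟨_, h1⟩⟩
  obtain ⟨π, hπ⟩ := exists_eq_ciInf_of_finite
    (f := fun π : {π : Fin m ↪ Fin n // im π = T} => cst c π.1)
  exact ⟨π.1, π.2, hπ.symm⟩

theorem fm_exch (c : Fin m → Fin n → ℝ) {T R : Finset (Fin n)} (hT : T.card = m)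
    (hR : R.card = m) {x : Fin n} (hx : x ∈ T \ R) :
    ∃ y ∈ R \ T, fm c (insert y (T.erase x)) + fm c (insert x (R.erase y)) ≤
      fm c T + fm c R := by
  obtain ⟨π, rfl, h1⟩ := fm_eq c hT
  obtain ⟨σ, rfl, h2⟩ := fm_eq c hR
  obtain ⟨y, hy, π', σ', h3, h4, h5⟩ := exch_maps π σ hx
  refine ⟨y, hy, ?_⟩
  rw [← h3, ← h4, h1, h2]
  have h6 : cst c π' + cst c σ' = cst c π + cst c σ := by
    unfold cst
    rw [← Finset.sum_add_distrib, ← Finset.sum_add_distrib]
    refine Finset.sum_congr rfl fun i _ => ?_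
    rcases h5 i with ⟨h, h'⟩ | ⟨h, h'⟩ <;> rw [h, h']
    ring
  have := fm_le c π'
  have := fm_le c σ'
  linarith

end Pool.Agent.ROT
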