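import Pool.Agent.ROT.Gen

/-!
# ROT-17: perturbation of the costs

`Sopt A B` is the set of the problem.  For `A`, `B` let `c0 i j = ‖A i - B j‖²`.  Then
`∑ i, ‖A i - (B (π i) + t)‖² = cst c0 π + 2 <t, ∑ i, B (π i)> + (a term that does not depend on π)`:
`‖a - b - t‖² = ‖a - b‖² - 2<t,a> + 2<t,b> + ‖t‖²` (`EuclideanSpace.norm_sq_eq`,
`Fin.sum_univ_two`, or inner products).  So `π ∈ Sopt A B` iff there is `t'` (`= 2 t` in
coordinates) with `cst c0 π + dt t' (bm b π) < cst c0 σ + dt t' (bm b σ)` for all `σ ≠ π`, where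
`b = pt ∘ B`.  Choose such a `t' π` for every `π ∈ Sopt A B` (a finite set).  The set of all `c`
such that these finitely many strict inequalities hold is open (each side is continuous in `c`) and
contains `c0`; by `dense_gen` it contains a generic `c`.
-/

set_option autoImplicit false

namespace Pool.Agent.ROT

variable {m n : ℕ}

/-- Coordinates of a point of the plane. -/
def pt (x : EuclideanSpace ℝ (Fin 2)) : ℝ × ℝ := (x 0, x 1)

/-- The unique optimal matchings (as in the problem). -/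
def Sopt (A : Fin m → EuclideanSpace ℝ (Fin 2)) (B : Fin n → EuclideanSpace ℝ (Fin 2)) :
    Set (Fin m ↪ Fin n) :=
  {π : Fin m ↪ Fin n | ∃ t : EuclideanSpace ℝ (Fin 2),
    ∀ σ : Fin m ↪ Fin n, σ ≠ π →
      ∑ i, ‖A i - (B (π i) + t)‖ ^ 2 < ∑ i, ‖A i - (B (σ i) + t)‖ ^ 2}

lemma Pert_norm (x : EuclideanSpace ℝ (Fin 2)) : ‖x‖ ^ 2 = x 0 ^ 2 + x 1 ^ 2 := by
  rw [EuclideanSpace.norm_sq_eq, Fin.sum_univ_two, Real.norm_eq_abs, Real.norm_eq_abs, sq_abs,
    sq_abs]

lemma Pert_eq (A : Fin m → EuclideanSpace ℝ (Fin 2)) (B : Fin n → EuclideanSpace ℝ (Fin 2))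
    (t : EuclideanSpace ℝ (Fin 2)) (π : Fin m ↪ Fin n) :
    ∑ i, ‖A i - (B (π i) + t)‖ ^ 2 = cst (fun i j => ‖A i - B j‖ ^ 2) π +
      dt (2 * t 0, 2 * t 1) (bm (fun j => pt (B j)) π) +
      ∑ i, ((t 0 ^ 2 + t 1 ^ 2) - 2 * (t 0 * A i 0 + t 1 * A i 1)) := by
  have h1 : dt (2 * t 0, 2 * t 1) (bm (fun j => pt (B j)) π) =
      ∑ i, (2 * t 0 * B (π i) 0 + 2 * t 1 * B (π i) 1) := by
    simp only [dt, bm, Prod.fst_sum, Prod.snd_sum, pt, Finset.mul_sum, Finset.sum_add_distrib]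
  rw [h1, cst, ← Finset.sum_add_distrib, ← Finset.sum_add_distrib]
  refine Finset.sum_congr rfl fun i _ => ?_
  simp only [Pert_norm, PiLp.sub_apply, PiLp.add_apply]
  ring

theorem pert (A : Fin m → EuclideanSpace ℝ (Fin 2)) (B : Fin n → EuclideanSpace ℝ (Fin 2)) :
    ∃ c : Fin m → Fin n → ℝ, Gen c (fun j => pt (B j)) ∧ ∀ π ∈ Sopt A B, ∃ t : ℝ × ℝ,
      ∀ σ : Fin m ↪ Fin n, σ ≠ π → cst c π + dt t (bm (fun j => pt (B j)) π) <
        cst c σ + dt t (bm (fun j => pt (B j)) σ) := by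
  classical
  have hpt : ∀ π : Fin m ↪ Fin n, ∃ t : ℝ × ℝ, π ∈ Sopt A B → ∀ σ : Fin m ↪ Fin n, σ ≠ π →
      cst (fun i j => ‖A i - B j‖ ^ 2) π + dt t (bm (fun j => pt (B j)) π) <
        cst (fun i j => ‖A i - B j‖ ^ 2) σ + dt t (bm (fun j => pt (B j)) σ) := by
    intro π
    by_cases h : π ∈ Sopt A B
    · obtain ⟨t, ht⟩ := h
      refine ⟨(2 * t 0, 2 * t 1), fun _ σ hσ => ?_⟩
      have := ht σ hσ
      rw [Pert_eq, Pert_eq] at this
      linarith
    · exact ⟨0, fun h' => absurd h' h⟩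
  choose t ht using hpt
  let O : Set (Fin m → Fin n → ℝ) := ⋂ π : Fin m ↪ Fin n, ⋂ σ : Fin m ↪ Fin n,
    {c | π ∈ Sopt A B → σ ≠ π → cst c π + dt (t π) (bm (fun j => pt (B j)) π) <
        cst c σ + dt (t π) (bm (fun j => pt (B j)) σ)}
  have hO : IsOpen O := by
    refine isOpen_iInter_of_finite fun π => isOpen_iInter_of_finite fun σ => ?_
    by_cases h : π ∈ Sopt A B ∧ σ ≠ π
    · have : {c : Fin m → Fin n → ℝ | π ∈ Sopt A B → σ ≠ π →
          cst c π + dt (t π) (bm (fun j => pt (B j)) π) <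
            cst c σ + dt (t π) (bm (fun j => pt (B j)) σ)} =
          {c | cst c π + dt (t π) (bm (fun j => pt (B j)) π) <
            cst c σ + dt (t π) (bm (fun j => pt (B j)) σ)} := by
        ext c
        exact ⟨fun h' => h' h.1 h.2, fun h' _ _ => h'⟩
      rw [this]
      refine isOpen_lt ?_ ?_
      · simp only [cst]
        fun_prop
      · simp only [cst]
        fun_prop
    · have : {c : Fin m → Fin n → ℝ | π ∈ Sopt A B → σ ≠ π →
          cst c π + dt (t π) (bm (fun j => pt (B j)) π) <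
            cst c σ + dt (t π) (bm (fun j => pt (B j)) σ)} = Set.univ := by
        ext c
        simp only [Set.mem_univ, iff_true]
        intro h1 h2
        exact absurd ⟨h1, h2⟩ h
      rw [this]
      exact isOpen_univ
  have hne : (O : Set (Fin m → Fin n → ℝ)).Nonempty :=
    ⟨fun i j => ‖A i - B j‖ ^ 2, Set.mem_iInter.2 fun π => Set.mem_iInter.2 fun σ =>
      fun h1 h2 => ht π h1 σ h2⟩
  obtain ⟨c, hcO, hc⟩ := (dense_gen (m := m) (fun j => pt (B j))).inter_open_nonempty O hO hne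
  refine ⟨c, hc, fun π hπ => ⟨t π, fun σ hσ => ?_⟩⟩
  exact Set.mem_iInter.1 (Set.mem_iInter.1 hcO π) σ hπ hσ

end Pool.Agent.ROT
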