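import Pool.Agent.ROT.Base

/-!
# ROT-10: sign patterns of affine functions on the plane

`L` affine functions on the plane have at most `1 + L + L.choose 2` patterns
`{i : 0 < g i (x)}`.

Proof.  Let `P x = {i : 0 < c i + dt (t x) (v i)}`.  By `hsep` the map `P` is injective on `T`; let
`F = T.image P`, a family of subsets of `ι` with `F.card = T.card`.  Sauer-Shelah
(`Finset.card_le_card_shatterer`, or `Finset.card_shatterer_le_sum_vcDim`) gives
`F.card ≤ F.shatterer.card`, so it is enough that `F` shatters no set with three elements (a set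
with more than two elements that is shattered contains a shattered set with three elements:
`Finset.Shatters.mono_right`); the number of subsets with at most two elements is
`1 + L + L.choose 2` (`Finset.card_powersetCard`).

No set of three elements `{1,2,3}` is shattered: the three vectors `v 1, v 2, v 3` of the plane are
linearly dependent, `a1 v1 + a2 v2 + a3 v3 = 0` with `(a1,a2,a3) ≠ 0` (explicitly: if
`cr (v 1) (v 2) ≠ 0` take `(cr v2 v3, cr v3 v1, cr v1 v2)`, and similarly for the other pairs,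
i.e. `a = (cr v2 v3, cr v3 v1, cr v1 v2)` unless all three are `0`; then all three vectors are
multiples of one vector and a dependency with `a ≠ 0` between two of them exists).  So
`a1 g1 + a2 g2 + a3 g3 = a0` is constant.  Replacing `a` by `-a` we may assume `a0 ≥ 0`, and if
`a0 = 0` that some `ai > 0`... precisely:
 - if `a0 > 0`: take the pattern `σ = {i : a_i < 0}` (there is a point where exactly the `g i`,
   `i ∈ σ`, are positive and the others are `≤ 0`): then `a_i g_i ≤ 0` for all three, so the sum is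
   `≤ 0 < a0`, contradiction;
 - if `a0 < 0`: take `σ = {i : a_i > 0}`: the sum is `≥ 0 > a0`;
 - if `a0 = 0`: some `a_i ≠ 0`; if some `a_i > 0` take `σ = {i : a_i > 0}`: the sum is `> 0`; if some
   `a_i < 0` take `σ = {i : a_i < 0}`: the sum is `< 0`.
-/

set_option autoImplicit false

namespace Pool.Agent.ROT

theorem vc_neg {a g : ℝ} (h : 0 < g ↔ a < 0) : a * g ≤ 0 := by
  rcases lt_or_ge a 0 with ha | ha
  · exact (mul_neg_of_neg_of_pos ha (h.2 ha)).le
  · exact mul_nonpos_of_nonneg_of_nonpos ha (not_lt.1 fun hg => absurd (h.1 hg) (not_lt.2 ha))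

theorem vc_pos {a g : ℝ} (h : 0 < g ↔ 0 < a) : 0 ≤ a * g := by
  rcases lt_or_ge 0 a with ha | ha
  · exact (mul_pos ha (h.2 ha)).le
  · exact mul_nonneg_of_nonpos_of_nonpos ha
      (not_lt.1 fun hg => absurd (h.1 hg) (not_lt.2 ha))

theorem vc_dep (v1 v2 v3 : ℝ × ℝ) : ∃ a1 a2 a3 : ℝ, (a1 ≠ 0 ∨ a2 ≠ 0 ∨ a3 ≠ 0) ∧
    a1 * v1.1 + a2 * v2.1 + a3 * v3.1 = 0 ∧ a1 * v1.2 + a2 * v2.2 + a3 * v3.2 = 0 := by
  by_cases h : cr v2 v3 ≠ 0 ∨ cr v3 v1 ≠ 0 ∨ cr v1 v2 ≠ 0
  · exact ⟨cr v2 v3, cr v3 v1, cr v1 v2, h, by simp only [cr]; ring, by simp only [cr]; ring⟩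
  · push Not at h
    have h3 := h.2.2
    simp only [cr] at h3
    by_cases h1 : v1.1 = 0
    · by_cases h2 : v1.2 = 0
      · exact ⟨1, 0, 0, Or.inl one_ne_zero, by rw [h1]; ring, by rw [h2]; ring⟩
      · exact ⟨v2.2, -v1.2, 0, Or.inr (Or.inl (neg_ne_zero.2 h2)), by linarith, by ring⟩
    · exact ⟨v2.1, -v1.1, 0, Or.inr (Or.inl (neg_ne_zero.2 h1)), by ring, by linarith⟩

theorem vc_missing (c1 c2 c3 : ℝ) (v1 v2 v3 : ℝ × ℝ) : ∃ s1 s2 s3 : Prop, ∀ t : ℝ × ℝ,
    ¬ ((0 < c1 + dt t v1 ↔ s1) ∧ (0 < c2 + dt t v2 ↔ s2) ∧ (0 < c3 + dt t v3 ↔ s3)) := by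
  obtain ⟨a1, a2, a3, hne, hx, hy⟩ := vc_dep v1 v2 v3
  have key : ∀ t : ℝ × ℝ, a1 * (c1 + dt t v1) + a2 * (c2 + dt t v2) + a3 * (c3 + dt t v3) =
      a1 * c1 + a2 * c2 + a3 * c3 := by
    intro t
    simp only [dt]
    linear_combination t.1 * hx + t.2 * hy
  rcases lt_trichotomy (a1 * c1 + a2 * c2 + a3 * c3) 0 with h0 | h0 | h0
  · refine ⟨0 < a1, 0 < a2, 0 < a3, fun t ⟨h1, h2, h3⟩ => ?_⟩
    have := key t
    linarith [vc_pos h1, vc_pos h2, vc_pos h3]
  · by_cases hp : 0 < a1 ∨ 0 < a2 ∨ 0 < a3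
    · refine ⟨0 < a1, 0 < a2, 0 < a3, fun t ⟨h1, h2, h3⟩ => ?_⟩
      have := key t
      rcases hp with hp | hp | hp
      · linarith [mul_pos hp (h1.2 hp), vc_pos h2, vc_pos h3]
      · linarith [vc_pos h1, mul_pos hp (h2.2 hp), vc_pos h3]
      · linarith [vc_pos h1, vc_pos h2, mul_pos hp (h3.2 hp)]
    · push Not at hp
      refine ⟨a1 < 0, a2 < 0, a3 < 0, fun t ⟨h1, h2, h3⟩ => ?_⟩
      have := key t
      rcases hne with hn | hn | hn
      · have hn' := lt_of_le_of_ne hp.1 hn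
        linarith [mul_neg_of_neg_of_pos hn' (h1.2 hn'), vc_neg h2, vc_neg h3]
      · have hn' := lt_of_le_of_ne hp.2.1 hn
        linarith [vc_neg h1, mul_neg_of_neg_of_pos hn' (h2.2 hn'), vc_neg h3]
      · have hn' := lt_of_le_of_ne hp.2.2 hn
        linarith [vc_neg h1, vc_neg h2, mul_neg_of_neg_of_pos hn' (h3.2 hn')]
  · refine ⟨a1 < 0, a2 < 0, a3 < 0, fun t ⟨h1, h2, h3⟩ => ?_⟩
    have := key t
    linarith [vc_neg h1, vc_neg h2, vc_neg h3]

theorem vc {ι κ : Type} [Fintype ι] [DecidableEq ι] (c : ι → ℝ) (v : ι → ℝ × ℝ) (T : Finset κ)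
    (t : κ → ℝ × ℝ) (hsep : ∀ x ∈ T, ∀ y ∈ T, x ≠ y →
      ∃ i, ¬ (0 < c i + dt (t x) (v i) ↔ 0 < c i + dt (t y) (v i))) :
    T.card ≤ 1 + Fintype.card ι + (Fintype.card ι).choose 2 := by
  classical
  set P : κ → Finset ι := fun x => Finset.univ.filter fun i => 0 < c i + dt (t x) (v i) with hP
  have hinj : Set.InjOn P (T : Set κ) := by
    intro x hx y hy hxy
    by_contra hne
    obtain ⟨i, hi⟩ := hsep x hx y hy hne
    apply hi
    have h1 : i ∈ P x ↔ i ∈ P y := by rw [hxy]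
    simpa [hP] using h1
  have hcard : (T.image P).card = T.card := Finset.card_image_of_injOn hinj
  have hsh : ∀ s : Finset ι, (T.image P).Shatters s → s.card ≤ 2 := by
    intro s hs
    by_contra hc
    push Not at hc
    obtain ⟨u, hus, hu3⟩ := Finset.exists_subset_card_eq (show 3 ≤ s.card from hc)
    obtain ⟨x, y, z, hxy, hxz, hyz, rfl⟩ := Finset.card_eq_three.1 hu3
    have hsu : (T.image P).Shatters {x, y, z} := hs.mono_right hus
    obtain ⟨s1, s2, s3, hmiss⟩ := vc_missing (c x) (c y) (c z) (v x) (v y) (v z)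
    obtain ⟨w, hw, hwe⟩ := hsu (Finset.filter_subset
      (fun i => (i = x ∧ s1) ∨ (i = y ∧ s2) ∨ (i = z ∧ s3)) ({x, y, z} : Finset ι))
    obtain ⟨k, -, rfl⟩ := Finset.mem_image.1 hw
    have hmem : ∀ i, (i ∈ ({x, y, z} : Finset ι) ∩ P k) ↔
        (i ∈ ({x, y, z} : Finset ι).filter
          (fun i => (i = x ∧ s1) ∨ (i = y ∧ s2) ∨ (i = z ∧ s3))) := fun i => by rw [hwe]
    refine hmiss (t k) ⟨?_, ?_, ?_⟩
    · have h1 := hmem x
      simpa [hP, hxy, hxz] using h1
    · have h1 := hmem y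
      simpa [hP, hxy.symm, hyz] using h1
    · have h1 := hmem z
      simpa [hP, hxz.symm, hyz.symm] using h1
  have hvc : (T.image P).vcDim ≤ 2 := by
    unfold Finset.vcDim
    refine Finset.sup_le fun s hs => hsh s (Finset.mem_shatterer.1 hs)
  calc T.card = (T.image P).card := hcard.symm
    _ ≤ (T.image P).shatterer.card := Finset.card_le_card_shatterer _
    _ ≤ ∑ k ∈ Finset.Iic (T.image P).vcDim, (Fintype.card ι).choose k :=
      Finset.card_shatterer_le_sum_vcDim
    _ ≤ ∑ k ∈ Finset.Iic 2, (Fintype.card ι).choose k :=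
      Finset.sum_le_sum_of_subset (Finset.Iic_subset_Iic.2 hvc)
    _ = 1 + Fintype.card ι + (Fintype.card ι).choose 2 := by
      rw [show Finset.Iic 2 = {0, 1, 2} from by decide]
      rw [Finset.sum_insert (by decide), Finset.sum_insert (by decide), Finset.sum_singleton,
        Nat.choose_zero_right, Nat.choose_one_right]
      ring

end Pool.Agent.ROT
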