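import Pool.Agent.ROT.Red

/-!
# ROT-19: counting the matchings by the part of the image in the exceptional set

Proof.  Split `P` according to `J = im π ∩ E` (a subset of `E`, `card J ≤ m`); there are
`2 ^ card E` subsets (`Finset.card_powerset`), so it is enough to show that the part `P_J` has at most
`card (sysOf c b e J).cells ≤ F` elements (use `0 ≤ F` for the subsets `J` with `card J > m`, which
do not occur).  For `π ∈ P_J` let `S π = {l : e l ∈ im π}`.  As `univ.map e = Eᶜ`,
`im π = J ∪ (S π).map e`.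
 - `S π` is a cell: `card (S π) = m - card J`.  Let `t` be the point for `π`.  Let `R ≠ S π` have
   `m - card J` elements and let `σ` be a matching with `im σ = J ∪ R.map e` and
   `cst c σ = fm c (J ∪ R.map e)` (`fm_eq`); `σ ≠ π` as the images differ.  Then
   `h (S π) t = fm c (im π) + dt t (bs (S π)) ≤ cst c π + dt t (bs (S π))` (`fm_le`)
   and `cst c π + dt t (bm b π) < cst c σ + dt t (bm b σ)`, `bm b π = ∑_{x ∈ J} b x + bs (S π)`,
   `bm b σ = ∑_{x ∈ J} b x + bs R`; so `h (S π) t < h R t`.
 - `π ↦ S π` is injective on `P_J`: if `S π = S σ`, then `im π = im σ`, so `bm b π = bm b σ`; if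
   `π ≠ σ`, the inequality at the point of `π` gives `cst c π < cst c σ` and the one at the point
   of `σ` gives the opposite.
-/

set_option autoImplicit false

namespace Pool.Agent.ROT

variable {m n N : ℕ}

/-- The indices `l` such that `e l` is in the image of `π`. -/
noncomputable def count_S (e : Fin N ↪ Fin n) (π : Fin m ↪ Fin n) : Finset (Fin N) :=
  Finset.univ.filter fun l => e l ∈ im π

lemma count_mem_S {e : Fin N ↪ Fin n} {π : Fin m ↪ Fin n} {l : Fin N} :
    l ∈ count_S e π ↔ e l ∈ im π := by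
  simp [count_S]

lemma count_notMem {E : Finset (Fin n)} {e : Fin N ↪ Fin n} (he : Finset.univ.map e = Eᶜ)
    (l : Fin N) : e l ∉ E := by
  have h : e l ∈ Finset.univ.map e := Finset.mem_map_of_mem e (Finset.mem_univ l)
  rw [he, Finset.mem_compl] at h
  exact h

lemma count_im_eq {E J : Finset (Fin n)} {e : Fin N ↪ Fin n} (he : Finset.univ.map e = Eᶜ)
    {π : Fin m ↪ Fin n} (h : im π ∩ E = J) : im π = J ∪ (count_S e π).map e := by
  ext x
  rw [← h]
  simp only [Finset.mem_union, Finset.mem_inter, Finset.mem_map, count_mem_S]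
  constructor
  · intro hx
    by_cases hxE : x ∈ E
    · exact Or.inl ⟨hx, hxE⟩
    · have hx' : x ∈ Finset.univ.map e := by
        rw [he]
        exact Finset.mem_compl.2 hxE
      obtain ⟨l, -, rfl⟩ := Finset.mem_map.1 hx'
      exact Or.inr ⟨l, hx, rfl⟩
  · rintro (⟨hx, -⟩ | ⟨l, hl, rfl⟩)
    · exact hx
    · exact hl

lemma count_mem {J : Finset (Fin n)} {e : Fin N ↪ Fin n} (hJ : ∀ l, e l ∉ J)
    (R : Finset (Fin N)) (l : Fin N) : l ∈ R ↔ e l ∈ J ∪ R.map e := by
  constructor
  · intro h
    exact Finset.mem_union_right _ (Finset.mem_map_of_mem e h)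
  · intro h
    rcases Finset.mem_union.1 h with h1 | h1
    · exact absurd h1 (hJ l)
    · obtain ⟨l', hl', hll⟩ := Finset.mem_map.1 h1
      rwa [← e.injective hll]

lemma count_disj {J : Finset (Fin n)} {e : Fin N ↪ Fin n} (hJ : ∀ l, e l ∉ J)
    (R : Finset (Fin N)) : Disjoint J (R.map e) := by
  rw [Finset.disjoint_right]
  intro x hx
  obtain ⟨l, -, rfl⟩ := Finset.mem_map.1 hx
  exact hJ l

lemma count_card {J : Finset (Fin n)} {e : Fin N ↪ Fin n} (hJ : ∀ l, e l ∉ J)
    {R : Finset (Fin N)} : (J ∪ R.map e).card = J.card + R.card := by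
  rw [Finset.card_union_of_disjoint (count_disj hJ R), Finset.card_map]

lemma count_bm {b : Fin n → ℝ × ℝ} {J : Finset (Fin n)} {e : Fin N ↪ Fin n}
    (hJ : ∀ l, e l ∉ J) {π : Fin m ↪ Fin n} {R : Finset (Fin N)}
    (h : im π = J ∪ R.map e) : bm b π = ∑ x ∈ J, b x + ∑ l ∈ R, b (e l) := by
  have h1 : bm b π = ∑ x ∈ im π, b x := by
    rw [bm, im, Finset.sum_map]
  rw [h1, h, Finset.sum_union (count_disj hJ R), Finset.sum_map]

theorem reduce {c : Fin m → Fin n → ℝ} {b : Fin n → ℝ × ℝ} {E : Finset (Fin n)}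
    (e : Fin N ↪ Fin n) (he : Finset.univ.map e = Eᶜ) {F : ℝ} (hF0 : 0 ≤ F)
    (hF : ∀ J ⊆ E, J.card ≤ m → ((sysOf c b e J).cells.card : ℝ) ≤ F)
    (P : Finset (Fin m ↪ Fin n)) (hP : ∀ π ∈ P, ∃ t : ℝ × ℝ, ∀ σ : Fin m ↪ Fin n, σ ≠ π →
      cst c π + dt t (bm b π) < cst c σ + dt t (bm b σ)) :
    (P.card : ℝ) ≤ 2 ^ E.card * F := by
  classical
  have heE : ∀ l, e l ∉ E := count_notMem he
  have hfib : (P.card : ℝ) = ∑ J ∈ E.powerset, ((P.filter fun π => im π ∩ E = J).card : ℝ) := by
    rw [← Nat.cast_sum, ← Finset.card_eq_sum_card_fiberwise]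
    intro π _
    exact Finset.mem_powerset.2 Finset.inter_subset_right
  rw [hfib]
  have hbound : ∀ J ∈ E.powerset, ((P.filter fun π => im π ∩ E = J).card : ℝ) ≤ F := by
    intro J hJ
    rw [Finset.mem_powerset] at hJ
    have hJe : ∀ l, e l ∉ J := fun l hl => heE l (hJ hl)
    rcases (P.filter fun π => im π ∩ E = J).eq_empty_or_nonempty with h0 | ⟨π0, hπ0⟩
    · rw [h0]
      simpa using hF0
    · have hJm : J.card ≤ m := by
        rw [← card_im π0, ← (Finset.mem_filter.1 hπ0).2]
        exact Finset.card_le_card Finset.inter_subset_left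
      refine le_trans ?_ (hF J hJ hJm)
      rw [Nat.cast_le]
      refine Finset.card_le_card_of_injOn (count_S e) ?_ ?_
      · intro π hπ
        have hπ' := Finset.mem_filter.1 (Finset.mem_coe.1 hπ)
        obtain ⟨hπP, hπJ⟩ := hπ'
        have him : im π = J ∪ (count_S e π).map e := count_im_eq he hπJ
        obtain ⟨t, ht⟩ := hP π hπP
        rw [Finset.mem_coe, Sys.mem_cells]
        refine ⟨?_, t, ?_⟩
        · have h1 := card_im π
          rw [him, count_card hJe] at h1
          simp only [sysOf]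
          omega
        · intro R hR hne
          have hR' : (J ∪ R.map e).card = m := by
            rw [count_card hJe]
            simp only [sysOf] at hR
            omega
          obtain ⟨σ, hσim, hσ⟩ := fm_eq c hR'
          have hσπ : σ ≠ π := by
            rintro rfl
            apply hne
            ext l
            rw [count_mem hJe R l, ← hσim, count_mem_S]
          have h1 := ht σ hσπ
          rw [count_bm hJe hσim, count_bm hJe him] at h1
          have h2 : fm c (J ∪ (count_S e π).map e) ≤ cst c π := by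
            rw [← him]
            exact fm_le c π
          have h3 : dt t (∑ x ∈ J, b x + ∑ l ∈ count_S e π, b (e l)) =
              dt t (∑ x ∈ J, b x) + dt t (∑ l ∈ count_S e π, b (e l)) := dt_add_right _ _ _
          have h4 : dt t (∑ x ∈ J, b x + ∑ l ∈ R, b (e l)) =
              dt t (∑ x ∈ J, b x) + dt t (∑ l ∈ R, b (e l)) := dt_add_right _ _ _
          simp only [Sys.h, Sys.bs, sysOf]
          rw [hσ]
          rw [h3, h4] at h1
          linarith
      · intro π hπ σ hσ hS
        obtain ⟨hπP, hπJ⟩ := Finset.mem_filter.1 (Finset.mem_coe.1 hπ)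
        obtain ⟨hσP, hσJ⟩ := Finset.mem_filter.1 (Finset.mem_coe.1 hσ)
        have hiπ : im π = J ∪ (count_S e π).map e := count_im_eq he hπJ
        have hiσ : im σ = J ∪ (count_S e σ).map e := count_im_eq he hσJ
        have hS' : count_S e π = count_S e σ := hS
        by_contra hne
        obtain ⟨t, ht⟩ := hP π hπP
        obtain ⟨t', ht'⟩ := hP σ hσP
        have h1 := ht σ (Ne.symm hne)
        have h2 := ht' π hne
        rw [count_bm hJe hiπ, count_bm hJe hiσ, hS'] at h1 h2
        linarith
  calc ∑ J ∈ E.powerset, ((P.filter fun π => im π ∩ E = J).card : ℝ)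
      ≤ ∑ _J ∈ E.powerset, F := Finset.sum_le_sum hbound
    _ = 2 ^ E.card * F := by
        rw [Finset.sum_const, Finset.card_powerset, nsmul_eq_mul]
        push_cast
        rfl

end Pool.Agent.ROT
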