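import Pool.Agent.ROT.Area
import Pool.Agent.ROT.Count
import Pool.Agent.ROT.Pert

/-!
# ROT-F2: no small triangles up to exceptional points

Proof.  As in `MainC`, with `area_cells` instead of `conv_cells` and any enumeration `e` of the
complement of `E` (`Finset.orderEmbOfFin`); `M ≤ m`, `N ≤ n`.  If there is no point outside of `E`
use `N = 0`.  (`dist ≤ D` gives `dt (x-y) (x-y) = dist² ≤ D²`.)
-/

set_option autoImplicit false

namespace Pool.Agent.ROT

variable {m n : ℕ}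

lemma MainA_dist (x y : EuclideanSpace ℝ (Fin 2)) :
    dt (pt x - pt y) (pt x - pt y) = dist x y ^ 2 := by
  rw [EuclideanSpace.dist_eq, Real.sq_sqrt (Finset.sum_nonneg fun i _ => sq_nonneg _)]
  simp [dt, pt, Fin.sum_univ_two, Real.dist_eq, sq_abs]
  ring

theorem area_main (hmn : m ≤ n) (A : Fin m → EuclideanSpace ℝ (Fin 2))
    (B : Fin n → EuclideanSpace ℝ (Fin 2)) (E : Finset (Fin n)) {δ D : ℝ} (hδ : 0 < δ)
    (hδD : δ ≤ D ^ 2) (hD : ∀ i ∉ E, ∀ j ∉ E, dist (B i) (B j) ≤ D)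
    (hA : ∀ i ∉ E, ∀ j ∉ E, ∀ k ∉ E, i ≠ j → j ≠ k → i ≠ k →
      δ ≤ |cr (pt (B j) - pt (B i)) (pt (B k) - pt (B i))|) :
    ((Sopt A B).ncard : ℝ) ≤
      2 ^ E.card * (1 + 3 * ((n : ℝ) ^ 2 * (m : ℝ) ^ 2 * (D ^ 2 / δ)) ^ 2) := by
  classical
  obtain ⟨c, hc, hP⟩ := pert A B
  have hcard : (Eᶜ : Finset (Fin n)).card = n - E.card := by
    rw [Finset.card_compl, Fintype.card_fin]
  let e : Fin (n - E.card) ↪ Fin n := ((Eᶜ : Finset (Fin n)).orderEmbOfFin hcard).toEmbedding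
  have he : Finset.univ.map e = Eᶜ := by
    ext x
    have := Finset.range_orderEmbOfFin (Eᶜ : Finset (Fin n)) hcard
    have h2 : x ∈ Set.range ((Eᶜ : Finset (Fin n)).orderEmbOfFin hcard) ↔
        x ∈ ((Eᶜ : Finset (Fin n)) : Set (Fin n)) := by rw [this]
    rw [Finset.mem_coe] at h2
    rw [← h2]
    constructor
    · intro hx
      obtain ⟨l, -, rfl⟩ := Finset.mem_map.1 hx
      exact ⟨l, rfl⟩
    · rintro ⟨l, rfl⟩
      exact Finset.mem_map.2 ⟨l, Finset.mem_univ _, rfl⟩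
  have heE : ∀ l, e l ∉ E := by
    intro l hl
    have : e l ∈ (Eᶜ : Finset (Fin n)) := by
      rw [← he]; exact Finset.mem_map_of_mem _ (Finset.mem_univ _)
    exact (Finset.mem_compl.1 this) hl
  have hfin : (Sopt A B).Finite := Set.toFinite _
  have hr : 0 ≤ D ^ 2 / δ := div_nonneg (sq_nonneg _) hδ.le
  have key := reduce (c := c) (b := fun j => pt (B j)) (E := E) e he
    (F := 1 + 3 * ((n : ℝ) ^ 2 * (m : ℝ) ^ 2 * (D ^ 2 / δ)) ^ 2) (by positivity) ?_
    hfin.toFinset ?_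
  · rw [Set.ncard_eq_toFinset_card _ hfin]
    exact key
  · intro J hJ hJm
    have hg := sysOf_good hc e (J := J) (fun l hl => heE l (hJ hl)) hJm
    have h1 := Sys.area_cells hg hδ hδD (fun i j => ?_) (fun i j k hij hjk hik => ?_)
    · refine h1.trans ?_
      have hM : (sysOf c (fun j => pt (B j)) e J).M = m - J.card := rfl
      rw [hM]
      have a1 : ((m - J.card : ℕ) : ℝ) ≤ (m : ℝ) := Nat.cast_le.2 (Nat.sub_le _ _)
      have a2 : ((n - E.card : ℕ) : ℝ) ≤ (n : ℝ) := Nat.cast_le.2 (Nat.sub_le _ _)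
      gcongr
    · show dt (pt (B (e i)) - pt (B (e j))) (pt (B (e i)) - pt (B (e j))) ≤ D ^ 2
      rw [MainA_dist]
      exact pow_le_pow_left₀ dist_nonneg (hD _ (heE i) _ (heE j)) 2
    · exact hA _ (heE i) _ (heE j) _ (heE k) (fun h => hij (e.injective h))
        (fun h => hjk (e.injective h)) (fun h => hik (e.injective h))
  · intro π hπ
    exact hP π (hfin.mem_toFinset.1 hπ)

end Pool.Agent.ROT
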