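import Pool.Agent.ROT.Area
import Pool.Agent.ROT.Count
import Pool.Agent.ROT.Pert
import Pool.Agent.ROT.MainA

/-!
# Cells of a system with a bounded positive form; two point sets with the same slope type
-/

set_option autoImplicit false

namespace Pool.Agent.ROT

namespace Sys

variable {N : ℕ} {s : Sys N}

theorem form_cells (hs : s.Good) (hn : s.Ncol) {phi : Fin N → Fin N → ℝ} (hF : s.Form phi)
    {H : ℝ} (hH : 1 ≤ H) (hb : ∀ q r, phi q r ≤ H) :
    (s.cells.card : ℝ) ≤ 1 + 3 * ((N : ℝ) ^ 2 * (s.M : ℝ) ^ 2 * H) ^ 2 := by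
  classical
  by_cases hNM : N = 0 ∨ s.M = 0
  · have h1 : s.cells ⊆ {∅} := by
      intro S hS
      rw [Finset.mem_singleton]
      rcases hNM with h0 | h0
      · subst h0
        exact Finset.eq_empty_of_isEmpty S
      · have := (s.mem_cells.1 hS).1
        rw [h0] at this
        exact Finset.card_eq_zero.1 this
    have h2 : s.cells.card ≤ 1 := (Finset.card_le_card h1).trans (by simp)
    have h3 : (s.cells.card : ℝ) ≤ 1 := by exact_mod_cast h2
    nlinarith [sq_nonneg ((N : ℝ) ^ 2 * (s.M : ℝ) ^ 2 * H)]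
  · push Not at hNM
    obtain ⟨hN, hM⟩ := hNM
    have hom : ∀ p ∈ s.unb, max (om phi p.1 p.2) 0 ≤ (s.M : ℝ) ^ 2 * H := by
      intro p hp
      obtain ⟨-, t, ht⟩ := s.mem_unb.1 hp
      have hb' := ht 0 le_rfl
      have c1 : p.1.card = s.M := hb'.1.1
      have c2 : p.2.card = s.M := hb'.2.1
      apply max_le
      · calc om phi p.1 p.2 ≤ ∑ _q ∈ p.1, ∑ _r ∈ p.2, H :=
              Finset.sum_le_sum fun q _ => Finset.sum_le_sum fun r _ => hb q r
          _ = (s.M : ℝ) ^ 2 * H := by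
              simp only [Finset.sum_const, nsmul_eq_mul, c1, c2]
              ring
      · positivity
    have hu : (s.unb.card : ℝ) ≤ (N : ℝ) ^ 2 := by
      have := unb_card_le hs hn
      rw [sq]
      exact_mod_cast this
    set A : ℝ := (N : ℝ) ^ 2 * (s.M : ℝ) ^ 2 * H with hAdef
    have hM1 : (1 : ℝ) ≤ (s.M : ℝ) := by exact_mod_cast Nat.pos_of_ne_zero hM
    have hN1 : (1 : ℝ) ≤ (N : ℝ) := by exact_mod_cast Nat.pos_of_ne_zero hN
    have hN2 : (1 : ℝ) ≤ (N : ℝ) ^ 2 := one_le_pow₀ hN1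
    have hB1 : (1 : ℝ) ≤ (s.M : ℝ) ^ 2 * H := by
      have := one_le_pow₀ (n := 2) hM1
      nlinarith
    have hNA : (N : ℝ) ^ 2 ≤ A := by
      rw [hAdef, mul_assoc]
      nlinarith
    have hA1 : 1 ≤ A := hN2.trans hNA
    have hQ : ∑ p ∈ s.unb, max (om phi p.1 p.2) 0 ≤ A := by
      calc ∑ p ∈ s.unb, max (om phi p.1 p.2) 0
          ≤ ∑ _p ∈ s.unb, (s.M : ℝ) ^ 2 * H := Finset.sum_le_sum hom
        _ = (s.unb.card : ℝ) * ((s.M : ℝ) ^ 2 * H) := by
            rw [Finset.sum_const, nsmul_eq_mul]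
        _ ≤ (N : ℝ) ^ 2 * ((s.M : ℝ) ^ 2 * H) :=
            mul_le_mul_of_nonneg_right hu (by linarith)
        _ = A := by rw [hAdef]; ring
    obtain ⟨L, hL, hc⟩ := engine hs hF hQ
    have hL2 : (L : ℝ) ≤ 2 * A := by linarith
    have hc' : (s.cells.card : ℝ) ≤ 1 + L + (L : ℝ) * ((L : ℝ) - 1) / 2 := by
      have h1 : (s.cells.card : ℝ) ≤ ((1 + L + L.choose 2 : ℕ) : ℝ) := by exact_mod_cast hc
      push_cast [Nat.cast_choose_two] at h1
      exact h1
    have hL0 : (0 : ℝ) ≤ L := Nat.cast_nonneg L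
    nlinarith

theorem slope_cells (hs : s.Good) (hn : s.Ncol) (b' : Fin N → ℝ × ℝ) {δ D : ℝ} (hδ : 0 < δ)
    (hδD : δ ≤ D ^ 2) (hD : ∀ i j, dt (b' i - b' j) (b' i - b' j) ≤ D ^ 2)
    (hT : ∀ i j k : Fin N, 0 < cr (s.b j - s.b i) (s.b k - s.b i) →
      δ ≤ cr (b' j - b' i) (b' k - b' i))
    (hP : ∀ i j k l : Fin N, i ≠ j → i ≠ k → i ≠ l → j ≠ k → j ≠ l → k ≠ l →
      0 < cr (s.b j - s.b i) (s.b l - s.b k) → 0 ≤ cr (b' j - b' i) (b' l - b' k)) :
    (s.cells.card : ℝ) ≤ 1 + 3 * ((N : ℝ) ^ 2 * (s.M : ℝ) ^ 2 * (D ^ 2 / δ)) ^ 2 := by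
  classical
  have hDδ : 1 ≤ D ^ 2 / δ := by rwa [le_div_iff₀ hδ, one_mul]
  by_cases hN : N = 0
  · subst hN
    refine form_cells hs hn (phi := fun _ _ => 0) ⟨fun p => p.elim0, fun i => i.elim0,
      fun i => i.elim0⟩ hDδ (fun q => q.elim0)
  · set o : ℝ × ℝ := b' ⟨0, Nat.pos_of_ne_zero hN⟩ with ho
    set phi : Fin N → Fin N → ℝ := fun p q => cr (b' p - o) (b' q - o) / δ with hphi
    have hF : s.Form phi := by
      refine ⟨fun p q => ?_, fun i j k hpos => ?_, fun i j k l h1 h2 h3 h4 h5 h6 hpos => ?_⟩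
      · simp only [hphi]
        rw [cr_neg_comm, neg_div]
      · have h5 : phi i j + phi j k + phi k i = cr (b' j - b' i) (b' k - b' i) / δ := by
          simp only [hphi, cr, Prod.fst_sub, Prod.snd_sub]
          ring
        rw [h5, le_div_iff₀ hδ, one_mul]
        exact hT i j k hpos
      · have h7 : phi j l - phi j k - phi i l + phi i k =
            cr (b' j - b' i) (b' l - b' k) / δ := by
          simp only [hphi, cr, Prod.fst_sub, Prod.snd_sub]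
          ring
        rw [h7]
        exact div_nonneg (hP i j k l h1 h2 h3 h4 h5 h6 hpos) hδ.le
    refine form_cells hs hn hF hDδ (fun q r => ?_)
    simp only [hphi]
    exact div_le_div_of_nonneg_right (area_cr_le (hD _ _) (hD _ _)) hδ.le

end Sys

variable {m n : ℕ}

theorem slope_main (A : Fin m → EuclideanSpace ℝ (Fin 2))
    (B B' : Fin n → EuclideanSpace ℝ (Fin 2)) (E : Finset (Fin n)) {δ D : ℝ} (hδ : 0 < δ)
    (hδD : δ ≤ D ^ 2) (hD : ∀ i ∉ E, ∀ j ∉ E, dist (B' i) (B' j) ≤ D)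
    (hn : ∀ i ∉ E, ∀ j ∉ E, ∀ k ∉ E, i ≠ j → j ≠ k → i ≠ k →
      cr (pt (B j) - pt (B i)) (pt (B k) - pt (B i)) ≠ 0)
    (hT : ∀ i ∉ E, ∀ j ∉ E, ∀ k ∉ E, 0 < cr (pt (B j) - pt (B i)) (pt (B k) - pt (B i)) →
      δ ≤ cr (pt (B' j) - pt (B' i)) (pt (B' k) - pt (B' i)))
    (hP : ∀ i ∉ E, ∀ j ∉ E, ∀ k ∉ E, ∀ l ∉ E, i ≠ j → i ≠ k → i ≠ l → j ≠ k → j ≠ l → k ≠ l →
      0 < cr (pt (B j) - pt (B i)) (pt (B l) - pt (B k)) →
      0 ≤ cr (pt (B' j) - pt (B' i)) (pt (B' l) - pt (B' k))) :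
    ((Sopt A B).ncard : ℝ) ≤
      2 ^ E.card * (1 + 3 * ((n : ℝ) ^ 2 * (m : ℝ) ^ 2 * (D ^ 2 / δ)) ^ 2) := by
  classical
  obtain ⟨c, hc, hPt⟩ := pert A B
  have hcard : (Eᶜ : Finset (Fin n)).card = n - E.card := by
    rw [Finset.card_compl, Fintype.card_fin]
  let e : Fin (n - E.card) ↪ Fin n := ((Eᶜ : Finset (Fin n)).orderEmbOfFin hcard).toEmbedding
  have he : Finset.univ.map e = Eᶜ := by
    ext x
    have := Finset.range_orderEmbOfFin (Eᶜ : Finset (Fin n)) hcard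
    have h2 : x ∈ Set.range ((Eᶜ : Finset (Fin n)).orderEmbOfFin hcard) ↔
        x ∈ ((Eᶜ : Finset (Fin n)) : Set (Fin n)) := by rw [this]
    rw [Finset.mem_coe] at h2
    rw [← h2]
    constructor
    · intro hx
      obtain ⟨l, -, rfl⟩ := Finset.mem_map.1 hx
      exact ⟨l, rfl⟩
    · rintro ⟨l, rfl⟩
      exact Finset.mem_map.2 ⟨l, Finset.mem_univ _, rfl⟩
  have heE : ∀ l, e l ∉ E := by
    intro l hl
    have : e l ∈ (Eᶜ : Finset (Fin n)) := by
      rw [← he]; exact Finset.mem_map_of_mem _ (Finset.mem_univ _)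
    exact (Finset.mem_compl.1 this) hl
  have hfin : (Sopt A B).Finite := Set.toFinite _
  have hr : 0 ≤ D ^ 2 / δ := div_nonneg (sq_nonneg _) hδ.le
  have key := reduce (c := c) (b := fun j => pt (B j)) (E := E) e he
    (F := 1 + 3 * ((n : ℝ) ^ 2 * (m : ℝ) ^ 2 * (D ^ 2 / δ)) ^ 2) (by positivity) ?_
    hfin.toFinset ?_
  · rw [Set.ncard_eq_toFinset_card _ hfin]
    exact key
  · intro J hJ hJm
    have hg := sysOf_good hc e (J := J) (fun l hl => heE l (hJ hl)) hJm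
    have hinj : ∀ {i j}, i ≠ j → e i ≠ e j := fun h h' => h (e.injective h')
    have h1 := Sys.slope_cells hg (fun i j k hij hjk hik => hn _ (heE i) _ (heE j) _ (heE k)
      (hinj hij) (hinj hjk) (hinj hik)) (fun l => pt (B' (e l))) hδ hδD (fun i j => ?_)
      (fun i j k hpos => hT _ (heE i) _ (heE j) _ (heE k) hpos)
      (fun i j k l h1 h2 h3 h4 h5 h6 hpos => hP _ (heE i) _ (heE j) _ (heE k) _ (heE l)
        (hinj h1) (hinj h2) (hinj h3) (hinj h4) (hinj h5) (hinj h6) hpos)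
    · refine h1.trans ?_
      have hM : (sysOf c (fun j => pt (B j)) e J).M = m - J.card := rfl
      rw [hM]
      have a1 : ((m - J.card : ℕ) : ℝ) ≤ (m : ℝ) := Nat.cast_le.2 (Nat.sub_le _ _)
      have a2 : ((n - E.card : ℕ) : ℝ) ≤ (n : ℝ) := Nat.cast_le.2 (Nat.sub_le _ _)
      gcongr
    · show dt (pt (B' (e i)) - pt (B' (e j))) (pt (B' (e i)) - pt (B' (e j))) ≤ D ^ 2
      rw [MainA_dist]
      exact pow_le_pow_left₀ dist_nonneg (hD _ (heE i) _ (heE j)) 2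
  · intro π hπ
    exact hPt π (hfin.mem_toFinset.1 hπ)

end Pool.Agent.ROT
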