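import Pool.Agent.ROT.Loc

/-!
# ROT-12: unbounded walls

`side s i j` = the points strictly to the right of the directed line from `b i` to `b j`.

`unb_form`.  Let `w = dir S R` and let `S`, `R` be optimal at `t + x w` for all `x ≥ 0`.  For every
`M`-set `Q`, `h S t + x dt w (bs S) ≤ h Q t + x dt w (bs Q)` for all `x ≥ 0`, so
`dt w (bs S) ≤ dt w (bs Q)`; the same for `R`.  Exchanging one element (`Q = S - i + l`) we get
(*) `dt w (b i) ≤ dt w (b l)` for `i ∈ S`, `l ∉ S`, and the same for `R`.
`S ≠ R` have the same cardinality, so there are `i ∈ S \ R`, `j ∈ R \ S`.  By (*) for `S` and for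
`R`, `dt w (b i) = dt w (b j) =: c`.  If there were another `i' ∈ S \ R`, then also
`dt w (b i') = c`, and `b i, b i', b j` would be collinear: `dt w (b i' - b i) = 0 = dt w (b j - b i)`
with `w ≠ 0` gives `cr (b i' - b i) (b j - b i) = 0`, contradiction to `Ncol`.
(`w ≠ 0`, since `bs S ≠ bs R`: otherwise, as `Unb` says, both are optimal at `t` and `bs_inj`
would give `S = R`; `bs_inj` is in `Loc`, import it if you like, or use `hs.gen` directly.)
So `S \ R = {i}`, `R \ S = {j}`; with `X = S ∩ R = S - i`: `S = X + i`, `R = X + j`,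
`bs R - bs S = b j - b i`, `dt w v = cr (b j - b i) v` (`dt_dir`).  For `l ∈ X`: by (*) with
`l ∈ S`, `j ∉ S`: `dt w (b l) ≤ c`, and `= c` is excluded by `Ncol` (`i, j, l` different).  For
`l ∉ X`, `l ≠ i, j`: `l ∉ S`, `i ∈ S` gives `dt w (b l) ≥ c` and again not `= c`.  Finally
`i, j` have `dt w (b _) = c`.  So `X = {l : cr (b j - b i) (b l - b i) < 0} = side i j`.

`unb_card_le`: the map `p ↦ (i,j)` is injective on `unb` (`p` is determined by `(i,j)`), and there
are `N * N` pairs.
-/

set_option autoImplicit false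

namespace Pool.Agent.ROT.Sys

variable {N : ℕ} {s : Sys N}

open Classical in
/-- The indices of the points strictly to the right of the line from `b i` to `b j`. -/
noncomputable def side (s : Sys N) (i j : Fin N) : Finset (Fin N) :=
  Finset.univ.filter fun l => cr (s.b j - s.b i) (s.b l - s.b i) < 0

lemma mem_side {i j l : Fin N} : l ∈ s.side i j ↔ cr (s.b j - s.b i) (s.b l - s.b i) < 0 := by
  simp [side]

lemma unbA_le_of_ray {a b c d : ℝ} (h : ∀ x : ℝ, 0 ≤ x → a + x * b ≤ c + x * d) : b ≤ d := by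
  by_contra hlt
  push Not at hlt
  have h0 := h 0 le_rfl
  have hpos : 0 < b - d := sub_pos.2 hlt
  have hx : 0 ≤ (c - a) / (b - d) + 1 := by
    have : 0 ≤ (c - a) / (b - d) := div_nonneg (by linarith) hpos.le
    linarith
  have h1 := h _ hx
  have h2 : ((c - a) / (b - d) + 1) * (b - d) = (c - a) + (b - d) := by
    field_simp
  nlinarith

lemma unbA_cr_eq_zero {w u v : ℝ × ℝ} (hw : w ≠ 0) (hu : dt w u = 0) (hv : dt w v = 0) :
    cr u v = 0 := by
  have h1 : w.1 * cr u v = 0 := by
    simp only [dt] at hu hv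
    simp only [cr]
    linear_combination v.2 * hu - u.2 * hv
  have h2 : w.2 * cr u v = 0 := by
    simp only [dt] at hu hv
    simp only [cr]
    linear_combination u.1 * hv - v.1 * hu
  rcases mul_eq_zero.1 h1 with h3 | h3
  · rcases mul_eq_zero.1 h2 with h4 | h4
    · exact absurd (Prod.ext h3 h4) hw
    · exact h4
  · exact h3

lemma unbA_star {S : Finset (Fin N)} {t w : ℝ × ℝ}
    (h : ∀ x : ℝ, 0 ≤ x → s.Opt (t + x • w) S) {i l : Fin N} (hi : i ∈ S) (hl : l ∉ S) :
    dt w (s.b i) ≤ dt w (s.b l) := by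
  have hil : l ∉ S.erase i := fun hh => hl (Finset.mem_of_mem_erase hh)
  have hcard : (insert l (S.erase i)).card = s.M := by
    rw [Finset.card_insert_of_notMem hil, Finset.card_erase_of_mem hi]
    have h0 := (h 0 le_rfl).1
    have : 0 < S.card := Finset.card_pos.2 ⟨i, hi⟩
    omega
  have h1 : dt w (s.bs S) ≤ dt w (s.bs (insert l (S.erase i))) := by
    apply unbA_le_of_ray (a := s.h S t) (c := s.h (insert l (S.erase i)) t)
    intro x hx
    have h2 := (h x hx).2 _ hcard
    rwa [h_add_smul, h_add_smul] at h2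
  rw [bs_insert s hil, bs_erase s hi, dt_add_right, dt_sub_right] at h1
  linarith

theorem unb_form (hs : s.Good) (hn : s.Ncol) {S R : Finset (Fin N)} (h : s.Unb S R) :
    ∃ i j : Fin N, i ≠ j ∧ S = insert i (s.side i j) ∧ R = insert j (s.side i j) ∧
      (s.side i j).card + 1 = s.M := by
  classical
  obtain ⟨hne, t, ht⟩ := h
  have hSo : ∀ x : ℝ, 0 ≤ x → s.Opt (t + x • s.dir S R) S := fun x hx => (ht x hx).1
  have hRo : ∀ x : ℝ, 0 ≤ x → s.Opt (t + x • s.dir S R) R := fun x hx => (ht x hx).2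
  have hSc : S.card = s.M := (hSo 0 le_rfl).1
  have hRc : R.card = s.M := (hRo 0 le_rfl).1
  have hS0 := hSo 0 le_rfl
  have hR0 := hRo 0 le_rfl
  have hw : s.dir S R ≠ 0 := by
    intro h0
    have h1 : s.bs S = s.bs R := by
      simp only [dir, rot, Prod.ext_iff, Prod.fst_zero, Prod.snd_zero, Prod.fst_sub,
        Prod.snd_sub] at h0
      ext
      · linarith [h0.2]
      · linarith [h0.1]
    exact hne (bs_inj hs hS0 hR0 h1)
  obtain ⟨i, hi⟩ : (S \ R).Nonempty := by
    rw [Finset.nonempty_iff_ne_empty]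
    intro h0
    rw [Finset.sdiff_eq_empty_iff_subset] at h0
    exact hne (Finset.eq_of_subset_of_card_le h0 (by omega))
  obtain ⟨j, hj⟩ : (R \ S).Nonempty := by
    rw [Finset.nonempty_iff_ne_empty]
    intro h0
    rw [Finset.sdiff_eq_empty_iff_subset] at h0
    exact hne (Finset.eq_of_subset_of_card_le h0 (by omega)).symm
  rw [Finset.mem_sdiff] at hi hj
  have hij : i ≠ j := fun hh => hj.2 (hh ▸ hi.1)
  set w := s.dir S R with hwdef
  have key : ∀ i', i' ∈ S → i' ∉ R → dt w (s.b i') = dt w (s.b j) := fun i' h1 h2 =>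
    le_antisymm (unbA_star hSo h1 hj.2) (unbA_star hRo hj.1 h2)
  have key' : ∀ j', j' ∈ R → j' ∉ S → dt w (s.b j') = dt w (s.b i) := fun j' h1 h2 =>
    le_antisymm (unbA_star hRo h1 hi.2) (unbA_star hSo hi.1 h2)
  have hijw : dt w (s.b i) = dt w (s.b j) := key i hi.1 hi.2
  have col : ∀ k, k ≠ i → k ≠ j → dt w (s.b k) ≠ dt w (s.b i) := by
    intro k hki hkj hk
    refine hn i k j (Ne.symm hki) hkj hij (unbA_cr_eq_zero hw ?_ ?_)
    · rw [dt_sub_right]; linarith
    · rw [dt_sub_right]; linarith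
  have hSR : ∀ k, k ∈ S → k ∉ R → k = i := by
    intro k h1 h2
    by_contra hki
    have hkj : k ≠ j := fun hh => hj.2 (hh ▸ h1)
    exact col k hki hkj ((key k h1 h2).trans hijw.symm)
  have hRS : ∀ k, k ∈ R → k ∉ S → k = j := by
    intro k h1 h2
    by_contra hkj
    have hki : k ≠ i := fun hh => hi.2 (hh ▸ h1)
    exact col k hki hkj (key' k h1 h2)
  have hSX : S = insert i (S.erase i) := (Finset.insert_erase hi.1).symm
  have hjX : j ∉ S.erase i := fun hh => hj.2 (Finset.mem_of_mem_erase hh)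
  have hRX : R = insert j (S.erase i) := by
    ext k
    rw [Finset.mem_insert, Finset.mem_erase]
    constructor
    · intro hk
      by_cases hkS : k ∈ S
      · exact Or.inr ⟨fun hh => hi.2 (hh ▸ hk), hkS⟩
      · exact Or.inl (hRS k hk hkS)
    · rintro (rfl | ⟨h1, h2⟩)
      · exact hj.1
      · by_contra hkR
        exact h1 (hSR k h2 hkR)
  have hbs : s.bs R - s.bs S = s.b j - s.b i := by
    rw [hRX, bs_insert s hjX, bs_erase s hi.1]
    abel
  have hdt : ∀ v, dt w v = cr (s.b j - s.b i) v := fun v => by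
    rw [hwdef, dt_dir, hbs]
  have hside : s.side i j = S.erase i := by
    ext l
    rw [mem_side, ← hdt, dt_sub_right, Finset.mem_erase]
    constructor
    · intro hl
      have hli : l ≠ i := by
        rintro rfl
        linarith
      refine ⟨hli, ?_⟩
      by_contra hlS
      have := unbA_star hSo hi.1 hlS
      linarith
    · rintro ⟨hli, hlS⟩
      have hlj : l ≠ j := fun hh => hj.2 (hh ▸ hlS)
      have h1 := unbA_star hSo hlS hj.2
      have h2 := col l hli hlj
      rcases lt_or_eq_of_le h1 with h3 | h3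
      · linarith
      · exact absurd (h3.trans hijw.symm) h2
  refine ⟨i, j, hij, ?_, ?_, ?_⟩
  · rw [hside]; exact hSX
  · rw [hside]; exact hRX
  · rw [hside, Finset.card_erase_of_mem hi.1]
    have : 0 < S.card := Finset.card_pos.2 ⟨i, hi.1⟩
    omega

theorem unb_card_le (hs : s.Good) (hn : s.Ncol) : s.unb.card ≤ N * N := by
  classical
  have hsub : s.unb ⊆ (Finset.univ : Finset (Fin N × Fin N)).image
      (fun q => (insert q.1 (s.side q.1 q.2), insert q.2 (s.side q.1 q.2))) := by
    intro p hp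
    rw [mem_unb] at hp
    obtain ⟨i, j, -, h1, h2, -⟩ := unb_form hs hn hp
    rw [Finset.mem_image]
    exact ⟨(i, j), Finset.mem_univ _, Prod.ext h1.symm h2.symm⟩
  calc s.unb.card ≤ _ := Finset.card_le_card hsub
    _ ≤ (Finset.univ : Finset (Fin N × Fin N)).card := Finset.card_image_le
    _ = N * N := by simp

end Pool.Agent.ROT.Sys
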