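import Pool.Agent.ROT.Loc

/-!
# ROT-4: a wall has at most one start, and it has one unless it is unbounded backwards

Let `v = bs R - bs S`, `w = dir S R = rot v`.

* `on_line`: if `S`, `R` are both optimal at `t` and at `t'`, then `h R - h S` vanishes at both
  points, so `dt (t' - t) v = 0` (`h_diff`) and `v ≠ 0` (`bs_inj`, as `S ≠ R`), hence
  `t' = t + x w` with `x = dt (t' - t) w / dt v v` (coordinates; `dt v v > 0`).
* `start_unique`: `t' = t + x w`.  If `x > 0` then `t = t' - x w` contradicts that `t'` is a start,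
  if `x < 0` then `t' = t - (-x) w` contradicts that `t` is a start.
* `start_or_unb`: let `t1 ≠ t2` be two points where both are optimal; `t2 = t1 + x w`, `x ≠ 0`;
  exchanging them we may assume `x > 0`.  Let `Z = {z : 0 ≤ z ∧ Both S R (t1 - z w)}`; it is closed
  (finitely many non-strict inequalities between affine functions of `z`), contains `0`, and if
  `z ∈ Z` then `[0,z] ⊆ Z` (convexity: each inequality `h S ≤ h Q` is affine in `z` and holds at
  `0` and at `z`).  If `Z` is not bounded above, then `Both S R (t1 - z w)` for all `z ≥ 0`, and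
  `dir R S = - w` (`dir_swap`), so `Unb R S` (with `t = t1`).  If `Z` is bounded above let
  `σ = sSup Z ∈ Z` (`IsClosed.csSup_mem`) and `t = t1 - σ w`.  Both are optimal at `t`; with
  `ε = σ + x > 0`, `t + ε w = t2`; and for `ε > 0`, `t - ε w = t1 - (σ + ε) w` and `σ + ε ∉ Z`.
  So `t` is a start.
* `start_first`: by `on_line`, `t' = t + x w`; `x < 0` is impossible because `t` is a start, so
  `dt w t' - dt w t = x dt w w ≥ 0`.
-/

set_option autoImplicit false

namespace Pool.Agent.ROT.Sys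

variable {N : ℕ} {s : Sys N}

theorem on_line (hs : s.Good) {S R : Finset (Fin N)} (hne : S ≠ R) {t t' : ℝ × ℝ}
    (h : s.Both S R t) (h' : s.Both S R t') : ∃ x : ℝ, t' = t + x • s.dir S R := by
  have h1 := h.1.eq h.2
  have h2 := h'.1.eq h'.2
  have h3 := s.h_diff S R t t'
  have hv : s.bs R - s.bs S ≠ 0 := fun h0 => hne (bs_inj hs h.1 h.2 (sub_eq_zero.1 h0).symm)
  rw [dir]
  generalize s.bs R - s.bs S = v at h3 hv ⊢
  have h4 : dt (t' - t) v = 0 := by linarith
  simp only [dt, Prod.fst_sub, Prod.snd_sub] at h4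
  have hn : 0 < v.1 ^ 2 + v.2 ^ 2 := by
    rcases (show v.1 ≠ 0 ∨ v.2 ≠ 0 by
      by_contra hcon
      push Not at hcon
      exact hv (Prod.ext hcon.1 hcon.2)) with h5 | h5
    · have := pow_pos (abs_pos.2 h5) 2
      rw [sq_abs] at this
      nlinarith [sq_nonneg v.2]
    · have := pow_pos (abs_pos.2 h5) 2
      rw [sq_abs] at this
      nlinarith [sq_nonneg v.1]
  refine ⟨((t'.2 - t.2) * v.1 - (t'.1 - t.1) * v.2) / (v.1 ^ 2 + v.2 ^ 2), Prod.ext ?_ ?_⟩
  · simp only [rot, Prod.fst_add, Prod.smul_fst, smul_eq_mul]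
    field_simp
    linear_combination v.1 * h4
  · simp only [rot, Prod.snd_add, Prod.smul_snd, smul_eq_mul]
    field_simp
    linear_combination v.2 * h4

theorem start_unique (hs : s.Good) {S R : Finset (Fin N)} {t t' : ℝ × ℝ}
    (h : s.IsStart S R t) (h' : s.IsStart S R t') : t = t' := by
  obtain ⟨x, hx⟩ := on_line hs h.1 h.2.1 h'.2.1
  rcases lt_trichotomy x 0 with h0 | h0 | h0
  · exfalso
    refine h.2.2.2 (-x) (by linarith) ?_
    rw [neg_smul, sub_neg_eq_add, ← hx]
    exact h'.2.1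
  · rw [hx, h0, zero_smul, add_zero]
  · exfalso
    refine h'.2.2.2 x h0 ?_
    rw [hx, add_sub_cancel_right]
    exact h.2.1

theorem start_aux {S R : Finset (Fin N)} (hne : S ≠ R) {t : ℝ × ℝ} {x : ℝ} (hx : 0 < x)
    (h : s.Both S R t) (h' : s.Both S R (t + x • s.dir S R)) :
    (∃ t, s.IsStart S R t) ∨ s.Unb R S := by
  classical
  have hw : dt (s.dir S R) (s.bs R) = dt (s.dir S R) (s.bs S) := by
    have := s.dt_dir_self S R
    rw [dt_sub_right] at this
    linarith
  have h0 : s.h S t = s.h R t := h.1.eq h.2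
  -- the condition
  have key : ∀ z : ℝ, s.Both S R (t - z • s.dir S R) ↔ ∀ Q : Finset (Fin N), Q.card = s.M →
      z * (dt (s.dir S R) (s.bs Q) - dt (s.dir S R) (s.bs S)) ≤ s.h Q t - s.h S t := by
    intro z
    constructor
    · intro hb Q hQ
      have h1 := hb.1.2 Q hQ
      rw [h_sub_smul, h_sub_smul] at h1
      linarith
    · intro hQ
      have hS : s.Opt (t - z • s.dir S R) S := by
        refine ⟨h.1.1, fun Q hQc => ?_⟩
        have h1 := hQ Q hQc
        rw [h_sub_smul, h_sub_smul]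
        linarith
      refine ⟨hS, hS.of_le h.2.1 ?_⟩
      rw [h_sub_smul, h_sub_smul, hw, h0]
  set c : Finset (Fin N) → ℝ := fun Q => dt (s.dir S R) (s.bs Q) - dt (s.dir S R) (s.bs S) with hc
  set a : Finset (Fin N) → ℝ := fun Q => s.h Q t - s.h S t with ha
  have ha0 : ∀ Q : Finset (Fin N), Q.card = s.M → 0 ≤ a Q := fun Q hQ => sub_nonneg.2 (h.1.2 Q hQ)
  let F : Finset (Finset (Fin N)) := Finset.univ.filter fun Q => Q.card = s.M ∧ 0 < c Q
  have hF : ∀ Q, Q ∈ F ↔ Q.card = s.M ∧ 0 < c Q := fun Q => by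
    rw [Finset.mem_filter]
    exact ⟨fun h => h.2, fun h => ⟨Finset.mem_univ _, h⟩⟩
  rcases F.eq_empty_or_nonempty with hemp | hnem
  · right
    refine ⟨hne.symm, t, fun z hz => Both.symm ?_⟩
    rw [dir_swap, smul_neg, ← sub_eq_add_neg]
    refine (key z).2 fun Q hQ => ?_
    have h1 : c Q ≤ 0 := by
      by_contra h2
      have h3 : Q ∈ F := (hF Q).2 ⟨hQ, not_le.1 h2⟩
      rw [hemp] at h3
      exact absurd h3 (Finset.notMem_empty _)
    exact (mul_nonpos_of_nonneg_of_nonpos hz h1).trans (ha0 Q hQ)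
  · left
    obtain ⟨Q0, hQ0, hmin⟩ := F.exists_min_image (fun Q => a Q / c Q) hnem
    obtain ⟨hQ0c, hQ0p⟩ := (hF Q0).1 hQ0
    have hσ : 0 ≤ a Q0 / c Q0 := div_nonneg (ha0 Q0 hQ0c) hQ0p.le
    refine ⟨t - (a Q0 / c Q0) • s.dir S R, hne, (key _).2 fun Q hQ => ?_,
      ⟨a Q0 / c Q0 + x, by linarith, ?_⟩, fun ε hε hb => ?_⟩
    · rcases le_or_gt (c Q) 0 with h1 | h1
      · exact (mul_nonpos_of_nonneg_of_nonpos hσ h1).trans (ha0 Q hQ)
      · have h2 := hmin Q ((hF Q).2 ⟨hQ, h1⟩)
        exact (le_div_iff₀ h1).1 h2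
    · have h1 : t - (a Q0 / c Q0) • s.dir S R + (a Q0 / c Q0 + x) • s.dir S R =
          t + x • s.dir S R := by
        rw [add_smul]; abel
      rw [h1]
      exact h'
    · have h1 : t - (a Q0 / c Q0) • s.dir S R - ε • s.dir S R =
          t - (a Q0 / c Q0 + ε) • s.dir S R := by
        rw [add_smul]; abel
      rw [h1] at hb
      have h2 : (a Q0 / c Q0 + ε) * c Q0 ≤ a Q0 := (key _).1 hb Q0 hQ0c
      rw [add_mul, div_mul_cancel₀ _ hQ0p.ne'] at h2
      have h3 := mul_pos hε hQ0p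
      linarith

theorem start_or_unb (hs : s.Good) {S R : Finset (Fin N)} (hw : s.Wall S R) :
    (∃ t, s.IsStart S R t) ∨ s.Unb R S := by
  obtain ⟨hne, t1, t2, htt, h1, h2⟩ := hw
  obtain ⟨x, hx⟩ := on_line hs hne h1 h2
  rcases lt_trichotomy x 0 with h0 | h0 | h0
  · refine start_aux hne (t := t2) (x := -x) (by linarith) h2 ?_
    have h3 : t2 + (-x) • s.dir S R = t1 := by
      rw [hx, neg_smul, add_neg_cancel_right]
    rw [h3]
    exact h1
  · exact absurd (by rw [hx, h0, zero_smul, add_zero]) htt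
  · refine start_aux hne (t := t1) (x := x) h0 h1 ?_
    rw [← hx]
    exact h2

theorem start_first (hs : s.Good) {S R : Finset (Fin N)} {t t' : ℝ × ℝ}
    (h : s.IsStart S R t) (h' : s.Both S R t') : dt (s.dir S R) t ≤ dt (s.dir S R) t' := by
  obtain ⟨x, hx⟩ := on_line hs h.1 h.2.1 h'
  have h0 : 0 ≤ x := by
    by_contra h0
    refine h.2.2.2 (-x) (by linarith) ?_
    rw [neg_smul, sub_neg_eq_add, ← hx]
    exact h'
  rw [hx, dt_add_right, dt_smul_right]
  have h1 : 0 ≤ dt (s.dir S R) (s.dir S R) := by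
    simp only [dt]
    nlinarith [mul_self_nonneg (s.dir S R).1, mul_self_nonneg (s.dir S R).2]
  have := mul_nonneg h0 h1
  linarith

end Pool.Agent.ROT.Sys
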