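import Pool.Agent.ROT.Flag
import Pool.Agent.ROT.Start

/-!
# ROT-8: all walls lie on few lines

For a pair `p = (S,R)` let `g p x = h R x - h S x`, an affine function of `x` with gradient
`bs R - bs S` (`h_diff`); it is nonzero for a wall (`bs_inj`).

`origin`: for every wall `(S,R)` there are a pair `q` and `κ > 0` with `g q = κ g (S,R)` and
`q ∈ tflags` or `q.swap ∈ unb`.
Proof.  Let `K` be the (finite) set of all pairs `q` with `Wall q.1 q.2` and `g q = κ g (S,R)` for
some `κ > 0`; it contains `(S,R)`.  If some `q ∈ K` has no start, then `Unb q.2 q.1` by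
`start_or_unb` and `q.swap ∈ unb`.  Otherwise choose starts `st q` for `q ∈ K` and let `q ∈ K`
minimise `dt w (st q)`, `w = dir S R` (`Finset.exists_min_image`); note that
`dir q.1 q.2 = κ w`, since the gradient of `g q` is `κ` times the one of `g (S,R)`.  At `t = st q`
there are at least three optimal sets (`three_of_start`); if exactly three, `q ∈ tflags`.  If not,
`classify` gives `Par` (in the two triangle cases `opts t` has exactly three elements), and
`Par.partner` gives `(S',R')` with `g (S',R') = g q`, both optimal at `t` and at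
`t - ε dir q.1 q.2`; so `S' ≠ R'` (the gradient is nonzero), `Wall S' R'` (the two points are
different), `(S',R') ∈ K`.  By `start_first` for the start `t'` of `(S',R')`:
`dt w t' ≤ dt w (t - ε dir q.1 q.2) < dt w t` (`dir S' R' = dir q.1 q.2 = κ w`), which contradicts
the choice of `q`.

`lines`: let `O = tflags ∪ unb.image Prod.swap`, `O.card ≤ tflags.card + unb.card`.  Call a vector
`v` positive if `0 < v.1 ∨ (v.1 = 0 ∧ 0 < v.2)`; for `v ≠ 0` exactly one of `v`, `-v` is positive.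
Let `O1` (`O2`) be the set of `q ∈ O` such that `bs q.2 - bs q.1` (`bs q.1 - bs q.2`) is positive;
they are disjoint, so one of them, call it `Rp`, satisfies `2 * Rp.card ≤ O.card`.  If `Rp = O1`:
for a wall `(S,R)` either the gradient is positive, and `origin` for `(S,R)` gives `q ∈ O1`, or the
gradient of `(R,S)` is positive, and `origin` for `(R,S)` gives `q ∈ O1`; in both cases
`g (S,R) = κ' g q` with `κ' ≠ 0`.  Similarly if `Rp = O2`.
-/

set_option autoImplicit false

namespace Pool.Agent.ROT.Sys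

variable {N : ℕ} {s : Sys N}

theorem lines_grad {S R S' R' : Finset (Fin N)} {κ : ℝ}
    (h : ∀ x, s.h R' x - s.h S' x = κ * (s.h R x - s.h S x)) :
    s.bs R' - s.bs S' = κ • (s.bs R - s.bs S) := by
  have h1 := h_diff s S R (0, 0) (1, 0)
  have h2 := h_diff s S R (0, 0) (0, 1)
  have h3 := h_diff s S' R' (0, 0) (1, 0)
  have h4 := h_diff s S' R' (0, 0) (0, 1)
  rw [h, h, ← mul_sub, h1] at h3
  rw [h, h, ← mul_sub, h2] at h4
  simp only [dt, Prod.fst_sub, Prod.snd_sub] at h3 h4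
  ext
  · simp only [Prod.fst_sub, Prod.smul_fst, smul_eq_mul]
    linarith
  · simp only [Prod.snd_sub, Prod.smul_snd, smul_eq_mul]
    linarith

theorem lines_ne (hs : s.Good) {S R : Finset (Fin N)} (hw : s.Wall S R) :
    s.bs R - s.bs S ≠ 0 := by
  obtain ⟨hne, t, -, -, h1, -⟩ := hw
  intro h
  exact hne (bs_inj hs h1.1 h1.2 (sub_eq_zero.1 h).symm)

theorem lines_dt_pos {w : ℝ × ℝ} (h : w ≠ 0) : 0 < dt w w := by
  unfold dt
  rcases eq_or_ne w.1 0 with h1 | h1
  · have h2 : w.2 ≠ 0 := fun h2 => h (Prod.ext h1 h2)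
    have := mul_self_pos.2 h2
    rw [h1]
    linarith
  · have := mul_self_pos.2 h1
    have := mul_self_nonneg w.2
    linarith

theorem lines_dir_ne (hs : s.Good) {S R : Finset (Fin N)} (hw : s.Wall S R) :
    s.dir S R ≠ 0 := by
  intro h
  refine lines_ne hs hw ?_
  unfold dir rot at h
  rw [Prod.mk_eq_zero] at h
  exact Prod.ext h.2 (neg_eq_zero.1 h.1)

theorem lines_dir {S R S' R' : Finset (Fin N)} {κ : ℝ}
    (h : ∀ x, s.h R' x - s.h S' x = κ * (s.h R x - s.h S x)) :
    s.dir S' R' = κ • s.dir S R := by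
  unfold dir
  rw [lines_grad h]
  ext
  · simp only [rot, Prod.smul_fst, Prod.smul_snd, smul_eq_mul]
    ring
  · simp only [rot, Prod.smul_fst, Prod.smul_snd, smul_eq_mul]

theorem origin (hs : s.Good) {S R : Finset (Fin N)} (hw : s.Wall S R) :
    ∃ q : Finset (Fin N) × Finset (Fin N), (q ∈ s.tflags ∨ q.swap ∈ s.unb) ∧
      ∃ κ : ℝ, 0 < κ ∧ ∀ x, s.h q.2 x - s.h q.1 x = κ * (s.h R x - s.h S x) := by
  classical
  set K : Finset (Finset (Fin N) × Finset (Fin N)) := Finset.univ.filter fun q =>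
    s.Wall q.1 q.2 ∧ ∃ κ : ℝ, 0 < κ ∧
      ∀ x, s.h q.2 x - s.h q.1 x = κ * (s.h R x - s.h S x) with hK
  have memK : ∀ q, q ∈ K ↔ s.Wall q.1 q.2 ∧ ∃ κ : ℝ, 0 < κ ∧
      ∀ x, s.h q.2 x - s.h q.1 x = κ * (s.h R x - s.h S x) := by
    intro q
    simp [hK]
  have hSR : (S, R) ∈ K := (memK _).2 ⟨hw, 1, one_pos, fun x => (one_mul _).symm⟩
  by_cases hst : ∀ q ∈ K, ∃ t, s.IsStart q.1 q.2 t
  swap
  · push Not at hst
    obtain ⟨q, hq, hno⟩ := hst
    obtain ⟨hqw, κ, hκ, hqx⟩ := (memK q).1 hq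
    refine ⟨q, Or.inr ?_, κ, hκ, hqx⟩
    rw [mem_unb]
    rcases start_or_unb hs hqw with ⟨t, ht⟩ | h
    · exact absurd ht (hno t)
    · exact h
  choose! st hst using hst
  obtain ⟨q, hq, hmin⟩ := Finset.exists_min_image K (fun q => dt (s.dir S R) (st q)) ⟨_, hSR⟩
  obtain ⟨hqw, κ, hκ, hqx⟩ := (memK q).1 hq
  refine ⟨q, ?_, κ, hκ, hqx⟩
  have hs0 := hst q hq
  by_cases h3 : (s.opts (st q)).card = 3
  · exact Or.inl ((mem_tflags _).2 ⟨st q, hs0, h3⟩)
  exfalso
  have h3' : 3 ≤ (s.opts (st q)).card := three_of_start hs0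
  rcases classify hs h3' with ⟨X, i, j, k, hX⟩ | ⟨T, i, j, k, hT⟩ | ⟨Y, i, j, k, l, hY⟩
  · have : s.opts (st q) ⊆ {insert i X, insert j X, insert k X} := by
      intro Q hQ
      rw [mem_opts, hX.opt] at hQ
      simpa using hQ
    have := (Finset.card_le_card this).trans Finset.card_le_three
    omega
  · have : s.opts (st q) ⊆ {T.erase i, T.erase j, T.erase k} := by
      intro Q hQ
      rw [mem_opts, hT.opt] at hQ
      simpa using hQ
    have := (Finset.card_le_card this).trans Finset.card_le_three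
    omega
  · obtain ⟨S', R', hx, hb, ε, hε, hb'⟩ := hY.partner hs0
    have hx' : ∀ x, s.h R' x - s.h S' x = κ * (s.h R x - s.h S x) := fun x => by
      rw [hx, hqx]
    have hdir' : s.dir S' R' = κ • s.dir S R := lines_dir hx'
    have hdirq : s.dir q.1 q.2 = κ • s.dir S R := lines_dir hqx
    have hw0 := lines_dir_ne hs hw
    have hne' : S' ≠ R' := by
      rintro rfl
      have h5 := lines_grad hx'
      rw [sub_self] at h5
      exact lines_ne hs hw ((smul_eq_zero.1 h5.symm).resolve_left hκ.ne')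
    have hwall' : s.Wall S' R' := by
      refine ⟨hne', _, _, ?_, hb, hb'⟩
      intro h5
      have h6 : ε • s.dir q.1 q.2 = 0 := by
        have h7 := congrArg (fun z => st q - z) h5
        simpa using h7.symm
      rw [hdirq] at h6
      rcases smul_eq_zero.1 h6 with h7 | h7
      · exact hε.ne' h7
      · exact hw0 ((smul_eq_zero.1 h7).resolve_left hκ.ne')
    have hmem' : (S', R') ∈ K := (memK _).2 ⟨hwall', κ, hκ, hx'⟩
    have h6 := hmin _ hmem'
    have h7 := start_first hs (hst _ hmem') hb'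
    dsimp only at h6 h7
    rw [hdir', hdirq, dt_smul_left, dt_smul_left, dt_sub_right, dt_smul_right, dt_smul_right] at h7
    have h8 := lines_dt_pos hw0
    have h9 := le_of_mul_le_mul_left h7 hκ
    have h10 : 0 < ε * (κ * dt (s.dir S R) (s.dir S R)) := by positivity
    linarith

/-- Positive vectors. -/
def LinesPos (v : ℝ × ℝ) : Prop := 0 < v.1 ∨ (v.1 = 0 ∧ 0 < v.2)

theorem linesPos_or {v : ℝ × ℝ} (h : v ≠ 0) : LinesPos v ∨ LinesPos (-v) := by
  unfold LinesPos
  simp only [Prod.fst_neg, Prod.snd_neg]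
  rcases lt_trichotomy v.1 0 with h1 | h1 | h1
  · exact Or.inr (Or.inl (by linarith))
  · rcases lt_trichotomy v.2 0 with h2 | h2 | h2
    · exact Or.inr (Or.inr ⟨by rw [h1, neg_zero], by linarith⟩)
    · exact absurd (Prod.ext h1 h2) h
    · exact Or.inl (Or.inr ⟨h1, h2⟩)
  · exact Or.inl (Or.inl h1)

theorem linesPos_not {v : ℝ × ℝ} (h : LinesPos v) : ¬ LinesPos (-v) := by
  unfold LinesPos at *
  simp only [Prod.fst_neg, Prod.snd_neg]
  rintro (h1 | ⟨h1, h2⟩) <;> rcases h with h3 | ⟨h3, h4⟩ <;> linarith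

theorem linesPos_smul {v : ℝ × ℝ} {κ : ℝ} (hκ : 0 < κ) (h : LinesPos v) :
    LinesPos (κ • v) := by
  unfold LinesPos at *
  simp only [Prod.smul_fst, Prod.smul_snd, smul_eq_mul]
  rcases h with h | ⟨h1, h2⟩
  · exact Or.inl (mul_pos hκ h)
  · exact Or.inr ⟨by rw [h1, mul_zero], mul_pos hκ h2⟩

theorem lines (hs : s.Good) : ∃ Rp : Finset (Finset (Fin N) × Finset (Fin N)),
    2 * Rp.card ≤ s.tflags.card + s.unb.card ∧ ∀ S R, s.Wall S R → ∃ p ∈ Rp, ∃ κ : ℝ, κ ≠ 0 ∧
      ∀ x, s.h R x - s.h S x = κ * (s.h p.2 x - s.h p.1 x) := by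
  classical
  set O : Finset (Finset (Fin N) × Finset (Fin N)) := s.tflags ∪ s.unb.image Prod.swap with hO
  have hOcard : O.card ≤ s.tflags.card + s.unb.card :=
    (Finset.card_union_le _ _).trans (Nat.add_le_add_left Finset.card_image_le _)
  have horg : ∀ S R, s.Wall S R → ∃ q ∈ O, ∃ κ : ℝ, 0 < κ ∧
      (∀ x, s.h q.2 x - s.h q.1 x = κ * (s.h R x - s.h S x)) ∧
      s.bs q.2 - s.bs q.1 = κ • (s.bs R - s.bs S) := by
    intro S R hw
    obtain ⟨q, hq, κ, hκ, hx⟩ := origin hs hw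
    refine ⟨q, ?_, κ, hκ, hx, lines_grad hx⟩
    rw [hO, Finset.mem_union]
    rcases hq with hq | hq
    · exact Or.inl hq
    · refine Or.inr (Finset.mem_image.2 ⟨_, hq, ?_⟩)
      exact Prod.swap_swap q
  set O1 := O.filter fun q => LinesPos (s.bs q.2 - s.bs q.1) with hO1
  set O2 := O.filter fun q => LinesPos (s.bs q.1 - s.bs q.2) with hO2
  have hdisj : Disjoint O1 O2 := by
    rw [Finset.disjoint_left]
    intro q h1 h2
    have h3 := (Finset.mem_filter.1 h1).2
    have h4 := (Finset.mem_filter.1 h2).2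
    refine linesPos_not h3 ?_
    rwa [neg_sub]
  have hcard : O1.card + O2.card ≤ O.card := by
    rw [← Finset.card_union_of_disjoint hdisj]
    exact Finset.card_le_card (Finset.union_subset (Finset.filter_subset _ _)
      (Finset.filter_subset _ _))
  by_cases h12 : 2 * O1.card ≤ O.card
  · refine ⟨O1, h12.trans hOcard, fun S R hw => ?_⟩
    rcases linesPos_or (lines_ne hs hw) with h1 | h1
    · obtain ⟨q, hq, κ, hκ, hx, hg⟩ := horg S R hw
      refine ⟨q, Finset.mem_filter.2 ⟨hq, ?_⟩, κ⁻¹, inv_ne_zero hκ.ne', fun x => ?_⟩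
      · rw [hg]
        exact linesPos_smul hκ h1
      · rw [hx, inv_mul_cancel_left₀ hκ.ne']
    · obtain ⟨q, hq, κ, hκ, hx, hg⟩ := horg R S hw.symm
      refine ⟨q, Finset.mem_filter.2 ⟨hq, ?_⟩, -κ⁻¹, neg_ne_zero.2 (inv_ne_zero hκ.ne'),
        fun x => ?_⟩
      · rw [hg]
        rw [neg_sub] at h1
        exact linesPos_smul hκ h1
      · rw [hx, neg_mul, inv_mul_cancel_left₀ hκ.ne', neg_sub]
  · refine ⟨O2, by omega, fun S R hw => ?_⟩
    rcases linesPos_or (lines_ne hs hw) with h1 | h1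
    · obtain ⟨q, hq, κ, hκ, hx, hg⟩ := horg R S hw.symm
      refine ⟨q, Finset.mem_filter.2 ⟨hq, ?_⟩, -κ⁻¹, neg_ne_zero.2 (inv_ne_zero hκ.ne'),
        fun x => ?_⟩
      · rw [← neg_sub, hg, ← smul_neg, neg_sub]
        exact linesPos_smul hκ h1
      · rw [hx, neg_mul, inv_mul_cancel_left₀ hκ.ne', neg_sub]
    · obtain ⟨q, hq, κ, hκ, hx, hg⟩ := horg S R hw
      refine ⟨q, Finset.mem_filter.2 ⟨hq, ?_⟩, κ⁻¹, inv_ne_zero hκ.ne', fun x => ?_⟩
      · rw [← neg_sub, hg, ← smul_neg]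
        exact linesPos_smul hκ h1
      · rw [hx, inv_mul_cancel_left₀ hκ.ne']

end Pool.Agent.ROT.Sys
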