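import Pool.Agent.ROT.Flag

/-!
# ROT-9: two cells are separated by the line of a wall

`exists_wall`: `S`, `Q` optimal at `p`, `dt u (bs Q) < dt u (bs S)`.
If `opts p` has exactly two elements, these are `S` and `Q`, all cross products
`cr (bs Q - bs S) (bs Q' - bs S)`, `Q'` optimal at `p`, vanish, and `wall_of_le` gives `Wall S Q`
(`bs S ≠ bs Q` because the products with `u` differ).  Otherwise `classify`.  At a triangle
(`TriW.flagsAt_eq`, `TriB.flagsAt_eq`) for any two different optimal sets `(S,Q)` or `(Q,S)` is a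
flag, so `Wall S Q` by `wall_of_start` (and `Wall.symm`): take `R = Q`.  At a parallelogram
`a,b,c,d` (in this order) the same holds for neighbours.  If `Q` is opposite to `S`, let `R1, R2` be
the two neighbours of `S`; then `bs Q - bs S = (bs R1 - bs S) + (bs R2 - bs S)`, so
`dt u (bs R) < dt u (bs S)` for `R = R1` or `R = R2`.

`sep`: `S` is the unique optimal set at `t`, `S'` the unique optimal set at `t'`, `S ≠ S'`.  Let
`u = t' - t` and `Z = {x ∈ [0,1] : S optimal at t + x u}`.  `Z` is closed, contains `0`, not `1`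
(there `S'` is the unique optimal set); `σ = sSup Z ∈ Z`, `σ < 1`.  Let `p = t + σ u`.  For all
small `ε > 0` (such that `σ + ε ≤ 1`), `S` is not optimal at `p + ε u`; by `near` (direction `u`)
there is `Q` optimal at `p` with `dt u (bs Q) < dt u (bs S)`.  Take `R` from `exists_wall`.
The function `G x = h R (t + x u) - h S (t + x u)` is affine in `x` with slope
`dt u (bs R - bs S) < 0` (`h_add_smul`) and `G σ = 0`, so `G 1 < 0`, which is the last claim.
`h S t < h R t` holds because `S` is the unique optimal set at `t` and `R ≠ S`.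
-/

set_option autoImplicit false

namespace Pool.Agent.ROT.Sys

variable {N : ℕ} {s : Sys N}

lemma sep_wall_of_mem {p : ℝ × ℝ} {S R : Finset (Fin N)} (h : (S, R) ∈ s.flagsAt p) :
    s.Wall S R := wall_of_start (s.mem_flagsAt.1 h)

lemma sep_wall_of_mem' {p : ℝ × ℝ} {S R : Finset (Fin N)} (h : (R, S) ∈ s.flagsAt p) :
    s.Wall S R := (wall_of_start (s.mem_flagsAt.1 h)).symm

lemma sep_opp {u a b c d x : ℝ × ℝ} (h : dt u (b + (d + x)) < dt u (a + (c + x))) :
    dt u (b + (c + x)) < dt u (a + (c + x)) ∨ dt u (a + (d + x)) < dt u (a + (c + x)) := by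
  simp only [dt_add_right] at h ⊢
  by_contra hcon
  push Not at hcon
  obtain ⟨h1, h2⟩ := hcon
  linarith

theorem exists_wall (hs : s.Good) {p u : ℝ × ℝ} {S Q : Finset (Fin N)} (hS : s.Opt p S)
    (hQ : s.Opt p Q) (hlt : dt u (s.bs Q) < dt u (s.bs S)) :
    ∃ R, s.Wall S R ∧ s.Opt p R ∧ dt u (s.bs R) < dt u (s.bs S) := by
  classical
  by_cases h3 : 3 ≤ (s.opts p).card
  · rcases classify hs h3 with ⟨X, i, j, k, h⟩ | ⟨T, i, j, k, h⟩ | ⟨Y, i, j, k, l, h⟩
    · refine ⟨Q, ?_, hQ, hlt⟩
      have hf := h.flagsAt_eq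
      rcases (h.opt S).1 hS with rfl | rfl | rfl <;> rcases (h.opt Q).1 hQ with rfl | rfl | rfl
      · exact absurd hlt (lt_irrefl _)
      · exact sep_wall_of_mem (p := p) (by rw [hf]; simp)
      · exact sep_wall_of_mem' (p := p) (by rw [hf]; simp)
      · exact sep_wall_of_mem' (p := p) (by rw [hf]; simp)
      · exact absurd hlt (lt_irrefl _)
      · exact sep_wall_of_mem (p := p) (by rw [hf]; simp)
      · exact sep_wall_of_mem (p := p) (by rw [hf]; simp)
      · exact sep_wall_of_mem' (p := p) (by rw [hf]; simp)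
      · exact absurd hlt (lt_irrefl _)
    · refine ⟨Q, ?_, hQ, hlt⟩
      have hf := h.flagsAt_eq
      rcases (h.opt S).1 hS with rfl | rfl | rfl <;> rcases (h.opt Q).1 hQ with rfl | rfl | rfl
      · exact absurd hlt (lt_irrefl _)
      · exact sep_wall_of_mem (p := p) (by rw [hf]; simp)
      · exact sep_wall_of_mem' (p := p) (by rw [hf]; simp)
      · exact sep_wall_of_mem' (p := p) (by rw [hf]; simp)
      · exact absurd hlt (lt_irrefl _)
      · exact sep_wall_of_mem (p := p) (by rw [hf]; simp)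
      · exact sep_wall_of_mem (p := p) (by rw [hf]; simp)
      · exact sep_wall_of_mem' (p := p) (by rw [hf]; simp)
      · exact absurd hlt (lt_irrefl _)
    · have hf := h.flagsAt_eq
      have oa : s.Opt p (insert i (insert k Y)) := (h.opt _).2 (Or.inl rfl)
      have ob : s.Opt p (insert j (insert k Y)) := (h.opt _).2 (Or.inr (Or.inl rfl))
      have oc : s.Opt p (insert j (insert l Y)) := (h.opt _).2 (Or.inr (Or.inr (Or.inl rfl)))
      have od : s.Opt p (insert i (insert l Y)) := (h.opt _).2 (Or.inr (Or.inr (Or.inr rfl)))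
      have wab : s.Wall (insert i (insert k Y)) (insert j (insert k Y)) :=
        sep_wall_of_mem (p := p) (by rw [hf]; simp)
      have wbc : s.Wall (insert j (insert k Y)) (insert j (insert l Y)) :=
        sep_wall_of_mem (p := p) (by rw [hf]; simp)
      have wcd : s.Wall (insert j (insert l Y)) (insert i (insert l Y)) :=
        sep_wall_of_mem (p := p) (by rw [hf]; simp)
      have wda : s.Wall (insert i (insert l Y)) (insert i (insert k Y)) :=
        sep_wall_of_mem (p := p) (by rw [hf]; simp)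
      have hi := h.hi
      have hj := h.hj
      have hk := h.hk
      have hl := h.hl
      have ea : s.bs (insert i (insert k Y)) = s.b i + (s.b k + s.bs Y) := by
        rw [s.bs_insert (by simp [h.hik, hi]), s.bs_insert hk]
      have eb : s.bs (insert j (insert k Y)) = s.b j + (s.b k + s.bs Y) := by
        rw [s.bs_insert (by simp [h.hjk, hj]), s.bs_insert hk]
      have ec : s.bs (insert j (insert l Y)) = s.b j + (s.b l + s.bs Y) := by
        rw [s.bs_insert (by simp [h.hjl, hj]), s.bs_insert hl]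
      have ed : s.bs (insert i (insert l Y)) = s.b i + (s.b l + s.bs Y) := by
        rw [s.bs_insert (by simp [h.hil, hi]), s.bs_insert hl]
      rcases (h.opt S).1 hS with rfl | rfl | rfl | rfl <;>
        rcases (h.opt Q).1 hQ with rfl | rfl | rfl | rfl
      · exact absurd hlt (lt_irrefl _)
      · exact ⟨_, wab, ob, hlt⟩
      · rw [ea, ec] at hlt
        rcases sep_opp hlt with h1 | h1
        · exact ⟨_, wab, ob, by rw [ea, eb]; exact h1⟩
        · exact ⟨_, wda.symm, od, by rw [ea, ed]; exact h1⟩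
      · exact ⟨_, wda.symm, od, hlt⟩
      · exact ⟨_, wab.symm, oa, hlt⟩
      · exact absurd hlt (lt_irrefl _)
      · exact ⟨_, wbc, oc, hlt⟩
      · rw [eb, ed] at hlt
        rcases sep_opp hlt with h1 | h1
        · exact ⟨_, wab.symm, oa, by rw [ea, eb]; exact h1⟩
        · exact ⟨_, wbc, oc, by rw [eb, ec]; exact h1⟩
      · rw [ea, ec] at hlt
        rcases sep_opp hlt with h1 | h1
        · exact ⟨_, wcd, od, by rw [ec, ed]; exact h1⟩
        · exact ⟨_, wbc.symm, ob, by rw [eb, ec]; exact h1⟩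
      · exact ⟨_, wbc.symm, ob, hlt⟩
      · exact absurd hlt (lt_irrefl _)
      · exact ⟨_, wcd, od, hlt⟩
      · exact ⟨_, wda, oa, hlt⟩
      · rw [eb, ed] at hlt
        rcases sep_opp hlt with h1 | h1
        · exact ⟨_, wcd.symm, oc, by rw [ec, ed]; exact h1⟩
        · exact ⟨_, wda, oa, by rw [ea, ed]; exact h1⟩
      · exact ⟨_, wcd.symm, oc, hlt⟩
      · exact absurd hlt (lt_irrefl _)
  · refine ⟨Q, ?_, hQ, hlt⟩
    have hSQ : S ≠ Q := by
      rintro rfl
      exact absurd hlt (lt_irrefl _)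
    refine wall_of_le hS hQ ?_ ?_
    · intro hb
      rw [hb] at hlt
      exact absurd hlt (lt_irrefl _)
    · intro Q' hQ'
      have h2 : Q' = S ∨ Q' = Q := by
        by_contra hcon
        push Not at hcon
        apply h3
        have hsub : ({S, Q, Q'} : Finset (Finset (Fin N))) ⊆ s.opts p := by
          intro x hx
          simp only [Finset.mem_insert, Finset.mem_singleton] at hx
          rcases hx with rfl | rfl | rfl
          · exact s.mem_opts.2 hS
          · exact s.mem_opts.2 hQ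
          · exact s.mem_opts.2 hQ'
        have hcard : ({S, Q, Q'} : Finset (Finset (Fin N))).card = 3 :=
          Finset.card_eq_three.2 ⟨S, Q, Q', hSQ, hcon.1.symm, hcon.2.symm, rfl⟩
        rw [← hcard]
        exact Finset.card_le_card hsub
      rcases h2 with rfl | rfl
      · rw [sub_self]
        simp [cr]
      · rw [cr_self]

theorem sep (hs : s.Good) {S S' : Finset (Fin N)} {t t' : ℝ × ℝ} (hS : S.card = s.M)
    (hu : ∀ R : Finset (Fin N), R.card = s.M → R ≠ S → s.h S t < s.h R t)
    (hS' : S'.card = s.M)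
    (hu' : ∀ R : Finset (Fin N), R.card = s.M → R ≠ S' → s.h S' t' < s.h R t')
    (hne : S ≠ S') : ∃ R, s.Wall S R ∧ s.h S t < s.h R t ∧ s.h R t' < s.h S t' := by
  classical
  set u : ℝ × ℝ := t' - t with hu_def
  have e1 : ∀ R, s.h R t' = s.h R t + dt u (s.bs R) := by
    intro R
    rw [← s.h_add, hu_def, add_sub_cancel]
  set Z : Set ℝ := {x : ℝ | x ∈ Set.Icc (0 : ℝ) 1 ∧ s.Opt (t + x • u) S} with hZ
  have hclosed : IsClosed Z := by
    have : Z = Set.Icc (0 : ℝ) 1 ∩ ⋂ R : Finset (Fin N), ⋂ _ : R.card = s.M,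
        {x : ℝ | s.h S t + x * dt u (s.bs S) ≤ s.h R t + x * dt u (s.bs R)} := by
      ext x
      simp only [hZ, Set.mem_setOf_eq, Set.mem_inter_iff, Set.mem_iInter, Opt, h_add_smul]
      constructor
      · rintro ⟨h1, -, h2⟩
        exact ⟨h1, h2⟩
      · rintro ⟨h1, h2⟩
        exact ⟨h1, hS, h2⟩
    rw [this]
    refine isClosed_Icc.inter (isClosed_iInter fun R => isClosed_iInter fun _ => ?_)
    exact isClosed_le (by fun_prop) (by fun_prop)
  have h0 : (0 : ℝ) ∈ Z := by
    refine ⟨⟨le_rfl, zero_le_one⟩, hS, fun R hR => ?_⟩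
    rw [zero_smul, add_zero]
    by_cases hRS : R = S
    · rw [hRS]
    · exact (hu R hR hRS).le
  have h1 : (1 : ℝ) ∉ Z := by
    rintro ⟨-, -, h⟩
    have h2 := h S' hS'
    rw [one_smul, hu_def, add_sub_cancel] at h2
    exact absurd (hu' S hS hne) (not_lt.2 h2)
  have hbdd : BddAbove Z := ⟨1, fun x hx => hx.1.2⟩
  have hσ : sSup Z ∈ Z := hclosed.csSup_mem ⟨0, h0⟩ hbdd
  set σ : ℝ := sSup Z with hσ_def
  have hσ1 : σ < 1 := lt_of_le_of_ne hσ.1.2 fun h => h1 (h ▸ hσ)
  have hpS : s.Opt (t + σ • u) S := hσ.2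
  obtain ⟨ε0, hε0, hnear⟩ := near s (t + σ • u) u
  set ε : ℝ := min ε0 (1 - σ) with hε_def
  have hε : 0 < ε := lt_min hε0 (by linarith)
  have hno : ¬ s.Opt ((t + σ • u) + ε • u) S := by
    intro h
    have hmem : σ + ε ∈ Z := by
      refine ⟨⟨by linarith [hσ.1.1], ?_⟩, ?_⟩
      · have := min_le_right ε0 (1 - σ)
        linarith
      · rw [add_smul, ← add_assoc]
        exact h
    have := le_csSup hbdd hmem
    linarith
  rw [hnear ε hε (min_le_left _ _) S] at hno
  have hQ : ∃ Q, s.Opt (t + σ • u) Q ∧ dt u (s.bs Q) < dt u (s.bs S) := by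
    by_contra hcon
    push Not at hcon
    exact hno ⟨hpS, hcon⟩
  obtain ⟨Q, hQ, hlt⟩ := hQ
  obtain ⟨R, hW, hR, hltR⟩ := exists_wall hs hpS hQ hlt
  refine ⟨R, hW, hu R hR.1 hW.1.symm, ?_⟩
  have heq := hpS.eq hR
  rw [h_add_smul, h_add_smul] at heq
  rw [e1, e1]
  nlinarith [mul_pos (sub_pos.2 hσ1) (sub_pos.2 hltR)]

end Pool.Agent.ROT.Sys
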