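import Pool.Agent.ROT.Glob
import Pool.Agent.ROT.Lines
import Pool.Agent.ROT.Sep
import Pool.Agent.ROT.VC

/-!
# ROT-11: the number of cells

Proof.  Take `Rp` from `lines` and `L = Rp.card`.  By `tflags_le`,
`2 L ≤ tflags.card + unb.card ≤ 3 Q + unb.card`.  For every cell `S` choose a point `t S` where it
is the unique optimal set.  Apply `vc` to `ι = {p // p ∈ Rp}` with
`c p = f p.2 - f p.1`, `v p = bs p.2 - bs p.1`, so that
`c p + dt x (v p) = h p.2 x - h p.1 x`, and `T = cells`.  For two different cells `S`, `S'` take `R`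
from `sep` and `p ∈ Rp`, `κ ≠ 0` from `lines` for the wall `(S,R)`; `h R - h S` is positive at
`t S` and negative at `t S'`, so `h p.2 - h p.1` has different strict signs at the two points.
-/

set_option autoImplicit false

namespace Pool.Agent.ROT.Sys

variable {N : ℕ} {s : Sys N}

theorem engine (hs : s.Good) {phi : Fin N → Fin N → ℝ} (hphi : s.Form phi) {Q : ℝ}
    (hQ : ∑ p ∈ s.unb, max (om phi p.1 p.2) 0 ≤ Q) :
    ∃ L : ℕ, (2 * L : ℝ) ≤ 3 * Q + s.unb.card ∧ s.cells.card ≤ 1 + L + L.choose 2 := by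
  classical
  obtain ⟨Rp, hRp, hw⟩ := lines hs
  have hpt : ∀ S : Finset (Fin N), ∃ t : ℝ × ℝ, S ∈ s.cells → ∀ R : Finset (Fin N),
      R.card = s.M → R ≠ S → s.h S t < s.h R t := by
    intro S
    by_cases hS : S ∈ s.cells
    · obtain ⟨-, t, ht⟩ := s.mem_cells.1 hS
      exact ⟨t, fun _ => ht⟩
    · exact ⟨0, fun h => absurd h hS⟩
  choose t ht using hpt
  refine ⟨Rp.card, ?_, ?_⟩
  · have h1 := tflags_le hs hphi
    have h2 : ((2 * Rp.card : ℕ) : ℝ) ≤ ((s.tflags.card + s.unb.card : ℕ) : ℝ) :=
      Nat.cast_le.2 hRp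
    push_cast at h2
    linarith
  · have hv := vc (ι := {p // p ∈ Rp}) (fun p => s.f p.1.2 - s.f p.1.1)
      (fun p => s.bs p.1.2 - s.bs p.1.1) s.cells t ?_
    · rw [Fintype.card_coe] at hv
      exact hv
    · intro S hS S' hS' hne
      obtain ⟨R, hW, h1, h2⟩ := sep hs (s.mem_cells.1 hS).1 (ht S hS) (s.mem_cells.1 hS').1
        (ht S' hS') hne
      obtain ⟨p, hp, κ, hκ, hg⟩ := hw S R hW
      refine ⟨⟨p, hp⟩, ?_⟩
      have e : ∀ x, s.f p.2 - s.f p.1 + dt x (s.bs p.2 - s.bs p.1) = s.h p.2 x - s.h p.1 x := by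
        intro x
        simp only [h, dt_sub_right]
        ring
      simp only [e]
      have g1 := hg (t S)
      have g2 := hg (t S')
      rcases lt_or_gt_of_ne hκ with hk | hk
      · intro hiff
        have a1 : s.h p.2 (t S) - s.h p.1 (t S) < 0 := by
          by_contra hcon
          push Not at hcon
          nlinarith [mul_nonpos_of_nonpos_of_nonneg hk.le hcon]
        have a2 : 0 < s.h p.2 (t S') - s.h p.1 (t S') := by
          by_contra hcon
          push Not at hcon
          nlinarith [mul_nonneg_of_nonpos_of_nonpos hk.le hcon]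
        exact absurd (hiff.2 a2) (not_lt.2 a1.le)
      · intro hiff
        have a1 : 0 < s.h p.2 (t S) - s.h p.1 (t S) := by
          by_contra hcon
          push Not at hcon
          nlinarith [mul_nonpos_of_nonneg_of_nonpos hk.le hcon]
        have a2 : s.h p.2 (t S') - s.h p.1 (t S') < 0 := by
          by_contra hcon
          push Not at hcon
          nlinarith [mul_nonneg hk.le hcon]
        exact absurd (hiff.1 a1) (not_lt.2 a2.le)

end Pool.Agent.ROT.Sys
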