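import Pool.Agent.ROT.UnbA
import Pool.Agent.ROT.Engine

/-!
# ROT-14: points without small triangles

Hypotheses: `0 < δ ≤ D²`, all distances of the points are `≤ D`, all triangles have (twice their)
area `≥ δ`.

* If `N = 0` or `M = 0` there is at most one `M`-set, so at most one cell.  Otherwise let
  `o = b 0` and `phi p q = cr (b p - o) (b q - o) / δ`.
* `Form`: `anti` from `cr_neg_comm`; `phi i j + phi j k + phi k i = cr (b j - b i) (b k - b i) / δ`
  (`ring`), which is `≥ 1` if positive (`i,j,k` are then different, `hA`);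
  `phi j l - phi j k - phi i l + phi i k = cr (b j - b i) (b l - b k) / δ ≥ 0`.
* `om phi S R = cr (∑_{p ∈ S} (b p - o)) (∑_{q ∈ R} (b q - o)) / δ`, and for `M`-sets each sum has
  norm `≤ M D` (each coordinate is `≤ M D` in absolute value is also enough:
  `|cr u v| ≤ |u| |v|` by Cauchy-Schwarz `cr u v ^ 2 ≤ dt u u * dt v v`; triangle inequality for
  the norm `sqrt (dt u u)`, or: `|u.1| , |u.2| ≤ M D` gives the weaker `|cr u v| ≤ 2 M² D²`,
  which is NOT enough for the constant below, so use Cauchy-Schwarz; a convenient way: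
  `dt (∑ x_p) (∑ x_p) = ∑∑ dt x_p x_q ≤ M² D²` as `dt x y ≤ D²` for `dt x x, dt y y ≤ D²`, and
  directly `om phi S R = ∑∑ phi p q ≤ M² D² / δ` because each `cr x y ≤ D²`:
  `2 |cr x y| ≤ dt x x + dt y y`).  So `max (om phi p.1 p.2) 0 ≤ M² D² / δ` for `p ∈ unb`
  (both components have `M` elements).
* By `unb_card_le` there are at most `N²` elements of `unb`; `engine` with
  `Q = N² M² D²/δ` gives `2 L ≤ 3 N² M² D²/δ + N² ≤ 4 N² M² D²/δ` (as `M ≥ 1`, `D²/δ ≥ 1`), so with
  `A = N² M² D²/δ ≥ 1`, `L ≤ 2 A`, `L + L.choose 2 = (L² + L)/2 ≤ 2A² + A ≤ 3 A²`.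
-/

set_option autoImplicit false

namespace Pool.Agent.ROT.Sys

variable {N : ℕ} {s : Sys N}

lemma area_cr_le {x y : ℝ × ℝ} {E : ℝ} (hx : dt x x ≤ E) (hy : dt y y ≤ E) : cr x y ≤ E := by
  simp only [dt, cr] at *
  nlinarith [sq_nonneg (x.1 - y.2), sq_nonneg (x.2 + y.1)]

theorem area_cells (hs : s.Good) {δ D : ℝ} (hδ : 0 < δ) (hδD : δ ≤ D ^ 2)
    (hD : ∀ i j, dt (s.b i - s.b j) (s.b i - s.b j) ≤ D ^ 2)
    (hA : ∀ i j k : Fin N, i ≠ j → j ≠ k → i ≠ k →
      δ ≤ |cr (s.b j - s.b i) (s.b k - s.b i)|) :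
    (s.cells.card : ℝ) ≤ 1 + 3 * ((N : ℝ) ^ 2 * (s.M : ℝ) ^ 2 * (D ^ 2 / δ)) ^ 2 := by
  classical
  by_cases hNM : N = 0 ∨ s.M = 0
  · have h1 : s.cells ⊆ {∅} := by
      intro S hS
      rw [Finset.mem_singleton]
      rcases hNM with h0 | h0
      · subst h0
        exact Finset.eq_empty_of_isEmpty S
      · have := (s.mem_cells.1 hS).1
        rw [h0] at this
        exact Finset.card_eq_zero.1 this
    have h2 : s.cells.card ≤ 1 := (Finset.card_le_card h1).trans (by simp)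
    have h3 : (s.cells.card : ℝ) ≤ 1 := by exact_mod_cast h2
    nlinarith [sq_nonneg ((N : ℝ) ^ 2 * (s.M : ℝ) ^ 2 * (D ^ 2 / δ))]
  · push Not at hNM
    obtain ⟨hN, hM⟩ := hNM
    have hn : s.Ncol := by
      intro i j k hij hjk hik h
      have := hA i j k hij hjk hik
      rw [h, abs_zero] at this
      linarith
    set o : ℝ × ℝ := s.b ⟨0, Nat.pos_of_ne_zero hN⟩ with ho
    set phi : Fin N → Fin N → ℝ := fun p q => cr (s.b p - o) (s.b q - o) / δ with hphi
    have hF : s.Form phi := by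
      refine ⟨fun p q => ?_, fun i j k hpos => ?_, fun i j k l _ _ _ _ _ _ hpos => ?_⟩
      · simp only [hphi]
        rw [cr_neg_comm, neg_div]
      · have h1 : i ≠ j := by
          rintro rfl
          simp [cr] at hpos
        have h2 : j ≠ k := by
          rintro rfl
          rw [cr_self] at hpos
          exact lt_irrefl _ hpos
        have h3 : i ≠ k := by
          rintro rfl
          simp [cr] at hpos
        have h4 := hA i j k h1 h2 h3
        rw [abs_of_pos hpos] at h4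
        have h5 : phi i j + phi j k + phi k i = cr (s.b j - s.b i) (s.b k - s.b i) / δ := by
          simp only [hphi, cr, Prod.fst_sub, Prod.snd_sub]
          ring
        rw [h5, le_div_iff₀ hδ, one_mul]
        exact h4
      · have h5 : phi j l - phi j k - phi i l + phi i k =
            cr (s.b j - s.b i) (s.b l - s.b k) / δ := by
          simp only [hphi, cr, Prod.fst_sub, Prod.snd_sub]
          ring
        rw [h5]
        positivity
    have hDδ : 1 ≤ D ^ 2 / δ := by rwa [le_div_iff₀ hδ, one_mul]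
    have hom : ∀ p ∈ s.unb, max (om phi p.1 p.2) 0 ≤ (s.M : ℝ) ^ 2 * (D ^ 2 / δ) := by
      intro p hp
      obtain ⟨-, t, ht⟩ := s.mem_unb.1 hp
      have hb := ht 0 le_rfl
      have c1 : p.1.card = s.M := hb.1.1
      have c2 : p.2.card = s.M := hb.2.1
      apply max_le
      · have h1 : ∀ q r, phi q r ≤ D ^ 2 / δ := by
          intro q r
          simp only [hphi]
          exact div_le_div_of_nonneg_right (area_cr_le (hD _ _) (hD _ _)) hδ.le
        calc om phi p.1 p.2 ≤ ∑ _q ∈ p.1, ∑ _r ∈ p.2, D ^ 2 / δ :=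
              Finset.sum_le_sum fun q _ => Finset.sum_le_sum fun r _ => h1 q r
          _ = (s.M : ℝ) ^ 2 * (D ^ 2 / δ) := by
              simp only [Finset.sum_const, nsmul_eq_mul, c1, c2]
              ring
      · positivity
    have hu : (s.unb.card : ℝ) ≤ (N : ℝ) ^ 2 := by
      have := unb_card_le hs hn
      rw [sq]
      exact_mod_cast this
    set A : ℝ := (N : ℝ) ^ 2 * (s.M : ℝ) ^ 2 * (D ^ 2 / δ) with hAdef
    have hM1 : (1 : ℝ) ≤ (s.M : ℝ) := by exact_mod_cast Nat.pos_of_ne_zero hM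
    have hN1 : (1 : ℝ) ≤ (N : ℝ) := by exact_mod_cast Nat.pos_of_ne_zero hN
    have hN2 : (1 : ℝ) ≤ (N : ℝ) ^ 2 := one_le_pow₀ hN1
    have hB1 : (1 : ℝ) ≤ (s.M : ℝ) ^ 2 * (D ^ 2 / δ) := by
      have := one_le_pow₀ (n := 2) hM1
      nlinarith
    have hNA : (N : ℝ) ^ 2 ≤ A := by
      rw [hAdef, mul_assoc]
      nlinarith
    have hA1 : 1 ≤ A := hN2.trans hNA
    have hQ : ∑ p ∈ s.unb, max (om phi p.1 p.2) 0 ≤ A := by
      calc ∑ p ∈ s.unb, max (om phi p.1 p.2) 0
          ≤ ∑ _p ∈ s.unb, (s.M : ℝ) ^ 2 * (D ^ 2 / δ) := Finset.sum_le_sum hom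
        _ = (s.unb.card : ℝ) * ((s.M : ℝ) ^ 2 * (D ^ 2 / δ)) := by
            rw [Finset.sum_const, nsmul_eq_mul]
        _ ≤ (N : ℝ) ^ 2 * ((s.M : ℝ) ^ 2 * (D ^ 2 / δ)) :=
            mul_le_mul_of_nonneg_right hu (by linarith)
        _ = A := by rw [hAdef]; ring
    obtain ⟨L, hL, hc⟩ := engine hs hF hQ
    have hL2 : (L : ℝ) ≤ 2 * A := by linarith
    have hc' : (s.cells.card : ℝ) ≤ 1 + L + (L : ℝ) * ((L : ℝ) - 1) / 2 := by
      have h1 : (s.cells.card : ℝ) ≤ ((1 + L + L.choose 2 : ℕ) : ℝ) := by exact_mod_cast hc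
      push_cast [Nat.cast_choose_two] at h1
      exact h1
    have hL0 : (0 : ℝ) ≤ L := Nat.cast_nonneg L
    nlinarith

end Pool.Agent.ROT.Sys
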