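import Mathlib

/-!
# ROT: translated partial matchings (MP_bd0985_co), base file (helper53)

Plane geometry in coordinates, parametric minimisation `f S + <t, b(S)>` over the
`M`-subsets `S` of `Fin N`, walls, flags, forms.
-/

set_option autoImplicit false

namespace Pool.Agent.ROT

/-- Cross product in the plane. -/
def cr (u v : ℝ × ℝ) : ℝ := u.1 * v.2 - u.2 * v.1

/-- Dot product in the plane. -/
def dt (u v : ℝ × ℝ) : ℝ := u.1 * v.1 + u.2 * v.2

/-- Rotation by 90 degrees. -/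
def rot (v : ℝ × ℝ) : ℝ × ℝ := (-v.2, v.1)

lemma dt_rot (u v : ℝ × ℝ) : dt (rot u) v = cr u v := by simp [dt, rot, cr]; ring
lemma dt_comm (u v : ℝ × ℝ) : dt u v = dt v u := by simp [dt]; ring
lemma cr_self (u : ℝ × ℝ) : cr u u = 0 := by simp [cr]; ring
lemma cr_neg_comm (u v : ℝ × ℝ) : cr u v = - cr v u := by simp [cr]; ring
lemma cr_add_left (u v w : ℝ × ℝ) : cr (u + v) w = cr u w + cr v w := by simp [cr]; ring
lemma cr_add_right (u v w : ℝ × ℝ) : cr u (v + w) = cr u v + cr u w := by simp [cr]; ring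
lemma cr_sub_left (u v w : ℝ × ℝ) : cr (u - v) w = cr u w - cr v w := by simp [cr]; ring
lemma cr_sub_right (u v w : ℝ × ℝ) : cr u (v - w) = cr u v - cr u w := by simp [cr]; ring
lemma cr_smul_left (a : ℝ) (u v : ℝ × ℝ) : cr (a • u) v = a * cr u v := by simp [cr]; ring
lemma cr_smul_right (a : ℝ) (u v : ℝ × ℝ) : cr u (a • v) = a * cr u v := by simp [cr]; ring
lemma dt_add_left (u v w : ℝ × ℝ) : dt (u + v) w = dt u w + dt v w := by simp [dt]; ring
lemma dt_add_right (u v w : ℝ × ℝ) : dt u (v + w) = dt u v + dt u w := by simp [dt]; ring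
lemma dt_sub_left (u v w : ℝ × ℝ) : dt (u - v) w = dt u w - dt v w := by simp [dt]; ring
lemma dt_sub_right (u v w : ℝ × ℝ) : dt u (v - w) = dt u v - dt u w := by simp [dt]; ring
lemma dt_smul_left (a : ℝ) (u v : ℝ × ℝ) : dt (a • u) v = a * dt u v := by simp [dt]; ring
lemma dt_smul_right (a : ℝ) (u v : ℝ × ℝ) : dt u (a • v) = a * dt u v := by simp [dt]; ring
lemma rot_sub (u v : ℝ × ℝ) : rot (u - v) = rot u - rot v := by
  ext <;> simp [rot]; ring
lemma rot_neg (u : ℝ × ℝ) : rot (-u) = - rot u := by ext <;> simp [rot]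

/-- A parametric minimisation problem over the `M`-subsets of `Fin N`. -/
structure Sys (N : ℕ) where
  /-- cost of a set -/
  f : Finset (Fin N) → ℝ
  /-- points in the plane -/
  b : Fin N → ℝ × ℝ
  /-- size of the sets -/
  M : ℕ

namespace Sys

variable {N : ℕ} (s : Sys N)

/-- Sum of the points of a set. -/
def bs (S : Finset (Fin N)) : ℝ × ℝ := ∑ j ∈ S, s.b j

/-- Value of the set `S` at the parameter `t`. -/
def h (S : Finset (Fin N)) (t : ℝ × ℝ) : ℝ := s.f S + dt t (s.bs S)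

/-- `S` is an optimal `M`-set at `t`. -/
def Opt (t : ℝ × ℝ) (S : Finset (Fin N)) : Prop :=
  S.card = s.M ∧ ∀ R : Finset (Fin N), R.card = s.M → s.h S t ≤ s.h R t

/-- `S` is the unique optimal `M`-set somewhere. -/
def Cell (S : Finset (Fin N)) : Prop :=
  S.card = s.M ∧ ∃ t, ∀ R : Finset (Fin N), R.card = s.M → R ≠ S → s.h S t < s.h R t

/-- Direction of the wall between `S` and `R` (with `S` on its right side). -/
def dir (S R : Finset (Fin N)) : ℝ × ℝ := rot (s.bs R - s.bs S)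

/-- Both `S` and `R` are optimal at `t`. -/
def Both (S R : Finset (Fin N)) (t : ℝ × ℝ) : Prop := s.Opt t S ∧ s.Opt t R

/-- `S` and `R` are adjacent: different, and both optimal at two different points. -/
def Wall (S R : Finset (Fin N)) : Prop :=
  S ≠ R ∧ ∃ t t' : ℝ × ℝ, t ≠ t' ∧ s.Both S R t ∧ s.Both S R t'

/-- `t` is the start (in the direction `dir S R`) of the wall between `S` and `R`. -/
def IsStart (S R : Finset (Fin N)) (t : ℝ × ℝ) : Prop :=
  S ≠ R ∧ s.Both S R t ∧ (∃ ε : ℝ, 0 < ε ∧ s.Both S R (t + ε • s.dir S R)) ∧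
    ∀ ε : ℝ, 0 < ε → ¬ s.Both S R (t - ε • s.dir S R)

/-- The wall between `S` and `R` is unbounded in the direction `dir S R`. -/
def Unb (S R : Finset (Fin N)) : Prop :=
  S ≠ R ∧ ∃ t : ℝ × ℝ, ∀ x : ℝ, 0 ≤ x → s.Both S R (t + x • s.dir S R)

open Classical in
/-- The optimal sets at `t`. -/
noncomputable def opts (t : ℝ × ℝ) : Finset (Finset (Fin N)) :=
  Finset.univ.filter fun S => s.Opt t S

open Classical in
/-- The cells. -/
noncomputable def cells : Finset (Finset (Fin N)) :=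
  Finset.univ.filter fun S => s.Cell S

open Classical in
/-- The flags at `t`. -/
noncomputable def flagsAt (t : ℝ × ℝ) : Finset (Finset (Fin N) × Finset (Fin N)) :=
  Finset.univ.filter fun p => s.IsStart p.1 p.2 t

open Classical in
/-- All flags. -/
noncomputable def flags : Finset (Finset (Fin N) × Finset (Fin N)) :=
  Finset.univ.filter fun p => ∃ t, s.IsStart p.1 p.2 t

open Classical in
/-- The flags that start at a point with exactly three optimal sets. -/
noncomputable def tflags : Finset (Finset (Fin N) × Finset (Fin N)) :=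
  Finset.univ.filter fun p => ∃ t, s.IsStart p.1 p.2 t ∧ (s.opts t).card = 3

open Classical in
/-- The walls that are unbounded in their direction. -/
noncomputable def unb : Finset (Finset (Fin N) × Finset (Fin N)) :=
  Finset.univ.filter fun p => s.Unb p.1 p.2

/-- The hypotheses on the costs: valuated matroid exchange, and genericity
(every affine dependency between the points `b(S)` of the sets optimal at one `t` is an
affine dependency between the sets). -/
structure Good : Prop where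
  exch : ∀ S R : Finset (Fin N), S.card = s.M → R.card = s.M → ∀ i ∈ S \ R, ∃ j ∈ R \ S,
    s.f (insert j (S.erase i)) + s.f (insert i (R.erase j)) ≤ s.f S + s.f R
  gen : ∀ (t : ℝ × ℝ) (μ : Finset (Fin N) → ℝ), (∀ S, μ S ≠ 0 → s.Opt t S) →
    ∑ S, μ S = 0 → ∑ S, μ S • s.bs S = 0 → ∀ l : Fin N, ∑ S, (if l ∈ S then μ S else 0) = 0

/-- No three of the points are collinear. -/
def Ncol : Prop := ∀ i j k : Fin N, i ≠ j → j ≠ k → i ≠ k → cr (s.b j - s.b i) (s.b k - s.b i) ≠ 0

/-- `phi` is a positive form for the points of `s`: at least one on the positively oriented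
triangles and nonnegative on the positively oriented parallelograms. -/
structure Form (phi : Fin N → Fin N → ℝ) : Prop where
  anti : ∀ p q, phi p q = - phi q p
  tri : ∀ i j k, 0 < cr (s.b j - s.b i) (s.b k - s.b i) → 1 ≤ phi i j + phi j k + phi k i
  par : ∀ i j k l, i ≠ j → i ≠ k → i ≠ l → j ≠ k → j ≠ l → k ≠ l →
    0 < cr (s.b j - s.b i) (s.b l - s.b k) → 0 ≤ phi j l - phi j k - phi i l + phi i k

/-- The optimal sets at `t` are `X + i`, `X + j`, `X + k`, positively oriented. -/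
structure TriW (t : ℝ × ℝ) (X : Finset (Fin N)) (i j k : Fin N) : Prop where
  hi : i ∉ X
  hj : j ∉ X
  hk : k ∉ X
  hij : i ≠ j
  hjk : j ≠ k
  hik : i ≠ k
  pos : 0 < cr (s.b j - s.b i) (s.b k - s.b i)
  opt : ∀ S, s.Opt t S ↔ S = insert i X ∨ S = insert j X ∨ S = insert k X

/-- The optimal sets at `t` are `T - i`, `T - j`, `T - k`, positively oriented. -/
structure TriB (t : ℝ × ℝ) (T : Finset (Fin N)) (i j k : Fin N) : Prop where
  hi : i ∈ T
  hj : j ∈ T
  hk : k ∈ T
  hij : i ≠ j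
  hjk : j ≠ k
  hik : i ≠ k
  pos : 0 < cr (s.b j - s.b i) (s.b k - s.b i)
  opt : ∀ S, s.Opt t S ↔ S = T.erase i ∨ S = T.erase j ∨ S = T.erase k

/-- The optimal sets at `t` are `Y + i + k`, `Y + j + k`, `Y + j + l`, `Y + i + l`
(a parallelogram, in positive order). -/
structure Par (t : ℝ × ℝ) (Y : Finset (Fin N)) (i j k l : Fin N) : Prop where
  hi : i ∉ Y
  hj : j ∉ Y
  hk : k ∉ Y
  hl : l ∉ Y
  hij : i ≠ j
  hik : i ≠ k
  hil : i ≠ l
  hjk : j ≠ k
  hjl : j ≠ l
  hkl : k ≠ l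
  pos : 0 < cr (s.b j - s.b i) (s.b l - s.b k)
  opt : ∀ S, s.Opt t S ↔ S = insert i (insert k Y) ∨ S = insert j (insert k Y) ∨
    S = insert j (insert l Y) ∨ S = insert i (insert l Y)

end Sys

/-- The value of the form `phi` on two sets (as indicator vectors). -/
def om {N : ℕ} (phi : Fin N → Fin N → ℝ) (S R : Finset (Fin N)) : ℝ :=
  ∑ p ∈ S, ∑ q ∈ R, phi p q

namespace Sys

variable {N : ℕ} (s : Sys N)

lemma bs_insert {X : Finset (Fin N)} {i : Fin N} (hi : i ∉ X) :
    s.bs (insert i X) = s.b i + s.bs X := by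
  simp [bs, Finset.sum_insert hi]

lemma bs_erase {T : Finset (Fin N)} {i : Fin N} (hi : i ∈ T) :
    s.bs (T.erase i) = s.bs T - s.b i := by
  rw [bs, bs, ← Finset.add_sum_erase T s.b hi]
  abel

lemma bs_union_sdiff (S R : Finset (Fin N)) :
    s.bs (R \ S) - s.bs (S \ R) = s.bs R - s.bs S := by
  simp only [bs]
  have h1 : ∑ j ∈ R \ S, s.b j + ∑ j ∈ R ∩ S, s.b j = ∑ j ∈ R, s.b j := by
    rw [← Finset.sum_union]
    · rw [Finset.sdiff_union_inter]
    · exact Finset.disjoint_sdiff_inter R S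
  have h2 : ∑ j ∈ S \ R, s.b j + ∑ j ∈ S ∩ R, s.b j = ∑ j ∈ S, s.b j := by
    rw [← Finset.sum_union]
    · rw [Finset.sdiff_union_inter]
    · exact Finset.disjoint_sdiff_inter S R
  rw [← h1, ← h2, Finset.inter_comm S R]
  abel

lemma h_add (S : Finset (Fin N)) (t u : ℝ × ℝ) : s.h S (t + u) = s.h S t + dt u (s.bs S) := by
  simp [h, dt_add_left]; ring

lemma h_add_smul (S : Finset (Fin N)) (t u : ℝ × ℝ) (x : ℝ) :
    s.h S (t + x • u) = s.h S t + x * dt u (s.bs S) := by
  rw [h_add, dt_smul_left]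

lemma h_sub_smul (S : Finset (Fin N)) (t u : ℝ × ℝ) (x : ℝ) :
    s.h S (t - x • u) = s.h S t - x * dt u (s.bs S) := by
  rw [sub_eq_add_neg, ← neg_smul, h_add_smul]; ring

lemma h_diff (S R : Finset (Fin N)) (t t' : ℝ × ℝ) :
    (s.h R t' - s.h S t') - (s.h R t - s.h S t) = dt (t' - t) (s.bs R - s.bs S) := by
  simp only [h, dt_sub_left, dt_sub_right]; ring

lemma dir_swap (S R : Finset (Fin N)) : s.dir R S = - s.dir S R := by
  rw [dir, dir, ← rot_neg]; congr 1; abel

lemma dt_dir (S R : Finset (Fin N)) (v : ℝ × ℝ) : dt (s.dir S R) v = cr (s.bs R - s.bs S) v := by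
  rw [dir, dt_rot]

lemma dt_dir_self (S R : Finset (Fin N)) : dt (s.dir S R) (s.bs R - s.bs S) = 0 := by
  rw [dt_dir, cr_self]

lemma Opt.le {s : Sys N} {t : ℝ × ℝ} {S R : Finset (Fin N)} (hS : s.Opt t S) (hR : R.card = s.M) :
    s.h S t ≤ s.h R t := hS.2 R hR

lemma Opt.eq {s : Sys N} {t : ℝ × ℝ} {S R : Finset (Fin N)} (hS : s.Opt t S) (hR : s.Opt t R) :
    s.h S t = s.h R t := le_antisymm (hS.2 R hR.1) (hR.2 S hS.1)

lemma Opt.of_le {s : Sys N} {t : ℝ × ℝ} {S R : Finset (Fin N)} (hS : s.Opt t S)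
    (hR : R.card = s.M) (h : s.h R t ≤ s.h S t) : s.Opt t R :=
  ⟨hR, fun Q hQ => h.trans (hS.2 Q hQ)⟩

lemma Both.symm {s : Sys N} {S R : Finset (Fin N)} {t : ℝ × ℝ} (h : s.Both S R t) :
    s.Both R S t := ⟨h.2, h.1⟩

lemma Wall.symm {s : Sys N} {S R : Finset (Fin N)} (h : s.Wall S R) : s.Wall R S := by
  obtain ⟨hne, t, t', htt, h1, h2⟩ := h
  exact ⟨hne.symm, t, t', htt, h1.symm, h2.symm⟩

lemma mem_opts {t : ℝ × ℝ} {S : Finset (Fin N)} : S ∈ s.opts t ↔ s.Opt t S := by
  simp [opts]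

lemma mem_flagsAt {t : ℝ × ℝ} {p : Finset (Fin N) × Finset (Fin N)} :
    p ∈ s.flagsAt t ↔ s.IsStart p.1 p.2 t := by
  simp [flagsAt]

lemma mem_flags {p : Finset (Fin N) × Finset (Fin N)} :
    p ∈ s.flags ↔ ∃ t, s.IsStart p.1 p.2 t := by
  simp [flags]

lemma mem_tflags {p : Finset (Fin N) × Finset (Fin N)} :
    p ∈ s.tflags ↔ ∃ t, s.IsStart p.1 p.2 t ∧ (s.opts t).card = 3 := by
  simp [tflags]

lemma mem_unb {p : Finset (Fin N) × Finset (Fin N)} : p ∈ s.unb ↔ s.Unb p.1 p.2 := by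
  simp [unb]

lemma mem_cells {S : Finset (Fin N)} : S ∈ s.cells ↔ s.Cell S := by
  simp [cells]

end Sys

lemma om_anti {N : ℕ} {phi : Fin N → Fin N → ℝ} (h : ∀ p q, phi p q = - phi q p)
    (S R : Finset (Fin N)) : om phi S R = - om phi R S := by
  rw [om, om, Finset.sum_comm, ← Finset.sum_neg_distrib]
  refine Finset.sum_congr rfl fun q _ => ?_
  rw [← Finset.sum_neg_distrib]
  exact Finset.sum_congr rfl fun p _ => h p q

lemma om_self {N : ℕ} {phi : Fin N → Fin N → ℝ} (h : ∀ p q, phi p q = - phi q p)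
    (S : Finset (Fin N)) : om phi S S = 0 := by
  have := om_anti h S S
  linarith

lemma om_insert_left {N : ℕ} {phi : Fin N → Fin N → ℝ} {X : Finset (Fin N)} {i : Fin N}
    (hi : i ∉ X) (R : Finset (Fin N)) :
    om phi (insert i X) R = ∑ q ∈ R, phi i q + om phi X R := by
  rw [om, Finset.sum_insert hi, om]

lemma om_insert_right {N : ℕ} {phi : Fin N → Fin N → ℝ} {X : Finset (Fin N)} {i : Fin N}
    (hi : i ∉ X) (R : Finset (Fin N)) :
    om phi R (insert i X) = ∑ q ∈ R, phi q i + om phi R X := by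
  rw [om, om, ← Finset.sum_add_distrib]
  exact Finset.sum_congr rfl fun p _ => Finset.sum_insert hi

end Pool.Agent.ROT
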