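import Pool.Agent.ROT.Loc

/-!
# ROT-2: classification of the vertices

If at least three sets are optimal at `t`, then the optimal sets at `t` form a white triangle,
a black triangle or a parallelogram.

Proof.  Let `S` be optimal at `t`.  Call `(i,j)` a move if `i ∈ S`, `j ∉ S` and
`S - i + j` is optimal at `t`.

(1) There are two different moves.  Take an optimal `S' ≠ S`; as `S`, `S'` have the same
cardinality there is `i ∈ S \ S'`, and `opt_exch` gives a move `(i,j)`.  Suppose it is the only
one.  Take an optimal `S3` different from `S` and from `S2 := S - i + j`.  For every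
`i' ∈ S \ S3`, `opt_exch` gives a move `(i',j')` with `j' ∈ S3 \ S`, so `i' = i`, `j' = j`.
Hence `S \ S3 = {i}` (it is nonempty) and `j ∈ S3 \ S`, and `card (S3 \ S) = card (S \ S3) = 1`,
so `S3 = S - i + j = S2`, contradiction.

(2) Let `(i,j)`, `(i',j')` be two different moves, `A = S`, `B = S - i + j`, `C = S - i' + j'`
(three different sets).  Let `D` be optimal at `t`; by `span`,
`[l ∈ D] = x [l ∈ A] + y [l ∈ B] + z [l ∈ C]`, `x + y + z = 1`.
 (a) `i = i'` (so `j ≠ j'`): with `X = S - i`: at `l = i, j, j'` we get `x, y, z ∈ {0,1}` (the left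
side is 0 or 1) and they sum to 1, elsewhere `[l ∈ D] = [l ∈ X]`; so `D` is one of `X + i`,
`X + j`, `X + j'`.  This is `TriW` for `(i,j,j')` or for `(i,j',j)`, according to the sign of
`cr (b j - b i) (b j' - b i)`, which is nonzero by `cr_ne` (use `bs_insert`).
 (b) `j = j'` (so `i ≠ i'`): with `T = S + j`: `A = T - j`, `B = T - i`, `C = T - i'`; at
`l = j, i, i'` we get `1 - x, 1 - y, 1 - z ∈ {0,1}`; so `D ∈ {A,B,C}`.  `TriB` for `(j,i,i')` or
`(j,i',i)` according to the sign (use `bs_erase`; note
`cr ((bs T - b i) - (bs T - b j)) ((bs T - b i') - (bs T - b j)) = cr (b j - b i) (b j - b i')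
 = cr (b i - b j) (b i' - b j)`).
 (c) `i ≠ i'`, `j ≠ j'`; all four are different as `i, i' ∈ S`, `j, j' ∉ S`.  Let
`Y = S - i - i'`.  At `l = j`: `y = [j ∈ D]`, at `l = j'`: `z = [j' ∈ D]`, at `l = i`: `1 - y`, at
`l = i'`: `1 - z`, elsewhere `[l ∈ Y]`.  So `D` is one of `A = Y+i+i'`, `B = Y+j+i'`,
`C = Y+i+j'`, `E = Y+j+j'`.  Finally `E` is optimal: apply `opt_exch` to `B`, `C` and
`i' ∈ B \ C`: it gives `l ∈ C \ B = {i, j'}` with `B - i' + l` optimal.  If `l = i`, then
`B - i' + i = Y + i + j` is optimal, but it is not one of the four sets (it contains `i` and `j`).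
So `l = j'` and `B - i' + j' = E`.  This is `Par t Y i j i' j'` if
`cr (b j - b i) (b j' - b i') > 0`; if it is `< 0`, it is `Par t Y j i i' j'` (the list of the four
sets is only permuted); it is nonzero by `cr_ne` for `A, B, C`.
-/

set_option autoImplicit false
set_option linter.unusedSimpArgs false

namespace Pool.Agent.ROT.Sys

variable {N : ℕ} {s : Sys N}

/-- If the three coefficients are `1, 0, 0`, the set is the first one. -/
lemma class_ind {A B C D : Finset (Fin N)} {x y z : ℝ}
    (h : ∀ l : Fin N, (if l ∈ D then (1 : ℝ) else 0) =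
      x * (if l ∈ A then 1 else 0) + y * (if l ∈ B then 1 else 0) +
        z * (if l ∈ C then 1 else 0)) (hx : x = 1) (hy : y = 0) (hz : z = 0) : D = A := by
  ext l
  have h1 := h l
  rw [hx, hy, hz] at h1
  by_cases h2 : l ∈ D <;> by_cases h3 : l ∈ A <;> simp [h2, h3] at h1 ⊢

lemma class_ind' {A B C D : Finset (Fin N)} {x y z : ℝ}
    (h : ∀ l : Fin N, (if l ∈ D then (1 : ℝ) else 0) =
      x * (if l ∈ A then 1 else 0) + y * (if l ∈ B then 1 else 0) +
        z * (if l ∈ C then 1 else 0)) (hx : x = 0) (hy : y = 1) (hz : z = 0) : D = B := by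
  ext l
  have h1 := h l
  rw [hx, hy, hz] at h1
  by_cases h2 : l ∈ D <;> by_cases h3 : l ∈ B <;> simp [h2, h3] at h1 ⊢

lemma class_ind'' {A B C D : Finset (Fin N)} {x y z : ℝ}
    (h : ∀ l : Fin N, (if l ∈ D then (1 : ℝ) else 0) =
      x * (if l ∈ A then 1 else 0) + y * (if l ∈ B then 1 else 0) +
        z * (if l ∈ C then 1 else 0)) (hx : x = 0) (hy : y = 0) (hz : z = 1) : D = C := by
  ext l
  have h1 := h l
  rw [hx, hy, hz] at h1
  by_cases h2 : l ∈ D <;> by_cases h3 : l ∈ C <;> simp [h2, h3] at h1 ⊢

/-- An indicator is zero or one. -/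
lemma class_ite (D : Finset (Fin N)) (l : Fin N) :
    (if l ∈ D then (1 : ℝ) else 0) = 0 ∨ (if l ∈ D then (1 : ℝ) else 0) = 1 := by
  by_cases h : l ∈ D <;> simp [h]

/-- Difference of the sums for a move. -/
lemma class_bs {S : Finset (Fin N)} {i j : Fin N} (hi : i ∈ S) (hj : j ∉ S) :
    s.bs (insert j (S.erase i)) - s.bs S = s.b j - s.b i := by
  rw [bs_insert s (fun h => hj (Finset.mem_of_mem_erase h)), bs_erase s hi]
  abel

/-- There are two different moves from some optimal set. -/
lemma class_moves (hs : s.Good) {t : ℝ × ℝ} (h3 : 3 ≤ (s.opts t).card) :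
    ∃ S i j i' j', s.Opt t S ∧ i ∈ S ∧ j ∉ S ∧ i' ∈ S ∧ j' ∉ S ∧ (i ≠ i' ∨ j ≠ j') ∧
      s.Opt t (insert j (S.erase i)) ∧ s.Opt t (insert j' (S.erase i')) := by
  obtain ⟨S, hS, R1, hR1, R2, hR2, hSR1, hSR2, hR⟩ := Finset.two_lt_card.1 h3
  rw [mem_opts] at hS hR1 hR2
  have hne : ∀ R : Finset (Fin N), s.Opt t R → S ≠ R → (S \ R).Nonempty := by
    intro R hR hn
    by_contra h
    rw [Finset.not_nonempty_iff_eq_empty, Finset.sdiff_eq_empty_iff_subset] at h
    exact hn (Finset.eq_of_subset_of_card_le h (by rw [hS.1, hR.1]))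
  obtain ⟨i, hi⟩ := hne R1 hR1 hSR1
  obtain ⟨j, hj, hj1, -⟩ := opt_exch hs hS hR1 hi
  have hi' := Finset.mem_sdiff.1 hi
  have hj' := Finset.mem_sdiff.1 hj
  obtain ⟨S3, hS3, hSS3, hn3⟩ : ∃ S3, s.Opt t S3 ∧ S ≠ S3 ∧ S3 ≠ insert j (S.erase i) := by
    by_cases h : R1 = insert j (S.erase i)
    · exact ⟨R2, hR2, hSR2, fun h' => hR (h.trans h'.symm)⟩
    · exact ⟨R1, hR1, hSR1, h⟩
  by_contra hcon
  have key : ∀ i' ∈ S \ S3, i' = i ∧ j ∈ S3 \ S := by
    intro i' hi2
    obtain ⟨j2, hj2, hj3, -⟩ := opt_exch hs hS hS3 hi2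
    have e1 : i' = i ∧ j2 = j := by
      by_contra hc
      apply hcon
      refine ⟨S, i, j, i', j2, hS, hi'.1, hj'.2, (Finset.mem_sdiff.1 hi2).1,
        (Finset.mem_sdiff.1 hj2).2, ?_, hj1, hj3⟩
      by_cases h1 : i = i'
      · right
        intro h2
        exact hc ⟨h1.symm, h2.symm⟩
      · exact Or.inl h1
    exact ⟨e1.1, e1.2 ▸ hj2⟩
  obtain ⟨i0, hi0⟩ := hne S3 hS3 hSS3
  have hi0' : i ∈ S \ S3 := (key i0 hi0).1 ▸ hi0
  have hj0 := (key i0 hi0).2
  have e1 : S \ S3 = {i} := by
    ext l
    rw [Finset.mem_singleton]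
    exact ⟨fun h => (key l h).1, fun h => h ▸ hi0'⟩
  have hc : (S3 \ S).card = (S \ S3).card :=
    Finset.card_sdiff_comm (by rw [hS.1, hS3.1])
  rw [e1, Finset.card_singleton, Finset.card_eq_one] at hc
  obtain ⟨a, ha⟩ := hc
  have haj : a = j := by
    rw [ha, Finset.mem_singleton] at hj0
    exact hj0.symm
  subst haj
  apply hn3
  ext l
  have h1 : l ∈ S \ S3 ↔ l = i := by rw [e1, Finset.mem_singleton]
  have h2 : l ∈ S3 \ S ↔ l = a := by rw [ha, Finset.mem_singleton]
  rw [Finset.mem_sdiff] at h1 h2
  rw [Finset.mem_insert, Finset.mem_erase]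
  by_cases h3 : l ∈ S <;> by_cases h4 : l ∈ S3 <;> simp_all

/-- Case (a): two moves with the same removed element. -/
lemma class_a (hs : s.Good) {t : ℝ × ℝ} {S : Finset (Fin N)} {i j j' : Fin N}
    (hS : s.Opt t S) (hi : i ∈ S) (hj : j ∉ S) (hj' : j' ∉ S) (hjj : j ≠ j')
    (h1 : s.Opt t (insert j (S.erase i))) (h2 : s.Opt t (insert j' (S.erase i))) :
    ∃ X i j k, s.TriW t X i j k := by
  have hij : i ≠ j := fun h => hj (h ▸ hi)
  have hij' : i ≠ j' := fun h => hj' (h ▸ hi)
  have hAB : S ≠ insert j (S.erase i) := fun h => hj (h ▸ Finset.mem_insert_self _ _)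
  have hAC : S ≠ insert j' (S.erase i) := fun h => hj' (h ▸ Finset.mem_insert_self _ _)
  have hBC : insert j (S.erase i) ≠ insert j' (S.erase i) := by
    intro h
    have : j ∈ insert j' (S.erase i) := h ▸ Finset.mem_insert_self _ _
    rw [Finset.mem_insert, Finset.mem_erase] at this
    tauto
  have hopt : ∀ D, s.Opt t D ↔ D = insert i (S.erase i) ∨ D = insert j (S.erase i) ∨
      D = insert j' (S.erase i) := by
    intro D
    rw [Finset.insert_erase hi]
    constructor
    · intro hD
      obtain ⟨x, y, z, hxyz, hl⟩ := span hs hS h1 h2 hD hAB hAC hBC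
      have ei := hl i
      have ej := hl j
      have ej' := hl j'
      simp only [Finset.mem_insert, Finset.mem_erase] at ei ej ej'
      simp only [hi, hj, hj', hij, hij', hjj, hjj.symm, ne_eq, not_true_eq_false, not_false_eq_true,
        and_false, and_true, or_false, false_or, if_true, if_false, mul_one, mul_zero,
        add_zero, zero_add, true_or, or_true] at ei ej ej'
      rcases class_ite D i with ci | ci <;> rcases class_ite D j with cj | cj <;>
        rcases class_ite D j' with ck | ck <;> rw [ci] at ei <;> rw [cj] at ej <;>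
        rw [ck] at ej'
      · exfalso; linarith
      · exact Or.inr (Or.inr (class_ind'' hl ei.symm ej.symm ej'.symm))
      · exact Or.inr (Or.inl (class_ind' hl ei.symm ej.symm ej'.symm))
      · exfalso; linarith
      · exact Or.inl (class_ind hl ei.symm ej.symm ej'.symm)
      · exfalso; linarith
      · exfalso; linarith
      · exfalso; linarith
    · rintro (h | h | h)
      · rw [h]; exact hS
      · rw [h]; exact h1
      · rw [h]; exact h2
  have hcr := cr_ne hs hS h1 h2 hAB hAC hBC
  rw [class_bs hi hj, class_bs hi hj'] at hcr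
  have n1 : i ∉ S.erase i := by simp
  have n2 : j ∉ S.erase i := fun h => hj (Finset.mem_of_mem_erase h)
  have n3 : j' ∉ S.erase i := fun h => hj' (Finset.mem_of_mem_erase h)
  rcases lt_or_gt_of_ne hcr with hc | hc
  · refine ⟨S.erase i, i, j', j, ⟨n1, n3, n2, hij', hjj.symm, hij, ?_, ?_⟩⟩
    · rw [cr_neg_comm]; linarith
    · intro D
      rw [hopt D]
      tauto
  · exact ⟨S.erase i, i, j, j', ⟨n1, n2, n3, hij, hjj, hij', hc, hopt⟩⟩

/-- Case (b): two moves with the same added element. -/
lemma class_b (hs : s.Good) {t : ℝ × ℝ} {S : Finset (Fin N)} {i i' j : Fin N}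
    (hS : s.Opt t S) (hi : i ∈ S) (hi' : i' ∈ S) (hj : j ∉ S) (hii : i ≠ i')
    (h1 : s.Opt t (insert j (S.erase i))) (h2 : s.Opt t (insert j (S.erase i'))) :
    ∃ T i j k, s.TriB t T i j k := by
  have hij : i ≠ j := fun h => hj (h ▸ hi)
  have hij' : i' ≠ j := fun h => hj (h ▸ hi')
  have hAB : S ≠ insert j (S.erase i) := fun h => hj (h ▸ Finset.mem_insert_self _ _)
  have hAC : S ≠ insert j (S.erase i') := fun h => hj (h ▸ Finset.mem_insert_self _ _)
  have hBC : insert j (S.erase i) ≠ insert j (S.erase i') := by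
    intro h
    have : i' ∈ insert j (S.erase i) := by
      rw [Finset.mem_insert, Finset.mem_erase]
      exact Or.inr ⟨hii.symm, hi'⟩
    rw [h, Finset.mem_insert, Finset.mem_erase] at this
    tauto
  have e0 : (insert j S).erase j = S := Finset.erase_insert hj
  have e1 : (insert j S).erase i = insert j (S.erase i) := by
    ext l
    simp only [Finset.mem_erase, Finset.mem_insert]
    constructor
    · tauto
    · rintro (h | h)
      · exact ⟨fun h' => hij (h' ▸ h), Or.inl h⟩
      · exact ⟨h.1, Or.inr h.2⟩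
  have e2 : (insert j S).erase i' = insert j (S.erase i') := by
    ext l
    simp only [Finset.mem_erase, Finset.mem_insert]
    constructor
    · tauto
    · rintro (h | h)
      · exact ⟨fun h' => hij' (h' ▸ h), Or.inl h⟩
      · exact ⟨h.1, Or.inr h.2⟩
  have hopt : ∀ D, s.Opt t D ↔ D = (insert j S).erase j ∨ D = (insert j S).erase i ∨
      D = (insert j S).erase i' := by
    intro D
    rw [e0, e1, e2]
    constructor
    · intro hD
      obtain ⟨x, y, z, hxyz, hl⟩ := span hs hS h1 h2 hD hAB hAC hBC
      have ei := hl i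
      have ej := hl j
      have ei' := hl i'
      simp only [Finset.mem_insert, Finset.mem_erase] at ei ej ei'
      simp only [hi, hj, hi', hij, hij', hii, hii.symm, ne_eq, not_true_eq_false, not_false_eq_true,
        and_false, and_true, or_false, false_or, if_true, if_false, mul_one, mul_zero,
        add_zero, zero_add, true_or, or_true] at ei ej ei'
      rcases class_ite D i with ci | ci <;> rcases class_ite D j with cj | cj <;>
        rcases class_ite D i' with ck | ck <;> rw [ci] at ei <;> rw [cj] at ej <;>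
        rw [ck] at ei'
      · exfalso; linarith
      · exfalso; linarith
      · exfalso; linarith
      · exact Or.inr (Or.inl (class_ind' hl (by linarith) (by linarith) (by linarith)))
      · exfalso; linarith
      · exact Or.inl (class_ind hl (by linarith) (by linarith) (by linarith))
      · exact Or.inr (Or.inr (class_ind'' hl (by linarith) (by linarith) (by linarith)))
      · exfalso; linarith
    · rintro (h | h | h)
      · rw [h]; exact hS
      · rw [h]; exact h1
      · rw [h]; exact h2
  have hcr := cr_ne hs hS h1 h2 hAB hAC hBC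
  rw [class_bs hi hj, class_bs hi' hj] at hcr
  have hcr2 : cr (s.b i - s.b j) (s.b i' - s.b j) = cr (s.b j - s.b i) (s.b j - s.b i') := by
    simp only [cr, Prod.fst_sub, Prod.snd_sub]; ring
  rw [← hcr2] at hcr
  have n1 : j ∈ insert j S := by simp
  have n2 : i ∈ insert j S := by simp [hi]
  have n3 : i' ∈ insert j S := by simp [hi']
  rcases lt_or_gt_of_ne hcr with hc | hc
  · refine ⟨insert j S, j, i', i, ⟨n1, n3, n2, hij'.symm, hii.symm, hij.symm, ?_, ?_⟩⟩
    · rw [cr_neg_comm]; linarith
    · intro D
      rw [hopt D]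
      tauto
  · exact ⟨insert j S, j, i, i', ⟨n1, n2, n3, hij.symm, hii, hij'.symm, hc, hopt⟩⟩

/-- Case (c): two disjoint moves. -/
lemma class_c (hs : s.Good) {t : ℝ × ℝ} {S : Finset (Fin N)} {i i' j j' : Fin N}
    (hS : s.Opt t S) (hi : i ∈ S) (hi' : i' ∈ S) (hj : j ∉ S) (hj' : j' ∉ S) (hii : i ≠ i')
    (hjj : j ≠ j')
    (h1 : s.Opt t (insert j (S.erase i))) (h2 : s.Opt t (insert j' (S.erase i'))) :
    ∃ Y i j k l, s.Par t Y i j k l := by
  have hij : i ≠ j := fun h => hj (h ▸ hi)
  have hi'j : i' ≠ j := fun h => hj (h ▸ hi')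
  have hij' : i ≠ j' := fun h => hj' (h ▸ hi)
  have hi'j' : i' ≠ j' := fun h => hj' (h ▸ hi')
  have hAB : S ≠ insert j (S.erase i) := fun h => hj (h ▸ Finset.mem_insert_self _ _)
  have hAC : S ≠ insert j' (S.erase i') := fun h => hj' (h ▸ Finset.mem_insert_self _ _)
  have hBC : insert j (S.erase i) ≠ insert j' (S.erase i') := by
    intro h
    have : j ∈ insert j' (S.erase i') := h ▸ Finset.mem_insert_self _ _
    rw [Finset.mem_insert, Finset.mem_erase] at this
    tauto
  obtain ⟨Y, hY⟩ : ∃ Y, Y = (S.erase i).erase i' := ⟨_, rfl⟩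
  have nYi : i ∉ Y := by rw [hY]; simp
  have nYi' : i' ∉ Y := by rw [hY]; simp
  have nYj : j ∉ Y := by rw [hY]; simp [hj]
  have nYj' : j' ∉ Y := by rw [hY]; simp [hj']
  have hmY : ∀ l, l ∈ Y ↔ l ≠ i' ∧ l ≠ i ∧ l ∈ S := by
    intro l
    rw [hY, Finset.mem_erase, Finset.mem_erase]
  have eA : S = insert i (insert i' Y) := by
    ext l
    rw [Finset.mem_insert, Finset.mem_insert, hmY]
    constructor
    · tauto
    · rintro (h | h | h)
      · rw [h]; exact hi
      · rw [h]; exact hi'
      · exact h.2.2
  have eB : insert j (S.erase i) = insert j (insert i' Y) := by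
    congr 1
    ext l
    rw [Finset.mem_insert, Finset.mem_erase, hmY]
    constructor
    · tauto
    · rintro (h | h)
      · rw [h]; exact ⟨hii.symm, hi'⟩
      · exact h.2
  have eC : insert j' (S.erase i') = insert i (insert j' Y) := by
    rw [Finset.insert_comm]
    congr 1
    ext l
    rw [Finset.mem_insert, Finset.mem_erase, hmY]
    constructor
    · tauto
    · rintro (h | h)
      · rw [h]; exact ⟨hii, hi⟩
      · exact ⟨h.1, h.2.2⟩
  have hcl : ∀ D, s.Opt t D → D = S ∨ D = insert j (S.erase i) ∨ D = insert j' (S.erase i') ∨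
      D = insert j (insert j' Y) := by
    intro D hD
    obtain ⟨x, y, z, hxyz, hl⟩ := span hs hS h1 h2 hD hAB hAC hBC
    have ei := hl i
    have ei' := hl i'
    have ej := hl j
    have ej' := hl j'
    simp only [Finset.mem_insert, Finset.mem_erase] at ei ei' ej ej'
    simp only [hi, hi', hj, hj', hij, hi'j, hij', hi'j', hij.symm, hi'j.symm, hij'.symm,
      hi'j'.symm, hii, hjj, hii.symm, hjj.symm, ne_eq, not_true_eq_false, not_false_eq_true,
      and_false, and_true, and_self, or_false, false_or, or_self, if_true, if_false, mul_one,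
      mul_zero, add_zero, zero_add, true_or, or_true] at ei ei' ej ej'
    rcases class_ite D j with cj | cj <;> rcases class_ite D j' with ck | ck <;>
      rw [cj] at ej <;> rw [ck] at ej'
    · exact Or.inl (class_ind hl (by linarith) (by linarith) (by linarith))
    · exact Or.inr (Or.inr (Or.inl (class_ind'' hl (by linarith) (by linarith) (by linarith))))
    · exact Or.inr (Or.inl (class_ind' hl (by linarith) (by linarith) (by linarith)))
    · right; right; right
      have hx : x = -1 := by linarith
      have hy : y = 1 := by linarith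
      have hz : z = 1 := by linarith
      ext l
      have e := hl l
      rw [hx, hy, hz] at e
      rw [Finset.mem_insert, Finset.mem_insert, hmY]
      simp only [Finset.mem_insert, Finset.mem_erase] at e
      by_cases l1 : l = j
      · subst l1
        simp only [hj, hjj, true_or, iff_true]
        by_contra hc
        rw [if_neg hc] at cj
        norm_num at cj
      · by_cases l2 : l = j'
        · subst l2
          simp only [true_or, or_true, iff_true]
          by_contra hc
          rw [if_neg hc] at ck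
          norm_num at ck
        · by_cases l3 : l = i
          · subst l3
            by_cases hD' : l ∈ D <;> simp [hD', hi, l1, l2, hii] at e ⊢
          · by_cases l4 : l = i'
            · subst l4
              by_cases hD' : l ∈ D <;> simp [hD', hi', l1, l2, l3] at e ⊢
            · by_cases hD' : l ∈ D <;> by_cases hS' : l ∈ S <;>
                simp [hD', hS', l1, l2, l3, l4] at e ⊢
  have hE : s.Opt t (insert j (insert j' Y)) := by
    have hm : i' ∈ insert j (S.erase i) \ insert j' (S.erase i') := by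
      rw [Finset.mem_sdiff]
      constructor
      · rw [Finset.mem_insert, Finset.mem_erase]
        exact Or.inr ⟨hii.symm, hi'⟩
      · rw [Finset.mem_insert, Finset.mem_erase]
        tauto
    obtain ⟨l, hl, hl1, -⟩ := opt_exch hs h1 h2 hm
    rw [Finset.mem_sdiff, Finset.mem_insert, Finset.mem_erase, Finset.mem_insert,
      Finset.mem_erase] at hl
    have hl2 : l = i ∨ l = j' := by tauto
    rcases hl2 with hl2 | hl2
    · exfalso
      subst hl2
      have hiD : l ∈ insert l ((insert j (S.erase l)).erase i') := Finset.mem_insert_self _ _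
      have hjD : j ∈ insert l ((insert j (S.erase l)).erase i') := by
        rw [Finset.mem_insert, Finset.mem_erase, Finset.mem_insert]
        exact Or.inr ⟨hi'j.symm, Or.inl rfl⟩
      rcases hcl _ hl1 with h | h | h | h
      · rw [h] at hjD; exact hj hjD
      · rw [h, Finset.mem_insert, Finset.mem_erase] at hiD
        tauto
      · rw [h, Finset.mem_insert, Finset.mem_erase] at hjD
        tauto
      · rw [h, Finset.mem_insert, Finset.mem_insert] at hiD
        tauto
    · subst hl2
      have e : insert l ((insert j (S.erase i)).erase i') = insert j (insert l Y) := by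
        ext a
        rw [Finset.mem_insert, Finset.mem_erase, Finset.mem_insert, Finset.mem_erase,
          Finset.mem_insert, Finset.mem_insert, hmY]
        by_cases ha : a = j
        · subst ha
          simp [hi'j.symm]
        · tauto
      rw [← e]
      exact hl1
  have hcr := cr_ne hs hS h1 h2 hAB hAC hBC
  rw [class_bs hi hj, class_bs hi' hj'] at hcr
  have hopt : ∀ D, s.Opt t D ↔ D = insert i (insert i' Y) ∨ D = insert j (insert i' Y) ∨
      D = insert j (insert j' Y) ∨ D = insert i (insert j' Y) := by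
    intro D
    constructor
    · intro hD
      rcases hcl D hD with h | h | h | h
      · exact Or.inl (h.trans eA)
      · exact Or.inr (Or.inl (h.trans eB))
      · exact Or.inr (Or.inr (Or.inr (h.trans eC)))
      · exact Or.inr (Or.inr (Or.inl h))
    · rintro (h | h | h | h)
      · rw [h, ← eA]; exact hS
      · rw [h, ← eB]; exact h1
      · rw [h]; exact hE
      · rw [h, ← eC]; exact h2
  rcases lt_or_gt_of_ne hcr with hc | hc
  · refine ⟨Y, j, i, i', j', ⟨nYj, nYi, nYi', nYj', hij.symm, hi'j.symm, hjj, hii, hij', hi'j',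
      ?_, ?_⟩⟩
    · have : cr (s.b i - s.b j) (s.b j' - s.b i') = - cr (s.b j - s.b i) (s.b j' - s.b i') := by
        simp only [cr, Prod.fst_sub, Prod.snd_sub]; ring
      rw [this]; linarith
    · intro D
      rw [hopt D]
      tauto
  · exact ⟨Y, i, j, i', j', ⟨nYi, nYj, nYi', nYj', hij, hii, hij', hi'j.symm, hjj, hi'j',
      hc, hopt⟩⟩

theorem classify (hs : s.Good) {t : ℝ × ℝ} (h3 : 3 ≤ (s.opts t).card) :
    (∃ X i j k, s.TriW t X i j k) ∨ (∃ T i j k, s.TriB t T i j k) ∨
      ∃ Y i j k l, s.Par t Y i j k l := by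
  obtain ⟨S, i, j, i', j', hS, hi, hj, hi', hj', hne, h1, h2⟩ := class_moves hs h3
  by_cases hii : i = i'
  · subst hii
    have hjj : j ≠ j' := by
      rcases hne with h | h
      · exact absurd rfl h
      · exact h
    exact Or.inl (class_a hs hS hi hj hj' hjj h1 h2)
  · by_cases hjj : j = j'
    · subst hjj
      exact Or.inr (Or.inl (class_b hs hS hi hi' hj hii h1 h2))
    · exact Or.inr (Or.inr (class_c hs hS hi hi' hj hj' hii hjj h1 h2))

end Pool.Agent.ROT.Sys
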