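import Pool.Agent.ROT.UnbA
import Pool.Agent.ROT.Engine

/-!
# ROT-13: points in convex position, listed counterclockwise

`CCW b`: `0 < cr (b j - b i) (b k - b i)` for `i < j < k`.  Write `[i,j,k]` for
`cr (b j - b i) (b k - b i)`; it is alternating in `i,j,k` (`ring` after unfolding).  `sg i j` is the
sign of `j - i`.

* `ccw_ncol`: three different indices can be sorted; `[.,.,.]` is nonzero.
* `conv_form`: `anti` is clear.  `tri`: if `[i,j,k] > 0` then `i,j,k` are different and `(i,j,k)` is a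
  cyclic rotation of an increasing triple, the sum is `1 + 1 - 1`.  `par`: the sum
  `sg j l - sg j k - sg i l + sg i k` is one of `-2, 0, 2`, and it is `-2` only if the chords cross
  in the wrong way; in these orders `cr (b j - b i) (b l - b k) = [i,j,l] - [i,j,k] < 0`.
  (24 orders of `i,j,k,l`; in each of them all brackets have a known sign:
  `cr (b j - b i) (b l - b k) = [i,j,l] - [i,j,k]`; if the sum is negative, e.g. `i < l < j < k`:
  `[i,j,l] = -[i,l,j] < 0`, `[i,j,k] > 0`.)
* `side`: for `i < j`, `side i j = {l : i < l < j}`; for `j < i`, `side i j = {l : l < j ∨ i < l}`.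
* `conv_unb`: by `unb_form` an element of `unb` is given by `(i,j)` with
  `(side i j).card + 1 = M`: for `i < j` this means `j = i + M` (`card = j - i - 1`), for `j < i` it
  means `j = i + M - N` (`card = j + (N - 1 - i)`).  So `i` determines `j` (the first case is
  possible only if `i + M < N`, the second only if `i + M ≥ N`): at most `N` elements.
* `conv_Q`: for `i < j`, `S = X + i`, `R = X + j`, `X = {l : i < l < j}`, `card X = M - 1`:
  `om sg S R = sum_{l ∈ X} (sg l j + sg i l) + sg i j = 2 (M - 1) + 1` (`om_insert_left`,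
  `om_insert_right`, `om_self`).  For `j < i`, every `l ∈ X` has `sg l j + sg i l = 0`, so
  `om sg S R = sg i j = -1` and the maximum is `0`.  There are at most `N - M` elements of the
  first kind (`i + M < N`), each contributes `2 M - 1`.
* `conv_cells`: if `M = 0` or `M = N` (or `N < M`) there is at most one `M`-set, so at most one cell.
  Otherwise let `K = N - M ≥ 1`, `M ≥ 1`; `engine` with `Q = (2M-1) K` gives
  `2 L ≤ 3 (2M-1) K + M + K ≤ 7 M K` (as `M ≤ M K`), so `L + L.choose 2 = (L^2 + L)/2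
  ≤ (12.25 M²K² + 3.5 M K)/2 ≤ 8 M² K²`.
-/

set_option autoImplicit false

namespace Pool.Agent.ROT

/-- The points `b 0, b 1, ...` are the vertices of a convex polygon in counterclockwise order. -/
def CCW {N : ℕ} (b : Fin N → ℝ × ℝ) : Prop :=
  ∀ i j k : Fin N, i < j → j < k → 0 < cr (b j - b i) (b k - b i)

/-- The sign of `j - i`. -/
def sg {N : ℕ} (i j : Fin N) : ℝ := if i < j then 1 else if j < i then -1 else 0

lemma Conv_sg_lt {N : ℕ} {i j : Fin N} (h : i < j) : sg i j = 1 := by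
  simp [sg, h]

lemma Conv_sg_gt {N : ℕ} {i j : Fin N} (h : j < i) : sg i j = -1 := by
  simp [sg, h, not_lt.2 h.le]

lemma Conv_sg_self {N : ℕ} (i : Fin N) : sg i i = 0 := by
  simp [sg]

lemma Conv_sg_cases {N : ℕ} {i j : Fin N} (h : i ≠ j) :
    ((i : ℕ) < j ∧ sg i j = 1) ∨ ((j : ℕ) < i ∧ sg i j = -1) := by
  rcases lt_or_gt_of_ne h with h | h
  · exact Or.inl ⟨Fin.lt_def.1 h, Conv_sg_lt h⟩
  · exact Or.inr ⟨Fin.lt_def.1 h, Conv_sg_gt h⟩

lemma Conv_sg_anti {N : ℕ} (i j : Fin N) : sg i j = - sg j i := by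
  rcases lt_trichotomy i j with h | h | h
  · rw [Conv_sg_lt h, Conv_sg_gt h]; norm_num
  · subst h; rw [Conv_sg_self]; norm_num
  · rw [Conv_sg_lt h, Conv_sg_gt h]

lemma Conv_rot1 (u v w : ℝ × ℝ) : cr (v - u) (w - u) = cr (w - v) (u - v) := by
  simp [cr]; ring

lemma Conv_swap (u v w : ℝ × ℝ) : cr (v - u) (w - u) = - cr (u - v) (w - v) := by
  simp [cr]; ring

/-- The sign of the triangle `i, j, k`. -/
lemma Conv_sign {N : ℕ} {b : Fin N → ℝ × ℝ} (h : CCW b) {i j k : Fin N} (hij : i ≠ j)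
    (hjk : j ≠ k) (hik : i ≠ k) :
    0 < sg i j * sg j k * sg i k * cr (b j - b i) (b k - b i) := by
  have r1 := Conv_rot1 (b i) (b j) (b k)
  have r2 := Conv_rot1 (b j) (b k) (b i)
  have s1 := Conv_swap (b i) (b j) (b k)
  have s2 := Conv_swap (b j) (b k) (b i)
  have s3 := Conv_swap (b k) (b i) (b j)
  rcases Conv_sg_cases hij with ⟨h1, e1⟩ | ⟨h1, e1⟩ <;>
  rcases Conv_sg_cases hjk with ⟨h2, e2⟩ | ⟨h2, e2⟩ <;>
  rcases Conv_sg_cases hik with ⟨h3, e3⟩ | ⟨h3, e3⟩ <;>
  rw [e1, e2, e3]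
  · have := h i j k h1 h2; linarith
  · omega
  · have := h i k j h3 h2; linarith
  · have := h k i j h3 h1; linarith
  · have := h j i k h1 h3; linarith
  · have := h j k i h2 h3; linarith
  · omega
  · have := h k j i h2 h1; linarith

namespace Sys

variable {N : ℕ} {s : Sys N}

theorem ccw_ncol (h : CCW s.b) : s.Ncol := by
  intro i j k hij hjk hik h0
  have := Conv_sign h hij hjk hik
  rw [h0, mul_zero] at this
  exact lt_irrefl _ this

theorem conv_form (h : CCW s.b) : s.Form sg := by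
  refine ⟨Conv_sg_anti, ?_, ?_⟩
  · intro i j k hpos
    have hij : i ≠ j := by
      rintro rfl
      simp [cr] at hpos
    have hik : i ≠ k := by
      rintro rfl
      simp [cr] at hpos
    have hjk : j ≠ k := by
      rintro rfl
      rw [cr_self] at hpos
      exact lt_irrefl _ hpos
    have hs := Conv_sign h hij hjk hik
    rw [Conv_sg_anti k i]
    rcases Conv_sg_cases hij with ⟨h1, e1⟩ | ⟨h1, e1⟩ <;>
    rcases Conv_sg_cases hjk with ⟨h2, e2⟩ | ⟨h2, e2⟩ <;>
    rcases Conv_sg_cases hik with ⟨h3, e3⟩ | ⟨h3, e3⟩ <;>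
    rw [e1, e2, e3] at hs ⊢ <;>
    first
      | (exfalso; omega)
      | (norm_num; done)
      | (exfalso; linarith)
  · intro i j k l hij hik hil hjk hjl hkl hpos
    have e : cr (s.b j - s.b i) (s.b l - s.b k) =
        cr (s.b j - s.b i) (s.b l - s.b i) - cr (s.b j - s.b i) (s.b k - s.b i) := by
      simp [cr]; ring
    rw [e] at hpos
    have s1 := Conv_sign h hij hjl hil
    have s2 := Conv_sign h hij hjk hik
    rcases Conv_sg_cases hij with ⟨h1, e1⟩ | ⟨h1, e1⟩ <;>
    rcases Conv_sg_cases hik with ⟨h2, e2⟩ | ⟨h2, e2⟩ <;>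
    rcases Conv_sg_cases hil with ⟨h3, e3⟩ | ⟨h3, e3⟩ <;>
    rcases Conv_sg_cases hjk with ⟨h4, e4⟩ | ⟨h4, e4⟩ <;>
    rcases Conv_sg_cases hjl with ⟨h5, e5⟩ | ⟨h5, e5⟩ <;>
    rw [e2, e3, e4, e5] <;>
    rw [e1, e5, e3] at s1 <;>
    rw [e1, e4, e2] at s2 <;>
    first
      | (exfalso; omega)
      | (norm_num; done)
      | (exfalso; linarith)

lemma Conv_side_lt (h : CCW s.b) {i j : Fin N} (hij : i < j) : s.side i j = Finset.Ioo i j := by
  ext l
  rw [mem_side, Finset.mem_Ioo]
  by_cases hil : i = l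
  · subst hil
    simp [cr]
  by_cases hjl : j = l
  · subst hjl
    simp [cr_self]
  have hs := Conv_sign h hij.ne hjl hil
  rw [Conv_sg_lt hij] at hs
  rcases Conv_sg_cases hjl with ⟨h2, e2⟩ | ⟨h2, e2⟩ <;>
  rcases Conv_sg_cases hil with ⟨h3, e3⟩ | ⟨h3, e3⟩ <;>
  rw [e2, e3] at hs <;>
  rw [Fin.lt_def] at hij <;>
  rw [Fin.lt_def, Fin.lt_def] <;>
  constructor <;> intro hh
  all_goals first
    | (exfalso; omega)
    | (exfalso; linarith)
    | (constructor <;> omega)
    | linarith

lemma Conv_side_gt (h : CCW s.b) {i j : Fin N} (hji : j < i) :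
    s.side i j = Finset.Iio j ∪ Finset.Ioi i := by
  ext l
  rw [mem_side, Finset.mem_union, Finset.mem_Iio, Finset.mem_Ioi]
  by_cases hil : i = l
  · subst hil
    simp [cr, not_lt.2 hji.le]
  by_cases hjl : j = l
  · subst hjl
    simp [cr_self, not_lt.2 hji.le]
  have hs := Conv_sign h hji.ne' hjl hil
  rw [Conv_sg_gt hji] at hs
  rcases Conv_sg_cases hjl with ⟨h2, e2⟩ | ⟨h2, e2⟩ <;>
  rcases Conv_sg_cases hil with ⟨h3, e3⟩ | ⟨h3, e3⟩ <;>
  rw [e2, e3] at hs <;>
  rw [Fin.lt_def] at hji <;>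
  rw [Fin.lt_def, Fin.lt_def] <;>
  constructor <;> intro hh
  all_goals first
    | (exfalso; omega)
    | (exfalso; linarith)
    | omega
    | linarith

/-- The shape of the unbounded walls. -/
lemma Conv_unb (hs : s.Good) (h : CCW s.b) {p : Finset (Fin N) × Finset (Fin N)}
    (hp : p ∈ s.unb) : ∃ i j : Fin N, p = (insert i (s.side i j), insert j (s.side i j)) ∧
      ((i < j ∧ (j : ℕ) = i + s.M ∧ om sg p.1 p.2 = 2 * (s.M : ℝ) - 1) ∨
        (j < i ∧ (j : ℕ) + N = i + s.M ∧ om sg p.1 p.2 = -1)) := by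
  obtain ⟨i, j, hij, h1, h2, hc⟩ := unb_form hs (ccw_ncol h) (s.mem_unb.1 hp)
  refine ⟨i, j, Prod.ext h1 h2, ?_⟩
  have hom : ∀ X : Finset (Fin N), i ∉ X → j ∉ X → om sg (insert i X) (insert j X) =
      sg i j + ∑ q ∈ X, (sg i q + sg q j) := by
    intro X hi hj
    rw [om_insert_left hi, Finset.sum_insert hj, om_insert_right hj, om_self Conv_sg_anti,
      Finset.sum_add_distrib]
    ring
  rcases lt_or_gt_of_ne hij with hlt | hgt
  · left
    rw [Conv_side_lt h hlt] at h1 h2 hc
    rw [Fin.card_Ioo] at hc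
    have hlt' : (i : ℕ) < j := hlt
    have hM : (j : ℕ) = i + s.M := by omega
    refine ⟨hlt, hM, ?_⟩
    rw [h1, h2, hom _ (by simp) (by simp), Conv_sg_lt hlt]
    have : ∑ q ∈ Finset.Ioo i j, (sg i q + sg q j) = ∑ q ∈ Finset.Ioo i j, (2 : ℝ) := by
      refine Finset.sum_congr rfl fun q hq => ?_
      rw [Finset.mem_Ioo] at hq
      rw [Conv_sg_lt hq.1, Conv_sg_lt hq.2]
      norm_num
    rw [this, Finset.sum_const, Fin.card_Ioo, nsmul_eq_mul]
    have h3 : ((j : ℕ) - (i : ℕ) - 1 : ℕ) = s.M - 1 := by omega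
    have h4 : 1 ≤ s.M := by omega
    rw [h3, Nat.cast_sub h4]
    push_cast
    ring
  · right
    rw [Conv_side_gt h hgt] at h1 h2 hc
    have hdis : Disjoint (Finset.Iio j) (Finset.Ioi i) := by
      rw [Finset.disjoint_left]
      intro l hl hl'
      rw [Finset.mem_Iio] at hl
      rw [Finset.mem_Ioi] at hl'
      exact absurd (hl.trans hgt) (not_lt.2 hl'.le)
    rw [Finset.card_union_of_disjoint hdis, Fin.card_Iio, Fin.card_Ioi] at hc
    have hgt' : (j : ℕ) < i := hgt
    have hiN := i.isLt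
    refine ⟨hgt, by omega, ?_⟩
    rw [h1, h2, hom _ (by simp [not_lt.2 hgt.le]) (by simp [not_lt.2 hgt.le]), Conv_sg_gt hgt]
    have : ∑ q ∈ Finset.Iio j ∪ Finset.Ioi i, (sg i q + sg q j) = 0 := by
      refine Finset.sum_eq_zero fun q hq => ?_
      rw [Finset.mem_union, Finset.mem_Iio, Finset.mem_Ioi] at hq
      rcases hq with hq | hq
      · rw [Conv_sg_gt (hq.trans hgt), Conv_sg_lt hq]
        norm_num
      · rw [Conv_sg_lt hq, Conv_sg_gt (hgt.trans hq)]
        norm_num
    rw [this, add_zero]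

/-- The relation between an unbounded wall and its first index. -/
lemma Conv_det {p q : Finset (Fin N) × Finset (Fin N)} {i j i' j' : Fin N}
    (hp : p = (insert i (s.side i j), insert j (s.side i j)))
    (hq : q = (insert i' (s.side i' j'), insert j' (s.side i' j')))
    (hi : i = i') (hj : j = j') : p = q := by
  subst hi hj
  rw [hp, hq]

theorem conv_unb (hs : s.Good) (h : CCW s.b) : s.unb.card ≤ N := by
  classical
  have key := Finset.card_le_card_of_forall_subsingleton
    (s := s.unb) (t := (Finset.univ : Finset (Fin N)))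
    (r := fun p i => ∃ j : Fin N, p = (insert i (s.side i j), insert j (s.side i j)) ∧
      ((j : ℕ) = i + s.M ∨ (j : ℕ) + N = i + s.M)) ?_ ?_
  · rw [Finset.card_univ, Fintype.card_fin] at key
    exact key
  · intro p hp
    obtain ⟨i, j, hpe, hc⟩ := Conv_unb hs h hp
    refine ⟨i, Finset.mem_univ _, j, hpe, ?_⟩
    rcases hc with ⟨-, a, -⟩ | ⟨-, a, -⟩
    · exact Or.inl a
    · exact Or.inr a
  · intro i _ p hp q hq
    obtain ⟨-, j, hpe, hj⟩ := hp
    obtain ⟨-, j', hqe, hj'⟩ := hq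
    have b1 := j.isLt
    have b2 := j'.isLt
    exact Conv_det hpe hqe rfl (Fin.ext (by omega))

theorem conv_Q (hs : s.Good) (h : CCW s.b) (hM : 1 ≤ s.M) (hN : s.M ≤ N) :
    ∑ p ∈ s.unb, max (om sg p.1 p.2) 0 ≤ (2 * (s.M : ℝ) - 1) * ((N : ℝ) - s.M) := by
  classical
  have hM' : (1 : ℝ) ≤ s.M := by exact_mod_cast hM
  set U : Finset (Finset (Fin N) × Finset (Fin N)) :=
    s.unb.filter fun p => 0 < om sg p.1 p.2 with hU
  have h1 : ∑ p ∈ s.unb, max (om sg p.1 p.2) 0 = ∑ p ∈ U, (2 * (s.M : ℝ) - 1) := by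
    rw [hU, Finset.sum_filter]
    refine Finset.sum_congr rfl fun p hp => ?_
    obtain ⟨i, j, -, hc⟩ := Conv_unb hs h hp
    rcases hc with ⟨-, -, hc⟩ | ⟨-, -, hc⟩
    · rw [hc, if_pos (by linarith), max_eq_left (by linarith)]
    · rw [hc, if_neg (by norm_num), max_eq_right (by norm_num)]
  have h2 : U.card ≤ N - s.M := by
    have key := Finset.card_le_card_of_forall_subsingleton
      (s := U) (t := Finset.range (N - s.M))
      (r := fun p i => ∃ i' j : Fin N, (i' : ℕ) = i ∧
        p = (insert i' (s.side i' j), insert j (s.side i' j)) ∧ (j : ℕ) = i' + s.M) ?_ ?_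
    · rw [Finset.card_range] at key
      exact key
    · intro p hp
      rw [hU, Finset.mem_filter] at hp
      obtain ⟨i, j, hpe, hc⟩ := Conv_unb hs h hp.1
      have hb := j.isLt
      rcases hc with ⟨-, a, -⟩ | ⟨-, -, a⟩
      · refine ⟨i, ?_, i, j, rfl, hpe, a⟩
        rw [Finset.mem_range]
        omega
      · have := hp.2
        rw [a] at this
        norm_num at this
    · intro i _ p hp q hq
      obtain ⟨-, i1, j, hi, hpe, hj⟩ := hp
      obtain ⟨-, i2, j', hi', hqe, hj'⟩ := hq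
      exact Conv_det hpe hqe (Fin.ext (by omega)) (Fin.ext (by omega))
  rw [h1, Finset.sum_const, nsmul_eq_mul, mul_comm]
  have h3 : (U.card : ℝ) ≤ (N : ℝ) - s.M := by
    rw [← Nat.cast_sub hN]
    exact_mod_cast h2
  exact mul_le_mul_of_nonneg_left h3 (by linarith)

theorem conv_cells (hs : s.Good) (h : CCW s.b) :
    s.cells.card ≤ 1 + 8 * s.M ^ 2 * (N - s.M) ^ 2 := by
  classical
  by_cases hM : 1 ≤ s.M ∧ s.M < N
  · obtain ⟨hM1, hMN⟩ := hM
    obtain ⟨L, hL, hcells⟩ := engine hs (conv_form h) (conv_Q hs h hM1 hMN.le)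
    have hunb := conv_unb hs h
    obtain ⟨K, hK⟩ : ∃ K, N = s.M + K := ⟨N - s.M, by omega⟩
    have hK1 : 1 ≤ K := by omega
    have hNK : N - s.M = K := by omega
    rw [hNK]
    have hunb' : (s.unb.card : ℝ) ≤ s.M + K := by
      have : s.unb.card ≤ s.M + K := by omega
      exact_mod_cast this
    have hNr : (N : ℝ) - s.M = K := by
      have : (N : ℝ) = s.M + K := by exact_mod_cast hK
      linarith
    rw [hNr] at hL
    have hM1' : (1 : ℝ) ≤ s.M := by exact_mod_cast hM1
    have hK1' : (1 : ℝ) ≤ K := by exact_mod_cast hK1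
    have hL2 : (2 * L : ℝ) ≤ 7 * (s.M * K) := by nlinarith
    have hL3 : 2 * L ≤ 7 * (s.M * K) := by exact_mod_cast hL2
    set P := s.M * K with hP
    have hP1 : 1 ≤ P := Nat.mul_pos hM1 hK1
    have hch : 2 * L.choose 2 ≤ L * L - L := by
      rw [Nat.choose_two_right]
      have := Nat.mul_div_le (L * (L - 1)) 2
      have h5 : L * (L - 1) = L * L - L := by
        rw [Nat.mul_sub, mul_one]
      omega
    have hLL : L ≤ L * L := by
      rcases Nat.eq_zero_or_pos L with h0 | h0
      · simp [h0]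
      · exact Nat.le_mul_of_pos_left L h0
    have h6 : 2 * (L + L.choose 2) ≤ L * L + L := by omega
    have h7 : 4 * (L * L) ≤ 49 * (P * P) := by nlinarith
    have h8 : P ≤ P * P := Nat.le_mul_of_pos_left P hP1
    have h9 : 8 * s.M ^ 2 * K ^ 2 = 8 * (P * P) := by rw [hP]; ring
    rw [h9]
    omega
  · have h1 : s.cells.card ≤ 1 := by
      have hsub : s.cells ⊆ {if s.M = 0 then (∅ : Finset (Fin N)) else Finset.univ} := by
        intro S hS
        have hc := (s.mem_cells.1 hS).1
        rw [Finset.mem_singleton]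
        split_ifs with h0
        · rw [h0] at hc
          exact Finset.card_eq_zero.1 hc
        · rw [← Finset.card_eq_iff_eq_univ, Fintype.card_fin]
          have := Finset.card_le_univ S
          rw [Fintype.card_fin] at this
          omega
      exact (Finset.card_le_card hsub).trans (by simp)
    omega

end Sys

end Pool.Agent.ROT
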