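import Pool.Agent.ROT.Near
import Pool.Agent.ROT.Class

/-!
# ROT-5: the flags at the three types of vertices

Everything is a finite check with `isStart_iff`: `(S,R)` is a flag at `t` iff `S ≠ R`, both are
optimal at `t`, all numbers `cr (bs R - bs S) (bs Q - bs S)`, `Q` optimal at `t`, are `≥ 0` and one
is `> 0`.  The values `bs` of the optimal sets are given by `bs_insert`, `bs_erase`.

* White triangle `X + i, X + j, X + k`: the differences are those of `b i, b j, b k`; with
  `d = cr (b j - b i) (b k - b i) > 0` the cross product for `(i,j;k)`, `(j,k;i)`, `(k,i;j)` is `d`,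
  for the reversed pairs it is `-d`.  So the flags are `(X+i,X+j), (X+j,X+k), (X+k,X+i)`.
* Black triangle `T - i, T - j, T - k`: the points are `bs T - b i, ...`, same cross products.
* Parallelogram: `a = Y+i+k`, `b = Y+j+k`, `c = Y+j+l`, `d = Y+i+l`, `v = b j - b i`,
  `u = b l - b k`, `bs b = bs a + v`, `bs c = bs a + v + u`, `bs d = bs a + u`, `cr v u > 0`.
  Flags: `(a,b), (b,c), (c,d), (d,a)`; the other eight ordered pairs have a negative cross product
  (for `(a,c)`: `cr (v+u) v < 0`; `(c,a)`: `Q = b`... ; `(b,d)`: `cr (u-v) u < 0`, and so on).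
* `Par.partner`: for the flag `(a,b)` take `(S',R') = (d,c)`, for `(b,c)` take `(a,d)`, for `(c,d)`
  take `(b,a)`, for `(d,a)` take `(c,b)`.  Then `bs R' - bs S' = bs R - bs S` and all four sets are
  optimal at `t`, so `h R' - h S' = h R - h S` everywhere (both vanish at `t`, same gradient:
  `h_diff`).  By `near` with direction `-w`, `w = dir S R`, the sets `S'`, `R'` are optimal at
  `t - ε w` for small `ε > 0`: they minimise `dt (-w) (bs Q)`, i.e. maximise `dt w (bs Q)`:
  the values `dt w (bs Q - bs S)` are `0` for `Q = S, R` and `cr v u` for `Q = S', R'`.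
-/

set_option autoImplicit false

namespace Pool.Agent.ROT.Sys

variable {N : ℕ} {s : Sys N}

private lemma flag_cyc (x y z : ℝ × ℝ) : cr (z - y) (x - y) = cr (y - x) (z - x) := by
  simp only [cr, Prod.fst_sub, Prod.snd_sub]; ring

private lemma flag_rev (x y z : ℝ × ℝ) : cr (x - y) (z - y) = - cr (y - x) (z - x) := by
  simp only [cr, Prod.fst_sub, Prod.snd_sub]; ring

private lemma flag_swap (x y z : ℝ × ℝ) : cr (z - x) (y - x) = - cr (y - x) (z - x) := by
  simp only [cr, Prod.fst_sub, Prod.snd_sub]; ring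

/-- the flags of a triangle -/
theorem flag_three {t : ℝ × ℝ} {A B C : Finset (Fin N)} (hAB : A ≠ B) (hBC : B ≠ C)
    (hAC : A ≠ C) (hopt : ∀ S, s.Opt t S ↔ S = A ∨ S = B ∨ S = C)
    (hd : 0 < cr (s.bs B - s.bs A) (s.bs C - s.bs A)) :
    s.flagsAt t = {(A, B), (B, C), (C, A)} := by
  have oA : s.Opt t A := (hopt A).2 (Or.inl rfl)
  have oB : s.Opt t B := (hopt B).2 (Or.inr (Or.inl rfl))
  have oC : s.Opt t C := (hopt C).2 (Or.inr (Or.inr rfl))
  have e1 := flag_cyc (s.bs A) (s.bs B) (s.bs C)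
  have e2 := flag_cyc (s.bs B) (s.bs C) (s.bs A)
  have r1 := flag_rev (s.bs A) (s.bs B) (s.bs C)
  have r2 := flag_rev (s.bs B) (s.bs C) (s.bs A)
  have r3 := flag_swap (s.bs A) (s.bs B) (s.bs C)
  ext ⟨S, R⟩
  rw [mem_flagsAt]
  simp only [Finset.mem_insert, Finset.mem_singleton, Prod.mk.injEq]
  constructor
  · intro h
    have hne := h.1
    have hS := (hopt S).1 h.2.1.1
    have hR := (hopt R).1 h.2.1.2
    have key := ((isStart_iff h.2.1.1 h.2.1.2 hne).1 h).1
    rcases hS with rfl | rfl | rfl <;> rcases hR with rfl | rfl | rfl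
    · exact absurd rfl hne
    · exact Or.inl ⟨rfl, rfl⟩
    · have := key _ oB
      linarith
    · have := key _ oC
      linarith
    · exact absurd rfl hne
    · exact Or.inr (Or.inl ⟨rfl, rfl⟩)
    · exact Or.inr (Or.inr ⟨rfl, rfl⟩)
    · have := key _ oA
      linarith
    · exact absurd rfl hne
  · rintro (⟨rfl, rfl⟩ | ⟨rfl, rfl⟩ | ⟨rfl, rfl⟩)
    · refine (isStart_iff oA oB hAB).2 ⟨fun Q hQ => ?_, ⟨C, oC, hd⟩⟩
      rcases (hopt Q).1 hQ with rfl | rfl | rfl
      · rw [sub_self]; simp [cr]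
      · rw [cr_self]
      · exact hd.le
    · refine (isStart_iff oB oC hBC).2 ⟨fun Q hQ => ?_, ⟨A, oA, by linarith⟩⟩
      rcases (hopt Q).1 hQ with rfl | rfl | rfl
      · linarith
      · rw [sub_self (s.bs Q)]; simp [cr]
      · rw [cr_self]
    · refine (isStart_iff oC oA hAC.symm).2 ⟨fun Q hQ => ?_, ⟨B, oB, by linarith⟩⟩
      rcases (hopt Q).1 hQ with rfl | rfl | rfl
      · rw [cr_self]
      · linarith
      · rw [sub_self (s.bs Q)]; simp [cr]

/-- the flags of a parallelogram -/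
theorem flag_four {t : ℝ × ℝ} {A B C D : Finset (Fin N)} {v u : ℝ × ℝ} (hAB : A ≠ B)
    (hAC : A ≠ C) (hAD : A ≠ D) (hBC : B ≠ C) (hBD : B ≠ D) (hCD : C ≠ D)
    (hopt : ∀ S, s.Opt t S ↔ S = A ∨ S = B ∨ S = C ∨ S = D)
    (hB : s.bs B = s.bs A + v) (hC : s.bs C = s.bs A + v + u) (hD : s.bs D = s.bs A + u)
    (hd : 0 < cr v u) :
    s.flagsAt t = {(A, B), (B, C), (C, D), (D, A)} := by
  have oA : s.Opt t A := (hopt A).2 (Or.inl rfl)
  have oB : s.Opt t B := (hopt B).2 (Or.inr (Or.inl rfl))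
  have oC : s.Opt t C := (hopt C).2 (Or.inr (Or.inr (Or.inl rfl)))
  have oD : s.Opt t D := (hopt D).2 (Or.inr (Or.inr (Or.inr rfl)))
  have vd : v.1 * u.2 - v.2 * u.1 > 0 := hd
  ext ⟨S, R⟩
  rw [mem_flagsAt]
  simp only [Finset.mem_insert, Finset.mem_singleton, Prod.mk.injEq]
  constructor
  · intro h
    have hne := h.1
    have hS := (hopt S).1 h.2.1.1
    have hR := (hopt R).1 h.2.1.2
    have key := ((isStart_iff h.2.1.1 h.2.1.2 hne).1 h).1
    have kA := key _ oA
    have kB := key _ oB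
    have kC := key _ oC
    have kD := key _ oD
    rcases hS with rfl | rfl | rfl | rfl <;> rcases hR with rfl | rfl | rfl | rfl
    · exact absurd rfl hne
    · exact Or.inl ⟨rfl, rfl⟩
    · exfalso
      rw [hC, hB] at kB
      simp only [cr, Prod.fst_sub, Prod.snd_sub, Prod.fst_add, Prod.snd_add] at kB
      linarith
    · exfalso
      rw [hD, hB] at kB
      simp only [cr, Prod.fst_sub, Prod.snd_sub, Prod.fst_add, Prod.snd_add] at kB
      linarith
    · exfalso
      rw [hB, hC] at kC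
      simp only [cr, Prod.fst_sub, Prod.snd_sub, Prod.fst_add, Prod.snd_add] at kC
      linarith
    · exact absurd rfl hne
    · exact Or.inr (Or.inl ⟨rfl, rfl⟩)
    · exfalso
      rw [hB, hC, hD] at kC
      simp only [cr, Prod.fst_sub, Prod.snd_sub, Prod.fst_add, Prod.snd_add] at kC
      linarith
    · exfalso
      rw [hC, hD] at kD
      simp only [cr, Prod.fst_sub, Prod.snd_sub, Prod.fst_add, Prod.snd_add] at kD
      linarith
    · exfalso
      rw [hB, hC] at kA
      simp only [cr, Prod.fst_sub, Prod.snd_sub, Prod.fst_add, Prod.snd_add] at kA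
      linarith
    · exact absurd rfl hne
    · exact Or.inr (Or.inr (Or.inl ⟨rfl, rfl⟩))
    · exact Or.inr (Or.inr (Or.inr ⟨rfl, rfl⟩))
    · exfalso
      rw [hB, hD] at kA
      simp only [cr, Prod.fst_sub, Prod.snd_sub, Prod.fst_add, Prod.snd_add] at kA
      linarith
    · exfalso
      rw [hC, hD] at kA
      simp only [cr, Prod.fst_sub, Prod.snd_sub, Prod.fst_add, Prod.snd_add] at kA
      linarith
    · exact absurd rfl hne
  · rintro (⟨rfl, rfl⟩ | ⟨rfl, rfl⟩ | ⟨rfl, rfl⟩ | ⟨rfl, rfl⟩)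
    · refine (isStart_iff oA oB hAB).2 ⟨fun Q hQ => ?_, ⟨C, oC, ?_⟩⟩
      · rcases (hopt Q).1 hQ with rfl | rfl | rfl | rfl
        · rw [hB]; simp only [cr, Prod.fst_sub, Prod.snd_sub, Prod.fst_add, Prod.snd_add]; linarith
        · rw [cr_self]
        · rw [hB, hC]
          simp only [cr, Prod.fst_sub, Prod.snd_sub, Prod.fst_add, Prod.snd_add]; linarith
        · rw [hB, hD]
          simp only [cr, Prod.fst_sub, Prod.snd_sub, Prod.fst_add, Prod.snd_add]; linarith
      · rw [hB, hC]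
        simp only [cr, Prod.fst_sub, Prod.snd_sub, Prod.fst_add, Prod.snd_add]; linarith
    · refine (isStart_iff oB oC hBC).2 ⟨fun Q hQ => ?_, ⟨A, oA, ?_⟩⟩
      · rcases (hopt Q).1 hQ with rfl | rfl | rfl | rfl
        · rw [hB, hC]
          simp only [cr, Prod.fst_sub, Prod.snd_sub, Prod.fst_add, Prod.snd_add]; linarith
        · rw [sub_self (s.bs Q)]; simp [cr]
        · rw [cr_self]
        · rw [hB, hC, hD]
          simp only [cr, Prod.fst_sub, Prod.snd_sub, Prod.fst_add, Prod.snd_add]; linarith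
      · rw [hB, hC]
        simp only [cr, Prod.fst_sub, Prod.snd_sub, Prod.fst_add, Prod.snd_add]; linarith
    · refine (isStart_iff oC oD hCD).2 ⟨fun Q hQ => ?_, ⟨A, oA, ?_⟩⟩
      · rcases (hopt Q).1 hQ with rfl | rfl | rfl | rfl
        · rw [hC, hD]
          simp only [cr, Prod.fst_sub, Prod.snd_sub, Prod.fst_add, Prod.snd_add]; linarith
        · rw [hB, hC, hD]
          simp only [cr, Prod.fst_sub, Prod.snd_sub, Prod.fst_add, Prod.snd_add]; linarith
        · rw [sub_self (s.bs Q)]; simp [cr]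
        · rw [cr_self]
      · rw [hC, hD]
        simp only [cr, Prod.fst_sub, Prod.snd_sub, Prod.fst_add, Prod.snd_add]; linarith
    · refine (isStart_iff oD oA hAD.symm).2 ⟨fun Q hQ => ?_, ⟨B, oB, ?_⟩⟩
      · rcases (hopt Q).1 hQ with rfl | rfl | rfl | rfl
        · rw [cr_self]
        · rw [hB, hD]
          simp only [cr, Prod.fst_sub, Prod.snd_sub, Prod.fst_add, Prod.snd_add]; linarith
        · rw [hC, hD]
          simp only [cr, Prod.fst_sub, Prod.snd_sub, Prod.fst_add, Prod.snd_add]; linarith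
        · rw [sub_self (s.bs Q)]; simp [cr]
      · rw [hB, hD]
        simp only [cr, Prod.fst_sub, Prod.snd_sub, Prod.fst_add, Prod.snd_add]; linarith

private lemma flag_ins_ne {X : Finset (Fin N)} {i j : Fin N} (hi : i ∉ X) (hij : i ≠ j) :
    insert i X ≠ insert j X := by
  intro h
  have h1 : i ∈ insert j X := h ▸ Finset.mem_insert_self i X
  rcases Finset.mem_insert.1 h1 with h2 | h2
  · exact hij h2
  · exact hi h2

private lemma flag_er_ne {T : Finset (Fin N)} {i j : Fin N} (hi : i ∈ T) (hij : i ≠ j) :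
    T.erase i ≠ T.erase j := by
  intro h
  have h1 : i ∈ T.erase j := Finset.mem_erase.2 ⟨hij, hi⟩
  rw [← h] at h1
  exact (Finset.mem_erase.1 h1).1 rfl

theorem TriW.flagsAt_eq {t : ℝ × ℝ} {X : Finset (Fin N)} {i j k : Fin N}
    (h : s.TriW t X i j k) : s.flagsAt t =
      {(insert i X, insert j X), (insert j X, insert k X), (insert k X, insert i X)} := by
  refine flag_three (flag_ins_ne h.hi h.hij) (flag_ins_ne h.hj h.hjk) (flag_ins_ne h.hi h.hik)
    h.opt ?_
  rw [s.bs_insert h.hi, s.bs_insert h.hj, s.bs_insert h.hk]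
  have := h.pos
  simp only [cr, Prod.fst_sub, Prod.snd_sub, Prod.fst_add, Prod.snd_add] at this ⊢
  linarith

theorem TriB.flagsAt_eq {t : ℝ × ℝ} {T : Finset (Fin N)} {i j k : Fin N}
    (h : s.TriB t T i j k) : s.flagsAt t =
      {(T.erase i, T.erase j), (T.erase j, T.erase k), (T.erase k, T.erase i)} := by
  refine flag_three (flag_er_ne h.hi h.hij) (flag_er_ne h.hj h.hjk) (flag_er_ne h.hi h.hik)
    h.opt ?_
  rw [s.bs_erase h.hi, s.bs_erase h.hj, s.bs_erase h.hk]
  have := h.pos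
  simp only [cr, Prod.fst_sub, Prod.snd_sub] at this ⊢
  linarith

/-- the four sets of a parallelogram are different and their sums form a parallelogram -/
theorem flag_par {t : ℝ × ℝ} {Y : Finset (Fin N)} {i j k l : Fin N}
    (h : s.Par t Y i j k l) :
    insert i (insert k Y) ≠ insert j (insert k Y) ∧
    insert i (insert k Y) ≠ insert j (insert l Y) ∧
    insert i (insert k Y) ≠ insert i (insert l Y) ∧
    insert j (insert k Y) ≠ insert j (insert l Y) ∧
    insert j (insert k Y) ≠ insert i (insert l Y) ∧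
    insert j (insert l Y) ≠ insert i (insert l Y) ∧
    s.bs (insert j (insert k Y)) = s.bs (insert i (insert k Y)) + (s.b j - s.b i) ∧
    s.bs (insert j (insert l Y)) =
      s.bs (insert i (insert k Y)) + (s.b j - s.b i) + (s.b l - s.b k) ∧
    s.bs (insert i (insert l Y)) = s.bs (insert i (insert k Y)) + (s.b l - s.b k) := by
  have hik : i ∉ insert k Y := by simp [h.hik, h.hi]
  have hjk : j ∉ insert k Y := by simp [h.hjk, h.hj]
  have hil : i ∉ insert l Y := by simp [h.hil, h.hi]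
  have hjl : j ∉ insert l Y := by simp [h.hjl, h.hj]
  have mk : ∀ x : Fin N, k ∈ insert x (insert k Y) := by intro x; simp
  have nk : ∀ x : Fin N, k ≠ x → k ∉ insert x (insert l Y) := by
    intro x hx
    simp [hx, h.hkl, h.hk]
  refine ⟨flag_ins_ne hik h.hij, ?_, ?_, ?_, ?_, (flag_ins_ne hil h.hij).symm, ?_, ?_, ?_⟩
  · intro e
    exact nk j h.hjk.symm (e ▸ mk i)
  · intro e
    exact nk i h.hik.symm (e ▸ mk i)
  · intro e
    exact nk j h.hjk.symm (e ▸ mk j)
  · intro e
    exact nk i h.hik.symm (e ▸ mk j)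
  · rw [s.bs_insert hjk, s.bs_insert hik]; abel
  · rw [s.bs_insert hjl, s.bs_insert hik, s.bs_insert h.hl, s.bs_insert h.hk]; abel
  · rw [s.bs_insert hil, s.bs_insert hik, s.bs_insert h.hl, s.bs_insert h.hk]; abel

theorem Par.flagsAt_eq {t : ℝ × ℝ} {Y : Finset (Fin N)} {i j k l : Fin N}
    (h : s.Par t Y i j k l) : s.flagsAt t =
      {(insert i (insert k Y), insert j (insert k Y)),
        (insert j (insert k Y), insert j (insert l Y)),
        (insert j (insert l Y), insert i (insert l Y)),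
        (insert i (insert l Y), insert i (insert k Y))} := by
  obtain ⟨h1, h2, h3, h4, h5, h6, h7, h8, h9⟩ := flag_par h
  exact flag_four h1 h2 h3 h4 h5 h6 h.opt h7 h8 h9 h.pos

private theorem flag_partner_aux {t : ℝ × ℝ} {S R S' R' : Finset (Fin N)}
    (oS : s.Opt t S) (oR : s.Opt t R) (oS' : s.Opt t S') (oR' : s.Opt t R')
    (hd : s.bs R' - s.bs S' = s.bs R - s.bs S)
    (hmax : ∀ Q, s.Opt t Q → cr (s.bs R - s.bs S) (s.bs Q - s.bs S') ≤ 0) :
    (∀ x, s.h R' x - s.h S' x = s.h R x - s.h S x) ∧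
      s.Both S' R' t ∧ ∃ ε : ℝ, 0 < ε ∧ s.Both S' R' (t - ε • s.dir S R) := by
  refine ⟨fun x => ?_, ⟨oS', oR'⟩, ?_⟩
  · have e1 := s.h_diff S' R' t x
    have e2 := s.h_diff S R t x
    rw [hd] at e1
    have e3 := oS'.eq oR'
    have e4 := oS.eq oR
    linarith
  · obtain ⟨ε0, hε0, hn⟩ := near s t (-(s.dir S R))
    have ht : t + ε0 • (-(s.dir S R)) = t - ε0 • s.dir S R := by
      rw [smul_neg, sub_eq_add_neg]
    have hneg : ∀ z : ℝ × ℝ, dt (-(s.dir S R)) z = - cr (s.bs R - s.bs S) z := by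
      intro z
      rw [← s.dt_dir S R z]
      simp only [dt, Prod.fst_neg, Prod.snd_neg]; ring
    have hsub : ∀ Q, cr (s.bs R - s.bs S) (s.bs Q - s.bs S') =
        cr (s.bs R - s.bs S) (s.bs Q) - cr (s.bs R - s.bs S) (s.bs S') := by
      intro Q; rw [cr_sub_right]
    have hR' : cr (s.bs R - s.bs S) (s.bs R') = cr (s.bs R - s.bs S) (s.bs S') := by
      have h1 := hsub R'
      rw [hd, cr_self] at h1
      linarith
    refine ⟨ε0, hε0, ?_, ?_⟩
    · rw [← ht, hn ε0 hε0 le_rfl]
      refine ⟨oS', fun Q hQ => ?_⟩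
      rw [hneg, hneg]
      have h1 := hmax Q hQ
      rw [hsub] at h1
      linarith
    · rw [← ht, hn ε0 hε0 le_rfl]
      refine ⟨oR', fun Q hQ => ?_⟩
      rw [hneg, hneg]
      have h1 := hmax Q hQ
      rw [hsub] at h1
      linarith

theorem Par.partner {t : ℝ × ℝ} {Y : Finset (Fin N)} {i j k l : Fin N}
    (h : s.Par t Y i j k l) {S R : Finset (Fin N)} (hst : s.IsStart S R t) :
    ∃ S' R' : Finset (Fin N), (∀ x, s.h R' x - s.h S' x = s.h R x - s.h S x) ∧
      s.Both S' R' t ∧ ∃ ε : ℝ, 0 < ε ∧ s.Both S' R' (t - ε • s.dir S R) := by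
  obtain ⟨-, -, -, -, -, -, hB, hC, hD⟩ := flag_par h
  have hopt := h.opt
  have hpos := h.pos
  have hmem : (S, R) ∈ s.flagsAt t := (s.mem_flagsAt).2 hst
  rw [h.flagsAt_eq] at hmem
  have oA := (hopt _).2 (Or.inl rfl)
  have oB := (hopt _).2 (Or.inr (Or.inl rfl))
  have oC := (hopt _).2 (Or.inr (Or.inr (Or.inl rfl)))
  have oD := (hopt _).2 (Or.inr (Or.inr (Or.inr rfl)))
  simp only [Finset.mem_insert, Finset.mem_singleton, Prod.mk.injEq] at hmem
  generalize insert i (insert k Y) = A at *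
  generalize insert j (insert k Y) = B at *
  generalize insert j (insert l Y) = C at *
  generalize insert i (insert l Y) = D at *
  generalize s.b j - s.b i = v at *
  generalize s.b l - s.b k = u at *
  have vd : v.1 * u.2 - v.2 * u.1 > 0 := hpos
  rcases hmem with ⟨rfl, rfl⟩ | ⟨rfl, rfl⟩ | ⟨rfl, rfl⟩ | ⟨rfl, rfl⟩
  · refine ⟨D, C, flag_partner_aux oA oB oD oC (by rw [hB, hC, hD]; abel) fun Q hQ => ?_⟩
    rcases (hopt Q).1 hQ with rfl | rfl | rfl | rfl <;>
    · simp only [hB, hC, hD]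
      simp only [cr, Prod.fst_sub, Prod.snd_sub, Prod.fst_add, Prod.snd_add]; linarith
  · refine ⟨A, D, flag_partner_aux oB oC oA oD (by rw [hB, hC, hD]; abel) fun Q hQ => ?_⟩
    rcases (hopt Q).1 hQ with rfl | rfl | rfl | rfl <;>
    · simp only [hB, hC, hD]
      simp only [cr, Prod.fst_sub, Prod.snd_sub, Prod.fst_add, Prod.snd_add]; linarith
  · refine ⟨B, A, flag_partner_aux oC oD oB oA (by rw [hB, hC, hD]; abel) fun Q hQ => ?_⟩
    rcases (hopt Q).1 hQ with rfl | rfl | rfl | rfl <;>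
    · simp only [hB, hC, hD]
      simp only [cr, Prod.fst_sub, Prod.snd_sub, Prod.fst_add, Prod.snd_add]; linarith
  · refine ⟨C, B, flag_partner_aux oD oA oC oB (by rw [hB, hC, hD]; abel) fun Q hQ => ?_⟩
    rcases (hopt Q).1 hQ with rfl | rfl | rfl | rfl <;>
    · simp only [hB, hC, hD]
      simp only [cr, Prod.fst_sub, Prod.snd_sub, Prod.fst_add, Prod.snd_add]; linarith

end Pool.Agent.ROT.Sys
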