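import Pool.Agent.ROT.Base
import Pool.Agent.ROT.Mat

/-!
# ROT-16: generic costs are dense

`Gen c b`: for every `t` and every real function `μ` on the matchings whose support is tied at `t`
(all members have the same value `cst c π + <t, ∑ b (π i)>`), with `∑ μ = 0` and
`∑ μ π • ∑ i, b (π i) = 0`, one has `∑_{π : π i = j} μ π = 0` for all `i, j`.

Proof of density.  For a finite set `F` of matchings let `Y F` be the set of all `μ` supported in `F`
with `∑ μ = 0` and `∑ μ π • b(π) = 0`, and for `μ` let `x μ i j = ∑_{π : π i = j} μ π`.  Call `F` bad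
if `x μ ≠ 0` for some `μ ∈ Y F`; for a bad `F` choose such a `μ_F` and let `y_F = x μ_F ≠ 0`.  Let
`U_F = {c : ∑ i, ∑ j, c i j * y_F i j ≠ 0}` (for a bad `F`) and `U_F = univ` otherwise.  `U_F` is
open (continuity) and dense: if `∑ c y_F = 0` then `c + ε y_F ∈ U_F` for every `ε ≠ 0`
(`∑ y_F² > 0`).  There are finitely many `F`, so the intersection is dense
(`dense_iInter_of_isOpen`; `Fin m → Fin n → ℝ` is a Baire space).  Every `c` in the intersection is
generic: let `t`, `μ` be as in `Gen`, and let `F` be the support of `μ`.  Then `μ ∈ Y F`, more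
generally for every `μ' ∈ Y F`:
`0 = ∑ μ' π (cst c π + <t, b(π)>) - (common value) ∑ μ' π`, so `∑ μ' π cst c π = 0`, i.e.
`∑ i, ∑ j, c i j * x μ' i j = 0`.  If `F` were bad, this for `μ' = μ_F` would contradict
`c ∈ U_F`.  So `F` is not bad and `x μ = 0`.
-/

set_option autoImplicit false

namespace Pool.Agent.ROT

variable {m n : ℕ}

/-- The sum of the points of a matching. -/
def bm (b : Fin n → ℝ × ℝ) (π : Fin m ↪ Fin n) : ℝ × ℝ := ∑ i, b (π i)

/-- Generic costs. -/
def Gen (c : Fin m → Fin n → ℝ) (b : Fin n → ℝ × ℝ) : Prop :=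
  ∀ (t : ℝ × ℝ) (μ : (Fin m ↪ Fin n) → ℝ),
    (∀ π σ, μ π ≠ 0 → μ σ ≠ 0 → cst c π + dt t (bm b π) = cst c σ + dt t (bm b σ)) →
    ∑ π, μ π = 0 → ∑ π, μ π • bm b π = 0 →
    ∀ (i : Fin m) (j : Fin n), ∑ π : Fin m ↪ Fin n, (if π i = j then μ π else 0) = 0

lemma Gen_key (c : Fin m → Fin n → ℝ) (μ : (Fin m ↪ Fin n) → ℝ) :
    ∑ π, μ π * cst c π =
      ∑ i, ∑ j, c i j * ∑ π : Fin m ↪ Fin n, (if π i = j then μ π else 0) := by
  classical
  simp only [cst, Finset.mul_sum]
  rw [Finset.sum_comm]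
  refine Finset.sum_congr rfl fun i _ => ?_
  rw [Finset.sum_comm]
  refine Finset.sum_congr rfl fun π _ => ?_
  simp only [mul_ite, mul_zero]
  rw [Finset.sum_ite_eq]
  simp [mul_comm]

lemma Gen_dt_sum {ι : Type} [Fintype ι] (t : ℝ × ℝ) (μ : ι → ℝ) (v : ι → ℝ × ℝ) :
    ∑ x, μ x * dt t (v x) = dt t (∑ x, μ x • v x) := by
  simp only [dt, Prod.fst_sum, Prod.snd_sum, Prod.smul_fst, Prod.smul_snd, smul_eq_mul,
    Finset.mul_sum, ← Finset.sum_add_distrib]
  exact Finset.sum_congr rfl fun x _ => by ring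

theorem dense_gen (b : Fin n → ℝ × ℝ) : Dense {c : Fin m → Fin n → ℝ | Gen c b} := by
  classical
  let X : ((Fin m ↪ Fin n) → ℝ) → Fin m → Fin n → ℝ :=
    fun μ i j => ∑ π : Fin m ↪ Fin n, (if π i = j then μ π else 0)
  let Y : Finset (Fin m ↪ Fin n) → Set ((Fin m ↪ Fin n) → ℝ) :=
    fun F => {μ | (∀ π, μ π ≠ 0 → π ∈ F) ∧ ∑ π, μ π = 0 ∧ ∑ π, μ π • bm b π = 0}
  let U : Finset (Fin m ↪ Fin n) → Set (Fin m → Fin n → ℝ) :=
    fun F => if h : ∃ μ ∈ Y F, X μ ≠ 0 then {c | ∑ i, ∑ j, c i j * X h.choose i j ≠ 0}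
      else Set.univ
  have hopen : ∀ F, IsOpen (U F) := by
    intro F
    by_cases h : ∃ μ ∈ Y F, X μ ≠ 0
    · have : U F = {c | ∑ i, ∑ j, c i j * X h.choose i j ≠ 0} := dif_pos h
      rw [this]
      exact isOpen_ne_fun (by fun_prop) continuous_const
    · have : U F = Set.univ := dif_neg h
      rw [this]
      exact isOpen_univ
  have hdense : ∀ F, Dense (U F) := by
    intro F
    by_cases h : ∃ μ ∈ Y F, X μ ≠ 0
    · have hUF : U F = {c | ∑ i, ∑ j, c i j * X h.choose i j ≠ 0} := dif_pos h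
      rw [hUF]
      set y := X h.choose with hy
      have hy0 : y ≠ 0 := h.choose_spec.2
      have hpos : 0 < ∑ i, ∑ j, y i j * y i j := by
        obtain ⟨i, hi⟩ := Function.ne_iff.1 hy0
        obtain ⟨j, hj⟩ := Function.ne_iff.1 hi
        have h1 : 0 < y i j * y i j := mul_self_pos.2 hj
        have h2 : y i j * y i j ≤ ∑ j, y i j * y i j :=
          Finset.single_le_sum (f := fun j => y i j * y i j)
            (fun _ _ => mul_self_nonneg _) (Finset.mem_univ j)
        have h3 : ∑ j, y i j * y i j ≤ ∑ i, ∑ j, y i j * y i j :=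
          Finset.single_le_sum (f := fun i => ∑ j, y i j * y i j)
            (fun _ _ => Finset.sum_nonneg fun _ _ => mul_self_nonneg _) (Finset.mem_univ i)
        linarith
      intro c0
      by_cases hc0 : ∑ i, ∑ j, c0 i j * y i j = 0
      · -- c0 + ε y
        have hlim : Filter.Tendsto (fun k : ℕ => c0 + (1 / ((k : ℝ) + 1)) • y) Filter.atTop
            (nhds c0) := by
          have h1 : Filter.Tendsto (fun k : ℕ => (1 / ((k : ℝ) + 1)) • y) Filter.atTop
              (nhds ((0 : ℝ) • y)) :=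
            tendsto_one_div_add_atTop_nhds_zero_nat.smul_const y
          rw [zero_smul] at h1
          simpa using tendsto_const_nhds.add h1
        refine mem_closure_of_tendsto hlim (Filter.Eventually.of_forall fun k => ?_)
        show ∑ i, ∑ j, (c0 + (1 / ((k : ℝ) + 1)) • y) i j * y i j ≠ 0
        have h2 : ∑ i, ∑ j, (c0 + (1 / ((k : ℝ) + 1)) • y) i j * y i j =
            ∑ i, ∑ j, c0 i j * y i j + (1 / ((k : ℝ) + 1)) * ∑ i, ∑ j, y i j * y i j := by
          simp only [Pi.add_apply, Pi.smul_apply, smul_eq_mul, add_mul, Finset.sum_add_distrib,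
            Finset.mul_sum, mul_assoc]
        rw [h2, hc0, zero_add]
        have : (0 : ℝ) < 1 / ((k : ℝ) + 1) := by positivity
        exact (mul_pos this hpos).ne'
      · exact subset_closure hc0
    · have : U F = Set.univ := dif_neg h
      rw [this]
      exact dense_univ
  have hU : Dense (⋂ F, U F) := dense_iInter_of_isOpen hopen hdense
  refine hU.mono ?_
  intro c hc t μ htie hsum hbsum
  let F : Finset (Fin m ↪ Fin n) := Finset.univ.filter fun π => μ π ≠ 0
  have hcF : c ∈ U F := Set.mem_iInter.1 hc F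
  have hmemF : ∀ π, π ∈ F ↔ μ π ≠ 0 := fun π => by simp [F]
  have hμY : μ ∈ Y F := ⟨fun π h => (hmemF π).2 h, hsum, hbsum⟩
  -- every element of Y F is orthogonal to c
  have hort : ∀ μ' ∈ Y F, ∑ i, ∑ j, c i j * X μ' i j = 0 := by
    rintro μ' ⟨h1, h2, h3⟩
    rw [← Gen_key c μ']
    by_cases hne : ∃ π0, μ' π0 ≠ 0
    · obtain ⟨π0, hπ0⟩ := hne
      have e1 : ∀ π, μ' π * (cst c π + dt t (bm b π)) =
          μ' π * (cst c π0 + dt t (bm b π0)) := by
        intro π
        by_cases hz : μ' π = 0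
        · rw [hz, zero_mul, zero_mul]
        · rw [htie π π0 ((hmemF π).1 (h1 π hz)) ((hmemF π0).1 (h1 π0 hπ0))]
      have e2 : ∑ π, μ' π * (cst c π + dt t (bm b π)) = 0 := by
        rw [Finset.sum_congr rfl fun π _ => e1 π, ← Finset.sum_mul, h2, zero_mul]
      simp only [mul_add, Finset.sum_add_distrib] at e2
      rw [Gen_dt_sum t μ' (bm b), h3] at e2
      have e3 : dt t (0 : ℝ × ℝ) = 0 := by simp [dt]
      rw [e3, add_zero] at e2
      exact e2
    · push Not at hne
      exact Finset.sum_eq_zero fun π _ => by rw [hne π, zero_mul]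
  by_cases h : ∃ μ ∈ Y F, X μ ≠ 0
  · exfalso
    have hUF : U F = {c | ∑ i, ∑ j, c i j * X h.choose i j ≠ 0} := dif_pos h
    rw [hUF] at hcF
    exact hcF (hort _ h.choose_spec.1)
  · push Not at h
    have hX := h μ hμY
    intro i j
    exact congrFun (congrFun hX i) j

end Pool.Agent.ROT
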