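import Pool.Agent.ROT.VSum
import Pool.Agent.ROT.Start

/-!
# ROT-7: the global count of the flags at triangles

Proof.  Choose for every `p ∈ flags` its start `st p` (unique by `start_unique`), so
`flagsAt t = {p ∈ flags : st p = t}`.  Sum `flagsAt_bound` over all `t` in the finite set
`flags.image st` (`Finset.sum_fiberwise_of_maps_to`): the left sides sum to
`tflags.card` (`tflags = {p ∈ flags : (opts (st p)).card = 3}`), the right sides to
`3 * ∑ p ∈ flags, om phi p.1 p.2`.

It remains to see `∑ p ∈ flags, om phi p.1 p.2 ≤ ∑ p ∈ unb, max (om phi p.1 p.2) 0`.  Split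
`flags` into `F1 = {p ∈ flags : p.swap ∈ flags}` and `F2 = {p ∈ flags : p.swap ∉ flags}`.
`F1` is stable under `Prod.swap` and `om phi` is antisymmetric (`om_anti`), so the sum over `F1` is
equal to its negative (`Finset.sum_bij` / `Finset.sum_nbij'` with `Prod.swap`), hence `0`.
For `p = (S,R) ∈ F2`: `Wall S R` (`wall_of_start`), so `Wall R S`, and `(R,S)` has no start, so
`Unb S R` by `start_or_unb` applied to `(R,S)`.  So `F2 ⊆ unb`, and
`∑ F2 om ≤ ∑ F2 max (om) 0 ≤ ∑ unb max (om) 0` (`Finset.sum_le_sum_of_subset_of_nonneg`).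
-/

set_option autoImplicit false

namespace Pool.Agent.ROT.Sys

variable {N : ℕ} {s : Sys N}

/-- The start of a flag (arbitrary outside of `flags`). -/
private noncomputable def globSt (s : Sys N) (p : Finset (Fin N) × Finset (Fin N)) : ℝ × ℝ := by
  classical
  exact if h : ∃ t, s.IsStart p.1 p.2 t then h.choose else 0

private lemma globSt_spec {p : Finset (Fin N) × Finset (Fin N)} (h : ∃ t, s.IsStart p.1 p.2 t) :
    s.IsStart p.1 p.2 (globSt s p) := by
  rw [globSt, dif_pos h]
  exact h.choose_spec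

private lemma globSt_eq (hs : s.Good) {p : Finset (Fin N) × Finset (Fin N)} {t : ℝ × ℝ}
    (h : s.IsStart p.1 p.2 t) : globSt s p = t :=
  start_unique hs (globSt_spec ⟨t, h⟩) h

open Classical in
private lemma glob_fiber (hs : s.Good) (t : ℝ × ℝ) :
    s.flags.filter (fun p => globSt s p = t) = s.flagsAt t := by
  ext p
  rw [Finset.mem_filter, mem_flags, mem_flagsAt]
  constructor
  · rintro ⟨h, rfl⟩
    exact globSt_spec h
  · intro h
    exact ⟨⟨t, h⟩, globSt_eq hs h⟩

open Classical in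
private lemma glob_sum_at (hs : s.Good) (g : Finset (Fin N) × Finset (Fin N) → ℝ) :
    ∑ t ∈ s.flags.image (globSt s), ∑ p ∈ s.flagsAt t, g p = ∑ p ∈ s.flags, g p := by
  rw [← Finset.sum_fiberwise_of_maps_to (s := s.flags) (t := s.flags.image (globSt s))
    (g := globSt s) (fun p hp => Finset.mem_image_of_mem _ hp)]
  refine Finset.sum_congr rfl fun t _ => ?_
  rw [glob_fiber hs t]

open Classical in
private lemma glob_left (hs : s.Good) :
    (s.tflags.card : ℝ) = ∑ t ∈ s.flags.image (globSt s),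
      (if (s.opts t).card = 3 then ((s.flagsAt t).card : ℝ) else 0) := by
  have h1 : ∀ t ∈ s.flags.image (globSt s),
      (if (s.opts t).card = 3 then ((s.flagsAt t).card : ℝ) else 0) =
        ∑ p ∈ s.flagsAt t, (if (s.opts (globSt s p)).card = 3 then (1 : ℝ) else 0) := by
    intro t _
    have h2 : ∀ p ∈ s.flagsAt t, (if (s.opts (globSt s p)).card = 3 then (1 : ℝ) else 0) =
        (if (s.opts t).card = 3 then (1 : ℝ) else 0) := by
      intro p hp
      rw [globSt_eq hs ((mem_flagsAt s).1 hp)]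
    rw [Finset.sum_congr rfl h2]
    split_ifs <;> simp
  rw [Finset.sum_congr rfl h1, glob_sum_at hs]
  rw [← Finset.sum_filter]
  rw [Finset.sum_const, nsmul_eq_mul, mul_one]
  congr 2
  ext p
  rw [Finset.mem_filter, mem_flags, mem_tflags]
  constructor
  · rintro ⟨t, h, h3⟩
    refine ⟨⟨t, h⟩, ?_⟩
    rwa [globSt_eq hs h]
  · rintro ⟨h, h3⟩
    exact ⟨_, globSt_spec h, h3⟩

private lemma glob_om (hs : s.Good) {phi : Fin N → Fin N → ℝ} (hphi : s.Form phi) :
    ∑ p ∈ s.flags, om phi p.1 p.2 ≤ ∑ p ∈ s.unb, max (om phi p.1 p.2) 0 := by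
  classical
  rw [← Finset.sum_filter_add_sum_filter_not s.flags (fun p => p.swap ∈ s.flags)]
  have h1 : ∑ p ∈ s.flags.filter (fun p => p.swap ∈ s.flags), om phi p.1 p.2 = 0 := by
    have h2 : ∑ p ∈ s.flags.filter (fun p => p.swap ∈ s.flags), om phi p.1 p.2 =
        ∑ p ∈ s.flags.filter (fun p => p.swap ∈ s.flags), - om phi p.1 p.2 := by
      refine Finset.sum_nbij' Prod.swap Prod.swap ?_ ?_ ?_ ?_ ?_
      · intro p hp
        rw [Finset.mem_filter] at hp ⊢
        exact ⟨hp.2, by simpa using hp.1⟩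
      · intro p hp
        rw [Finset.mem_filter] at hp ⊢
        exact ⟨hp.2, by simpa using hp.1⟩
      · intro p _
        simp
      · intro p _
        simp
      · intro p _
        simp only [Prod.fst_swap, Prod.snd_swap]
        exact om_anti hphi.anti _ _
    rw [Finset.sum_neg_distrib] at h2
    linarith
  rw [h1, zero_add]
  have hsub : s.flags.filter (fun p => ¬ p.swap ∈ s.flags) ⊆ s.unb := by
    intro p hp
    rw [Finset.mem_filter, mem_flags, mem_flags] at hp
    obtain ⟨⟨t, ht⟩, h2⟩ := hp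
    rw [mem_unb]
    have hw : s.Wall p.2 p.1 := (wall_of_start ht).symm
    rcases start_or_unb hs hw with h3 | h3
    · exact absurd h3 h2
    · exact h3
  calc ∑ p ∈ s.flags.filter (fun p => ¬ p.swap ∈ s.flags), om phi p.1 p.2
      ≤ ∑ p ∈ s.flags.filter (fun p => ¬ p.swap ∈ s.flags), max (om phi p.1 p.2) 0 :=
        Finset.sum_le_sum fun p _ => le_max_left _ _
    _ ≤ ∑ p ∈ s.unb, max (om phi p.1 p.2) 0 :=
        Finset.sum_le_sum_of_subset_of_nonneg hsub fun p _ _ => le_max_right _ _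

theorem tflags_le (hs : s.Good) {phi : Fin N → Fin N → ℝ} (hphi : s.Form phi) :
    (s.tflags.card : ℝ) ≤ 3 * ∑ p ∈ s.unb, max (om phi p.1 p.2) 0 := by
  classical
  rw [glob_left hs]
  calc ∑ t ∈ s.flags.image (globSt s),
        (if (s.opts t).card = 3 then ((s.flagsAt t).card : ℝ) else 0)
      ≤ ∑ t ∈ s.flags.image (globSt s), 3 * ∑ p ∈ s.flagsAt t, om phi p.1 p.2 :=
        Finset.sum_le_sum fun t _ => flagsAt_bound hs hphi t
    _ = 3 * ∑ p ∈ s.flags, om phi p.1 p.2 := by
        rw [← Finset.mul_sum, glob_sum_at hs (fun p => om phi p.1 p.2)]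
    _ ≤ 3 * ∑ p ∈ s.unb, max (om phi p.1 p.2) 0 :=
        mul_le_mul_of_nonneg_left (glob_om hs hphi) (by norm_num)

end Pool.Agent.ROT.Sys
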