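import Pool.Agent.ROT.Base

/-!
# ROT-1: local facts at a parameter `t`

All statements follow from `s.Good`.

* `opt_exch`: the sets optimal at `t` satisfy symmetric exchange.  Proof: take `j` from
  `hs.exch`; `S' = S - i + j` and `R' = R - j + i` have `M` elements and
  `bs S' + bs R' = bs S + bs R`, hence `h S' t + h R' t <= h S t + h R t`, while
  `h S t <= h S' t` and `h R t <= h R' t`; so both are equalities and `Opt.of_le` applies.
* `bs_inj`: apply `hs.gen` to `mu = 1_S - 1_R` (if `S ≠ R`); it gives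
  `[l ∈ S] - [l ∈ R] = 0` for all `l`, so `S = R`.
* `cr_ne`: if the cross product vanishes, the three points `bs A, bs B, bs C` are collinear, so
  there are `x, y, z`, not all zero, with `x + y + z = 0` and
  `x • bs A + y • bs B + z • bs C = 0` (if `u = bs B - bs A`, `v = bs C - bs A`, `cr u v = 0`:
  take `y • u + z • v = 0` with `(y,z) = (v.1,-u.1)` or `(v.2,-u.2)` or `(1,0)`, note that
  `u ≠ 0` by `bs_inj`, so in fact `z ≠ 0` may be assumed: `v = c • u`).  By `hs.gen` with
  `mu = x 1_A + y 1_B + z 1_C` we get `x [l ∈ A] + y [l ∈ B] + z [l ∈ C] = 0` for all `l`.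
  Say `v = c • u`: `z = 1`, `y = -c`, `x = c - 1`: so `[l ∈ C] = c [l ∈ B] + (1-c) [l ∈ A]`
  for all `l`.  As `A ≠ B` some `l` has `[l ∈ A] ≠ [l ∈ B]`, which gives `c = 0` or `c = 1`, so
  `C = A` or `C = B`, contradiction.
* `span`: by `cr_ne` the vectors `u = bs B - bs A`, `v = bs C - bs A` are a basis of the plane, so
  `bs D - bs A = y • u + z • v` (Cramer), and `hs.gen` with
  `mu = 1_D - x 1_A - y 1_B - z 1_C`, `x = 1 - y - z`, gives the claim.  (All four sets are
  optimal at `t`; they need not be distinct, so add the four point masses with `Pi.single` or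
  `if`; use `Finset.sum_ite_eq`.)
-/

set_option autoImplicit false

namespace Pool.Agent.ROT.Sys

variable {N : ℕ} {s : Sys N}

theorem opt_exch (hs : s.Good) {t : ℝ × ℝ} {S R : Finset (Fin N)} (hS : s.Opt t S)
    (hR : s.Opt t R) {i : Fin N} (hi : i ∈ S \ R) :
    ∃ j ∈ R \ S, s.Opt t (insert j (S.erase i)) ∧ s.Opt t (insert i (R.erase j)) := by
  obtain ⟨j, hj, hle⟩ := hs.exch S R hS.1 hR.1 i hi
  rw [Finset.mem_sdiff] at hi hj
  have h1 : j ∉ S.erase i := fun h => hj.2 (Finset.mem_of_mem_erase h)
  have h2 : i ∉ R.erase j := fun h => hi.2 (Finset.mem_of_mem_erase h)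
  have c1 : (insert j (S.erase i)).card = s.M := by
    rw [Finset.card_insert_of_notMem h1, Finset.card_erase_add_one hi.1, hS.1]
  have c2 : (insert i (R.erase j)).card = s.M := by
    rw [Finset.card_insert_of_notMem h2, Finset.card_erase_add_one hj.1, hR.1]
  have e1 : s.bs (insert j (S.erase i)) = s.b j + (s.bs S - s.b i) := by
    rw [s.bs_insert h1, s.bs_erase hi.1]
  have e2 : s.bs (insert i (R.erase j)) = s.b i + (s.bs R - s.b j) := by
    rw [s.bs_insert h2, s.bs_erase hj.1]
  have h3 : s.h (insert j (S.erase i)) t + s.h (insert i (R.erase j)) t ≤ s.h S t + s.h R t := by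
    have h4 : dt t (s.bs (insert j (S.erase i))) + dt t (s.bs (insert i (R.erase j))) =
        dt t (s.bs S) + dt t (s.bs R) := by
      rw [e1, e2]
      simp only [dt_add_right, dt_sub_right]
      ring
    simp only [h]
    linarith
  have h5 := hS.le c1
  have h6 := hR.le c2
  exact ⟨j, Finset.mem_sdiff.2 hj, hS.of_le c1 (by linarith), hR.of_le c2 (by linarith)⟩

theorem loc_sum (A : Finset (Fin N)) (x : ℝ) (l : Fin N) :
    ∑ S : Finset (Fin N), (if l ∈ S then (if S = A then x else 0) else 0) =
      x * (if l ∈ A then 1 else 0) := by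
  rw [Finset.sum_eq_single A]
  · by_cases h : l ∈ A <;> simp [h]
  · intro S _ hS
    simp [hS]
  · intro h
    exact absurd (Finset.mem_univ A) h

/-- genericity for four optimal sets -/
theorem loc_gen (hs : s.Good) {t : ℝ × ℝ} {A B C D : Finset (Fin N)} (hA : s.Opt t A)
    (hB : s.Opt t B) (hC : s.Opt t C) (hD : s.Opt t D) {x y z w : ℝ} (h0 : x + y + z + w = 0)
    (h1 : x • s.bs A + y • s.bs B + z • s.bs C + w • s.bs D = 0) (l : Fin N) :
    x * (if l ∈ A then 1 else 0) + y * (if l ∈ B then 1 else 0) + z * (if l ∈ C then 1 else 0) +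
      w * (if l ∈ D then 1 else 0) = 0 := by
  classical
  have key := hs.gen t (fun Q => (if Q = A then x else 0) + (if Q = B then y else 0) +
    (if Q = C then z else 0) + (if Q = D then w else 0)) ?_ ?_ ?_ l
  · have h2 : ∀ S : Finset (Fin N), (if l ∈ S then ((if S = A then x else 0) +
        (if S = B then y else 0) + (if S = C then z else 0) + (if S = D then w else 0)) else 0) =
        (if l ∈ S then (if S = A then x else 0) else 0) +
        (if l ∈ S then (if S = B then y else 0) else 0) +
        (if l ∈ S then (if S = C then z else 0) else 0) +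
        (if l ∈ S then (if S = D then w else 0) else 0) := by
      intro S
      by_cases h : l ∈ S <;> simp [h]
    rw [Finset.sum_congr rfl fun S _ => h2 S] at key
    simp only [Finset.sum_add_distrib, loc_sum] at key
    exact key
  · intro S hS
    by_contra hn
    apply hS
    have a1 : S ≠ A := fun h => hn (h ▸ hA)
    have a2 : S ≠ B := fun h => hn (h ▸ hB)
    have a3 : S ≠ C := fun h => hn (h ▸ hC)
    have a4 : S ≠ D := fun h => hn (h ▸ hD)
    simp [a1, a2, a3, a4]
  · simp only [Finset.sum_add_distrib, Finset.sum_ite_eq', Finset.mem_univ, if_true]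
    exact h0
  · simp only [add_smul, ite_smul, zero_smul, Finset.sum_add_distrib, Finset.sum_ite_eq',
      Finset.mem_univ, if_true]
    exact h1

theorem bs_inj (hs : s.Good) {t : ℝ × ℝ} {S R : Finset (Fin N)} (hS : s.Opt t S)
    (hR : s.Opt t R) (h : s.bs S = s.bs R) : S = R := by
  ext l
  have key := loc_gen hs hS hR hS hS (x := 1) (y := -1) (z := 0) (w := 0) (by norm_num)
    (by rw [h]; module) l
  by_cases h1 : l ∈ S <;> by_cases h2 : l ∈ R <;> simp [h1, h2] at key ⊢

theorem cr_ne (hs : s.Good) {t : ℝ × ℝ} {A B C : Finset (Fin N)} (hA : s.Opt t A)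
    (hB : s.Opt t B) (hC : s.Opt t C) (hAB : A ≠ B) (hAC : A ≠ C) (hBC : B ≠ C) :
    cr (s.bs B - s.bs A) (s.bs C - s.bs A) ≠ 0 := by
  intro hcr
  set u := s.bs B - s.bs A with hu
  set v := s.bs C - s.bs A with hv
  have hu0 : u ≠ 0 := fun h => hAB (bs_inj hs hA hB (sub_eq_zero.1 h).symm)
  obtain ⟨c, hc⟩ : ∃ c : ℝ, v = c • u := by
    simp only [cr] at hcr
    by_cases h1 : u.1 = 0
    · have h2 : u.2 ≠ 0 := fun h2 => hu0 (Prod.ext h1 h2)
      refine ⟨v.2 / u.2, Prod.ext ?_ ?_⟩
      · rw [Prod.smul_fst, smul_eq_mul, h1, mul_zero]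
        rw [h1, zero_mul, zero_sub, neg_eq_zero] at hcr
        exact (mul_eq_zero.1 hcr).resolve_left h2
      · rw [Prod.smul_snd, smul_eq_mul, div_mul_cancel₀ _ h2]
    · refine ⟨v.1 / u.1, Prod.ext ?_ ?_⟩
      · rw [Prod.smul_fst, smul_eq_mul, div_mul_cancel₀ _ h1]
      · rw [Prod.smul_snd, smul_eq_mul]
        field_simp
        linarith
  have key : ∀ l : Fin N, (c - 1) * (if l ∈ A then 1 else 0) + (-c) * (if l ∈ B then 1 else 0) +
      1 * (if l ∈ C then 1 else 0) + 0 * (if l ∈ A then 1 else 0) = 0 := by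
    refine fun l => loc_gen hs hA hB hC hA (by ring) ?_ l
    have h1 : s.bs C = s.bs A + c • (s.bs B - s.bs A) := by
      rw [← hu, ← hc, hv]
      abel
    rw [h1]
    module
  have h01 : c = 0 ∨ c = 1 := by
    obtain ⟨l, hl⟩ : ∃ l, ¬ (l ∈ A ↔ l ∈ B) := by
      by_contra hcon
      push Not at hcon
      exact hAB (Finset.ext fun l => hcon l)
    have hk := key l
    by_cases h1 : l ∈ A <;> by_cases h2 : l ∈ B <;> by_cases h3 : l ∈ C <;>
      simp only [h1, h2, h3, if_true, if_false, mul_one, mul_zero, iff_self, not_true_eq_false]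
        at hk hl
    · left; linarith
    · right; linarith
    · right; linarith
    · left; linarith
  rcases h01 with h | h
  · apply hAC
    ext l
    have hk := key l
    rw [h] at hk
    by_cases h1 : l ∈ A <;> by_cases h2 : l ∈ B <;> by_cases h3 : l ∈ C <;>
      simp [h1, h2, h3] at hk ⊢
  · apply hBC
    ext l
    have hk := key l
    rw [h] at hk
    by_cases h1 : l ∈ A <;> by_cases h2 : l ∈ B <;> by_cases h3 : l ∈ C <;>
      simp [h1, h2, h3] at hk ⊢

theorem span (hs : s.Good) {t : ℝ × ℝ} {A B C D : Finset (Fin N)} (hA : s.Opt t A)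
    (hB : s.Opt t B) (hC : s.Opt t C) (hD : s.Opt t D) (hAB : A ≠ B) (hAC : A ≠ C)
    (hBC : B ≠ C) : ∃ x y z : ℝ, x + y + z = 1 ∧ ∀ l : Fin N, (if l ∈ D then (1 : ℝ) else 0) =
      x * (if l ∈ A then 1 else 0) + y * (if l ∈ B then 1 else 0) +
        z * (if l ∈ C then 1 else 0) := by
  have hne := cr_ne hs hA hB hC hAB hAC hBC
  set u := s.bs B - s.bs A with hu
  set v := s.bs C - s.bs A with hv
  set d := s.bs D - s.bs A with hd
  have hdec : d = (cr d v / cr u v) • u + (cr u d / cr u v) • v := by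
    apply Prod.ext
    · simp only [Prod.fst_add, Prod.smul_fst, smul_eq_mul]
      field_simp
      simp only [cr]
      ring
    · simp only [Prod.snd_add, Prod.smul_snd, smul_eq_mul]
      field_simp
      simp only [cr]
      ring
  refine ⟨1 - cr d v / cr u v - cr u d / cr u v, cr d v / cr u v, cr u d / cr u v, by ring,
    fun l => ?_⟩
  set y := cr d v / cr u v
  set z := cr u d / cr u v
  have key := loc_gen hs hA hB hC hD (x := -(1 - y - z)) (y := -y) (z := -z) (w := 1) (by ring)
    (by
      have h1 : s.bs D = s.bs A + (y • (s.bs B - s.bs A) + z • (s.bs C - s.bs A)) := by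
        rw [← hu, ← hv, ← hdec, hd]
        abel
      rw [h1]
      module) l
  linarith

end Pool.Agent.ROT.Sys
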