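import Pool.Agent.ROT.Ord
import Pool.Agent.ROT.Count
import Pool.Agent.ROT.Pert

/-!
# ROT-F1: convex position up to exceptional points

Proof.  Take `c` from `pert`, `e` from `ccw_enum` for `ι = {j // j ∉ E}` (composed with the
inclusion), `P = (Sopt A B).toFinite.toFinset`, and apply `reduce` with
`F = 1 + 8 m² (n-m)²`; for `J ⊆ E`, `card J ≤ m`, `sysOf_good` and `conv_cells` give
`cells ≤ 1 + 8 M² (N-M)²`, `M = m - card J ≤ m`, `N = n - card E`,
`N - M ≤ n - m` since `card J ≤ card E`.
-/

set_option autoImplicit false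

namespace Pool.Agent.ROT

variable {m n : ℕ}

theorem conv_main (hmn : m ≤ n) (A : Fin m → EuclideanSpace ℝ (Fin 2))
    (B : Fin n → EuclideanSpace ℝ (Fin 2)) (E : Finset (Fin n))
    (hE : ConvexIndependent ℝ (fun j : {j // j ∉ E} => B j)) :
    (Sopt A B).ncard ≤ 2 ^ E.card * (1 + 8 * m ^ 2 * (n - m) ^ 2) := by
  classical
  obtain ⟨c, hc, hP⟩ := pert A B
  obtain ⟨e0, he0⟩ := ccw_enum (fun j : {j // j ∉ E} => B j) hE
  have hcard : Fintype.card {j // j ∉ E} = n - E.card := by
    rw [Fintype.card_subtype_compl, Fintype.card_fin, Fintype.card_coe]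
  let e : Fin (Fintype.card {j // j ∉ E}) ↪ Fin n :=
    e0.toEmbedding.trans (Function.Embedding.subtype _)
  have hev : ∀ l, e l = (e0 l : Fin n) := fun l => rfl
  have heE : ∀ l, e l ∉ E := fun l => (e0 l).2
  have he : Finset.univ.map e = Eᶜ := by
    ext x
    simp only [Finset.mem_map, Finset.mem_univ, true_and, Finset.mem_compl]
    constructor
    · rintro ⟨l, rfl⟩
      exact heE l
    · intro hx
      refine ⟨e0.symm ⟨x, hx⟩, ?_⟩
      rw [hev, Equiv.apply_symm_apply]
  have hfin : (Sopt A B).Finite := Set.toFinite _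
  have key := reduce (c := c) (b := fun j => pt (B j)) (E := E) e he
    (F := ((1 + 8 * m ^ 2 * (n - m) ^ 2 : ℕ) : ℝ)) (Nat.cast_nonneg _) ?_ hfin.toFinset ?_
  · rw [Set.ncard_eq_toFinset_card _ hfin]
    have : ((hfin.toFinset.card : ℕ) : ℝ) ≤
        ((2 ^ E.card * (1 + 8 * m ^ 2 * (n - m) ^ 2) : ℕ) : ℝ) := by
      push_cast at key ⊢
      exact key
    exact_mod_cast this
  · intro J hJ hJm
    have hg := sysOf_good hc e (J := J) (fun l hl => heE l (hJ hl)) hJm
    have hccw : CCW (sysOf c (fun j => pt (B j)) e J).b := he0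
    have h1 := Sys.conv_cells hg hccw
    refine Nat.cast_le.2 (h1.trans ?_)
    have hM : (sysOf c (fun j => pt (B j)) e J).M = m - J.card := rfl
    rw [hM, hcard]
    have hJE : J.card ≤ E.card := Finset.card_le_card hJ
    have hEn : E.card ≤ n := by simpa using Finset.card_le_univ E
    have a1 : m - J.card ≤ m := Nat.sub_le _ _
    have a2 : n - E.card - (m - J.card) ≤ n - m := by omega
    gcongr
  · intro π hπ
    exact hP π (hfin.mem_toFinset.1 hπ)

end Pool.Agent.ROT
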