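import Pool.Agent.ROT.Pert

/-!
# ROT-21: random triangles are not small

`ν j` are probability measures on the plane with density at most `K` (in the form
`ν j s ≤ K * volume s`), supported in the disc of radius `R`; the points are independent.

Proof of `prob_tri`.  The law of `(B i, B j, B k)` (three different indices) under `Measure.pi ν`
is the product `ν i × ν j × ν k` (for example: `ProbabilityTheory.iIndepFun_pi` /
`MeasureTheory.measurePreserving_eval` and `indepFun_iff_map_prod_eq_prod_map_map`, or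
`measurePreserving_piCongrLeft` ...).  Write `x = B i`, `y = B j`, `z = B k`, `ρ = √δ`.
The event is contained in `{|y 0 - x 0| < ρ} ∪ {ρ ≤ |y 0 - x 0| and
|(y 0 - x 0)(z 1 - x 1) - (y 1 - x 1)(z 0 - x 0)| < δ}`.
 - for every fixed `x`: `ν j {y : |y 0 - x 0| < ρ} = ν j {y ∈ ball : ...} ≤ K * volume (box)`,
   the set is contained in the box `|y 0 - x 0| ≤ ρ`, `|y 1| ≤ R`, of area `2ρ * 2R`;
 - for all fixed `x, y` with `ρ ≤ |y 0 - x 0|`: the set of the `z` in the disc of radius `R` in the
   second event is contained in `{z : |z 0| ≤ R, |z 1 - g (z 0)| ≤ δ/ρ = ρ}` with an affine function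
   `g`; its area is `2R * 2ρ` (Fubini, or `MeasureTheory.measurePreserving` of the shear
   `(a,b) ↦ (a, b - g a)`).
 Together `≤ 4 K R ρ + 4 K R ρ`.  (`EuclideanSpace ℝ (Fin 2)` and `ℝ × ℝ`:
`EuclideanSpace.volume_preserving_symm_measurableEquiv_toLp` or the like and
`MeasureTheory.volume_preserving_finTwoArrow`.)
The statement is about an outer measure; the event is open/measurable anyway.
-/

set_option autoImplicit false

open MeasureTheory

namespace Pool.Agent.ROT

theorem prob_update {n : ℕ} (ν : Fin n → Measure (EuclideanSpace ℝ (Fin 2)))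
    [∀ j, IsProbabilityMeasure (ν j)] {S : Set (Fin n → EuclideanSpace ℝ (Fin 2))}
    (hS : MeasurableSet S) (k : Fin n) (c : ENNReal)
    (h : ∀ B : Fin n → EuclideanSpace ℝ (Fin 2), ν k {z | Function.update B k z ∈ S} ≤ c) :
    Measure.pi ν S ≤ c := by
  have h1 : ∫⁻ x, S.indicator (fun _ => (1 : ENNReal)) x ∂Measure.pi ν ≤
      ∫⁻ _x, c ∂Measure.pi ν := by
    refine lintegral_le_of_lmarginal_le {k} (measurable_const.indicator hS) measurable_const ?_
    rw [lmarginal_singleton, lmarginal_singleton]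
    intro B
    have h2 : (fun z => S.indicator (fun _ => (1 : ENNReal)) (Function.update B k z)) =
        {z | Function.update B k z ∈ S}.indicator (1 : EuclideanSpace ℝ (Fin 2) → ENNReal) := by
      funext z
      by_cases hz : Function.update B k z ∈ S
      · rw [Set.indicator_of_mem hz]
        exact (Set.indicator_of_mem (s := {z | Function.update B k z ∈ S}) hz
          (1 : EuclideanSpace ℝ (Fin 2) → ENNReal)).symm
      · rw [Set.indicator_of_notMem hz]
        exact (Set.indicator_of_notMem (s := {z | Function.update B k z ∈ S}) hz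
          (1 : EuclideanSpace ℝ (Fin 2) → ENNReal)).symm
    have h3 : MeasurableSet {z | Function.update B k z ∈ S} := by
      exact (measurable_update B) hS
    show ∫⁻ z, S.indicator (fun _ => (1 : ENNReal)) (Function.update B k z) ∂ν k ≤
      ∫⁻ _z, c ∂ν k
    rw [h2, lintegral_indicator_one h3, lintegral_const, measure_univ, mul_one]
    exact h B
  rw [lintegral_const, measure_univ, mul_one] at h1
  have h4 : ∫⁻ x, S.indicator (fun _ => (1 : ENNReal)) x ∂Measure.pi ν = Measure.pi ν S :=
    lintegral_indicator_one hS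
  rwa [h4] at h1

theorem prob_area {a b r : ℝ} (g : ℝ → ℝ) (hg : Measurable g) :
    volume {z : EuclideanSpace ℝ (Fin 2) | z 0 ∈ Set.Icc a b ∧ |z 1 - g (z 0)| ≤ r} ≤
      ENNReal.ofReal (2 * r) * ENNReal.ofReal (b - a) := by
  have hmp : MeasurePreserving (fun z : EuclideanSpace ℝ (Fin 2) => (z 0, z 1)) :=
    (volume_preserving_finTwoArrow ℝ).comp (PiLp.volume_preserving_ofLp (Fin 2))
  set S : Set (ℝ × ℝ) := {p | p.1 ∈ Set.Icc a b ∧ |p.2 - g p.1| ≤ r} with hSdef
  have hS : MeasurableSet S := by
    refine (measurable_fst measurableSet_Icc).inter ?_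
    exact measurableSet_le ((measurable_snd.sub (hg.comp measurable_fst)).abs) measurable_const
  have h1 : {z : EuclideanSpace ℝ (Fin 2) | z 0 ∈ Set.Icc a b ∧ |z 1 - g (z 0)| ≤ r} =
      (fun z : EuclideanSpace ℝ (Fin 2) => (z 0, z 1)) ⁻¹' S := rfl
  rw [h1, hmp.measure_preimage hS.nullMeasurableSet]
  rw [Measure.volume_eq_prod, Measure.prod_apply hS]
  calc ∫⁻ x, volume (Prod.mk x ⁻¹' S) ≤
      ∫⁻ x, (Set.Icc a b).indicator (fun _ => ENNReal.ofReal (2 * r)) x := by
        refine lintegral_mono fun x => ?_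
        by_cases hx : x ∈ Set.Icc a b
        · rw [Set.indicator_of_mem hx]
          have h2 : Prod.mk x ⁻¹' S ⊆ Metric.closedBall (g x) r := by
            intro y hy
            exact hy.2
          exact (measure_mono h2).trans (Real.volume_closedBall (g x) r).le
        · rw [Set.indicator_of_notMem hx]
          have h2 : Prod.mk x ⁻¹' S = ∅ := by
            rw [Set.eq_empty_iff_forall_notMem]
            intro y hy
            exact hx hy.1
          rw [h2, measure_empty]
    _ = ENNReal.ofReal (2 * r) * ENNReal.ofReal (b - a) := by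
        rw [lintegral_indicator_const measurableSet_Icc, Real.volume_Icc]

theorem prob_le {ν : Measure (EuclideanSpace ℝ (Fin 2))} {K R : ℝ}
    (hν : ∀ s, ν s ≤ ENNReal.ofReal K * volume s) (hsupp : ν (Metric.closedBall 0 R)ᶜ = 0)
    {a b r : ℝ} (g : ℝ → ℝ) (hg : Measurable g) (S : Set (EuclideanSpace ℝ (Fin 2)))
    (h : ∀ z ∈ S, |z 0| ≤ R → |z 1| ≤ R → z 0 ∈ Set.Icc a b ∧ |z 1 - g (z 0)| ≤ r) :
    ν S ≤ ENNReal.ofReal K * (ENNReal.ofReal (2 * r) * ENNReal.ofReal (b - a)) := by
  have h1 : S ⊆ {z : EuclideanSpace ℝ (Fin 2) | z 0 ∈ Set.Icc a b ∧ |z 1 - g (z 0)| ≤ r} ∪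
      (Metric.closedBall 0 R)ᶜ := by
    intro z hz
    by_cases hzR : z ∈ Metric.closedBall (0 : EuclideanSpace ℝ (Fin 2)) R
    · left
      have h2 : ‖z‖ ≤ R := by simpa using hzR
      have h3 : ∀ i, |z i| ≤ R := fun i => (PiLp.norm_apply_le z i).trans h2
      exact h z hz (h3 0) (h3 1)
    · exact Or.inr hzR
  calc ν S ≤ ν {z : EuclideanSpace ℝ (Fin 2) | z 0 ∈ Set.Icc a b ∧ |z 1 - g (z 0)| ≤ r} +
        ν (Metric.closedBall 0 R)ᶜ := (measure_mono h1).trans (measure_union_le _ _)
    _ = ν {z : EuclideanSpace ℝ (Fin 2) | z 0 ∈ Set.Icc a b ∧ |z 1 - g (z 0)| ≤ r} := by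
        rw [hsupp, add_zero]
    _ ≤ ENNReal.ofReal K * volume
        {z : EuclideanSpace ℝ (Fin 2) | z 0 ∈ Set.Icc a b ∧ |z 1 - g (z 0)| ≤ r} := hν _
    _ ≤ _ := mul_le_mul_right (prob_area g hg) _

theorem prob_tri {n : ℕ} (ν : Fin n → Measure (EuclideanSpace ℝ (Fin 2)))
    [∀ j, IsProbabilityMeasure (ν j)] {K R : ℝ} (hK : 0 ≤ K) (hR : 0 ≤ R)
    (hν : ∀ j s, ν j s ≤ ENNReal.ofReal K * volume s)
    (hsupp : ∀ j, ν j (Metric.closedBall 0 R)ᶜ = 0)
    {i j k : Fin n} (hij : i ≠ j) (hjk : j ≠ k) (hik : i ≠ k) {δ : ℝ} (hδ : 0 < δ) :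
    Measure.pi ν {B | |cr (pt (B j) - pt (B i)) (pt (B k) - pt (B i))| < δ} ≤
      ENNReal.ofReal (8 * K * R * √δ) := by
  set ρ : ℝ := √δ with hρ
  have hρ0 : 0 < ρ := Real.sqrt_pos.2 hδ
  have hρ2 : ρ * ρ = δ := Real.mul_self_sqrt hδ.le
  set E1 : Set (Fin n → EuclideanSpace ℝ (Fin 2)) := {B | |B j 0 - B i 0| < ρ} with hE1
  set E2 : Set (Fin n → EuclideanSpace ℝ (Fin 2)) := {B | ρ ≤ |B j 0 - B i 0|} ∩
    {B | |(B j 0 - B i 0) * (B k 1 - B i 1) - (B j 1 - B i 1) * (B k 0 - B i 0)| < δ} with hE2
  have hsub : {B : Fin n → EuclideanSpace ℝ (Fin 2) |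
      |cr (pt (B j) - pt (B i)) (pt (B k) - pt (B i))| < δ} ⊆ E1 ∪ E2 := by
    intro B hB
    by_cases h : |B j 0 - B i 0| < ρ
    · exact Or.inl h
    · exact Or.inr ⟨not_lt.1 h, hB⟩
  have hm1 : MeasurableSet E1 := by
    apply measurableSet_lt _ measurable_const
    fun_prop
  have hm2 : MeasurableSet E2 := by
    refine MeasurableSet.inter (measurableSet_le measurable_const ?_)
      (measurableSet_lt ?_ measurable_const)
    · fun_prop
    · fun_prop
  have hc : ENNReal.ofReal K * (ENNReal.ofReal (2 * R) * ENNReal.ofReal (2 * ρ)) =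
      ENNReal.ofReal (4 * K * R * ρ) := by
    rw [← ENNReal.ofReal_mul (by positivity), ← ENNReal.ofReal_mul hK]
    congr 1
    ring
  have h1 : Measure.pi ν E1 ≤ ENNReal.ofReal (4 * K * R * ρ) := by
    refine prob_update ν hm1 j _ fun B => ?_
    have h2 := prob_le (hν j) (hsupp j) (a := B i 0 - ρ) (b := B i 0 + ρ) (r := R)
      (fun _ => 0) measurable_const {z | Function.update B j z ∈ E1} (by
        intro z hz _ hz1
        have hz' : |z 0 - B i 0| < ρ := by
          have h3 : |Function.update B j z j 0 - Function.update B j z i 0| < ρ := hz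
          rwa [Function.update_self, Function.update_of_ne hij] at h3
        rw [abs_lt] at hz'
        refine ⟨⟨by linarith, by linarith⟩, ?_⟩
        rwa [sub_zero])
    rw [show B i 0 + ρ - (B i 0 - ρ) = 2 * ρ by ring, hc] at h2
    exact h2
  have h2 : Measure.pi ν E2 ≤ ENNReal.ofReal (4 * K * R * ρ) := by
    refine prob_update ν hm2 k _ fun B => ?_
    by_cases hB : ρ ≤ |B j 0 - B i 0|
    · set m : ℝ := (B j 1 - B i 1) / (B j 0 - B i 0) with hm
      have h2 := prob_le (hν k) (hsupp k) (a := -R) (b := R) (r := ρ)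
        (fun x => B i 1 + m * (x - B i 0)) (by fun_prop) {z | Function.update B k z ∈ E2} (by
          intro z hz hz0 _
          rw [abs_le] at hz0
          refine ⟨hz0, ?_⟩
          have h3 : |(Function.update B k z j 0 - Function.update B k z i 0) *
              (Function.update B k z k 1 - Function.update B k z i 1) -
              (Function.update B k z j 1 - Function.update B k z i 1) *
              (Function.update B k z k 0 - Function.update B k z i 0)| < δ := hz.2
          rw [Function.update_self, Function.update_of_ne hik, Function.update_of_ne hjk] at h3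
          have hpos : 0 < |B j 0 - B i 0| := lt_of_lt_of_le hρ0 hB
          have hne : B j 0 - B i 0 ≠ 0 := abs_pos.1 hpos
          have h4 : (B j 0 - B i 0) * (z 1 - B i 1) - (B j 1 - B i 1) * (z 0 - B i 0) =
              (B j 0 - B i 0) * (z 1 - (B i 1 + m * (z 0 - B i 0))) := by
            rw [hm]
            field_simp
            ring
          rw [h4, abs_mul] at h3
          by_contra hcon
          push Not at hcon
          have h5 : ρ * ρ ≤ |B j 0 - B i 0| * |z 1 - (B i 1 + m * (z 0 - B i 0))| :=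
            mul_le_mul hB hcon.le hρ0.le (abs_nonneg _)
          linarith)
      rw [show R - -R = 2 * R by ring, mul_comm (ENNReal.ofReal (2 * ρ)), hc] at h2
      exact h2
    · have h3 : {z | Function.update B k z ∈ E2} = ∅ := by
        rw [Set.eq_empty_iff_forall_notMem]
        intro z hz
        have h4 : ρ ≤ |Function.update B k z j 0 - Function.update B k z i 0| := hz.1
        rw [Function.update_of_ne hik, Function.update_of_ne hjk] at h4
        exact hB h4
      rw [h3, measure_empty]
      exact zero_le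
  calc Measure.pi ν {B | |cr (pt (B j) - pt (B i)) (pt (B k) - pt (B i))| < δ}
      ≤ Measure.pi ν (E1 ∪ E2) := measure_mono hsub
    _ ≤ Measure.pi ν E1 + Measure.pi ν E2 := measure_union_le _ _
    _ ≤ ENNReal.ofReal (4 * K * R * ρ) + ENNReal.ofReal (4 * K * R * ρ) := add_le_add h1 h2
    _ = ENNReal.ofReal (8 * K * R * ρ) := by
        rw [← ENNReal.ofReal_add (by positivity) (by positivity)]
        congr 1
        ring

end Pool.Agent.ROT
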