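import Pool.Agent.ROT.MainA
import Pool.Agent.ROT.Prob

/-!
# ROT-F3: random point sets `B`

Proof.  Let `n ≥ 3` (for `n ≤ 2` there are at most two matchings... use the trivial bound or treat the
set as empty: see below).  Let `δ = (ε / (8 K R n³))²`, `D = 2 R`.  The bad event is contained in the
union over the ordered triples of distinct indices of `{|cr ...| < δ}`, plus the null events
`B j ∉ closedBall 0 R`, because outside of it `area_main` (with `E = ∅`) gives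
`ncard ≤ 1 + 3 (n² m² D²/δ)² = 1 + 3 (256 n⁸ m² (K R²)² / ε²)²`.  The union bound with `prob_tri`
gives `n³ * 8 K R √δ = ε`.  `δ ≤ D²`: `1 = ν j (closedBall) ≤ K * π R²`, so
`ε ≤ 1 ≤ 16 K R² n³`.  (For `n = 0` the index set is empty: `Sopt` has at most one element as `m = 0`.
For `n ≥ 1` the same argument works for all `n`; there are no triples if `n ≤ 2`.)
-/

set_option autoImplicit false

open MeasureTheory

namespace Pool.Agent.ROT

theorem random_main {n : ℕ} (ν : Fin n → Measure (EuclideanSpace ℝ (Fin 2)))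
    [∀ j, IsProbabilityMeasure (ν j)] {K R : ℝ} (hK : 0 ≤ K) (hR : 0 ≤ R)
    (hν : ∀ j s, ν j s ≤ ENNReal.ofReal K * volume s)
    (hsupp : ∀ j, ν j (Metric.closedBall 0 R)ᶜ = 0) {ε : ℝ} (hε : 0 < ε) (hε1 : ε ≤ 1) :
    Measure.pi ν {B | ∃ m : ℕ, m ≤ n ∧ ∃ A : Fin m → EuclideanSpace ℝ (Fin 2),
      1 + 3 * (256 * (n : ℝ) ^ 8 * (m : ℝ) ^ 2 * (K * R ^ 2) ^ 2 / ε ^ 2) ^ 2 <
        ((Sopt A B).ncard : ℝ)} ≤ ENNReal.ofReal ε := by
  classical
  rcases Nat.eq_zero_or_pos n with hn | hn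
  · subst hn
    have : {B : Fin 0 → EuclideanSpace ℝ (Fin 2) | ∃ m : ℕ, m ≤ 0 ∧
        ∃ A : Fin m → EuclideanSpace ℝ (Fin 2),
        1 + 3 * (256 * ((0 : ℕ) : ℝ) ^ 8 * (m : ℝ) ^ 2 * (K * R ^ 2) ^ 2 / ε ^ 2) ^ 2 <
        ((Sopt A B).ncard : ℝ)} = ∅ := by
      ext B
      simp only [Set.mem_ofPred_eq, Set.mem_empty_iff_false, iff_false]
      rintro ⟨m, hm, A, hlt⟩
      obtain rfl : m = 0 := Nat.le_zero.1 hm
      have h1 : (Sopt A B).ncard ≤ 1 := by
        refine (Set.ncard_le_ncard (Set.subset_univ _) (Set.toFinite _)).trans ?_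
        rw [Set.ncard_univ]
        exact Finite.card_le_one_iff_subsingleton.2 inferInstance
      have h2 : ((Sopt A B).ncard : ℝ) ≤ 1 := by exact_mod_cast h1
      have h3 : 0 ≤ 3 * (256 * ((0 : ℕ) : ℝ) ^ 8 * ((0 : ℕ) : ℝ) ^ 2 * (K * R ^ 2) ^ 2 / ε ^ 2) ^ 2 := by
        positivity
      linarith
    rw [this]
    simp
  -- `K R² ≥ 1/16`-type lower bound
  have hn1 : (1 : ℝ) ≤ n := by exact_mod_cast hn
  let j0 : Fin n := ⟨0, hn⟩
  have hvol : (volume (Metric.closedBall (0 : EuclideanSpace ℝ (Fin 2)) R)) =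
      ENNReal.ofReal (R ^ 2 * Real.pi) := by
    rw [EuclideanSpace.volume_closedBall_fin_two]
    rw [← ENNReal.ofReal_pow hR, ENNReal.ofReal_mul (by positivity)]
  have hKR : 1 ≤ K * (R ^ 2 * Real.pi) := by
    have h1 : ν j0 (Metric.closedBall 0 R) = 1 := by
      have := hsupp j0
      rwa [prob_compl_eq_zero_iff Metric.isClosed_closedBall.measurableSet] at this
    have h2 := hν j0 (Metric.closedBall 0 R)
    rw [h1, hvol, ← ENNReal.ofReal_mul hK] at h2
    rw [← ENNReal.ofReal_one] at h2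
    exact (ENNReal.ofReal_le_ofReal_iff (by positivity)).1 h2
  have hpi : Real.pi ≤ 4 := Real.pi_le_four
  have hKR4 : 1 ≤ 4 * (K * R ^ 2) := by
    have : K * (R ^ 2 * Real.pi) ≤ K * (R ^ 2 * 4) := by gcongr
    linarith
  have hKpos : 0 < K := by
    rcases hK.lt_or_eq with h | h
    · exact h
    · rw [← h] at hKR4; simp at hKR4; linarith
  have hRpos : 0 < R := by
    rcases hR.lt_or_eq with h | h
    · exact h
    · rw [← h] at hKR4; simp at hKR4; linarith
  set w : ℝ := 8 * K * R * (n : ℝ) ^ 3 with hw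
  have hwpos : 0 < w := by positivity
  set δ : ℝ := (ε / w) ^ 2 with hδdef
  have hδ : 0 < δ := by positivity
  have hsqrt : √δ = ε / w := Real.sqrt_sq (by positivity)
  set D : ℝ := 2 * R with hD
  have hn3 : (1 : ℝ) ≤ (n : ℝ) ^ 3 := one_le_pow₀ hn1
  have hδD : δ ≤ D ^ 2 := by
    rw [hδdef]
    refine pow_le_pow_left₀ (by positivity) ?_ 2
    rw [div_le_iff₀ hwpos, hD, hw]
    have : 4 * (K * R ^ 2) * 1 ≤ 4 * (K * R ^ 2) * (n : ℝ) ^ 3 := by gcongr
    nlinarith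
  have hratio : (n : ℝ) ^ 2 * (D ^ 2 / δ) = 256 * (n : ℝ) ^ 8 * (K * R ^ 2) ^ 2 / ε ^ 2 := by
    rw [hδdef, hD, hw]
    field_simp
    ring
  -- the bad event
  let T : Finset (Fin n × Fin n × Fin n) := Finset.univ.filter fun p =>
    p.1 ≠ p.2.1 ∧ p.2.1 ≠ p.2.2 ∧ p.1 ≠ p.2.2
  let Z : Set (Fin n → EuclideanSpace ℝ (Fin 2)) := ⋃ j : Fin n, {B | B j ∉ Metric.closedBall 0 R}
  let Y : Set (Fin n → EuclideanSpace ℝ (Fin 2)) := ⋃ p ∈ T,
    {B | |cr (pt (B p.2.1) - pt (B p.1)) (pt (B p.2.2) - pt (B p.1))| < δ}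
  have hZ : Measure.pi ν Z = 0 := by
    refine measure_iUnion_null fun j => ?_
    have h1 : {B : Fin n → EuclideanSpace ℝ (Fin 2) | B j ∉ Metric.closedBall 0 R} =
        (fun B => B j) ⁻¹' (Metric.closedBall 0 R)ᶜ := rfl
    rw [h1]
    have h2 := (measurePreserving_eval ν j).measure_preimage
      (s := (Metric.closedBall (0 : EuclideanSpace ℝ (Fin 2)) R)ᶜ)
      (Metric.isClosed_closedBall.measurableSet.compl.nullMeasurableSet)
    exact h2.trans (hsupp j)
  have hY : Measure.pi ν Y ≤ ENNReal.ofReal ε := by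
    have h1 : Measure.pi ν Y ≤ ∑ p ∈ T, ENNReal.ofReal (8 * K * R * √δ) := by
      refine (measure_biUnion_finset_le T _).trans (Finset.sum_le_sum fun p hp => ?_)
      obtain ⟨-, h12, h23, h13⟩ := Finset.mem_filter.1 hp
      exact prob_tri ν hK hR hν hsupp h12 h23 h13 hδ
    refine h1.trans ?_
    rw [Finset.sum_const, nsmul_eq_mul]
    have hT : (T.card : ℝ) ≤ (n : ℝ) ^ 3 := by
      have : T.card ≤ n ^ 3 := by
        refine (Finset.card_le_univ T).trans ?_
        simp only [Fintype.card_prod, Fintype.card_fin]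
        exact le_of_eq (by ring)
      exact_mod_cast this
    have h2 : ((T.card : ℕ) : ENNReal) = ENNReal.ofReal (T.card : ℝ) := by
      rw [ENNReal.ofReal_natCast]
    rw [h2, ← ENNReal.ofReal_mul (by positivity)]
    refine ENNReal.ofReal_le_ofReal ?_
    rw [hsqrt]
    calc (T.card : ℝ) * (8 * K * R * (ε / w)) ≤ (n : ℝ) ^ 3 * (8 * K * R * (ε / w)) := by
          gcongr
      _ = ε := by rw [hw]; field_simp
  refine (measure_mono (t := Z ∪ Y) ?_).trans ((measure_union_le _ _).trans ?_)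
  · rintro B ⟨m, hm, A, hlt⟩
    by_contra hB
    rw [Set.mem_union, not_or] at hB
    obtain ⟨hBZ, hBY⟩ := hB
    have hin : ∀ j, ‖B j‖ ≤ R := by
      intro j
      by_contra hj
      exact hBZ (Set.mem_iUnion.2 ⟨j, by simpa using hj⟩)
    have hd : ∀ i j, dist (B i) (B j) ≤ D := by
      intro i j
      rw [dist_eq_norm]
      calc ‖B i - B j‖ ≤ ‖B i‖ + ‖B j‖ := norm_sub_le _ _
        _ ≤ D := by rw [hD]; linarith [hin i, hin j]
    have htri : ∀ i j k : Fin n, i ≠ j → j ≠ k → i ≠ k →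
        δ ≤ |cr (pt (B j) - pt (B i)) (pt (B k) - pt (B i))| := by
      intro i j k hij hjk hik
      by_contra hcon
      rw [not_le] at hcon
      refine hBY (Set.mem_iUnion₂.2 ⟨(i, j, k), ?_, hcon⟩)
      exact Finset.mem_filter.2 ⟨Finset.mem_univ _, hij, hjk, hik⟩
    have hmain := area_main hm A B ∅ hδ hδD (fun i _ j _ => hd i j)
      (fun i _ j _ k _ h1 h2 h3 => htri i j k h1 h2 h3)
    rw [Finset.card_empty, pow_zero, one_mul] at hmain
    have heq : (n : ℝ) ^ 2 * (m : ℝ) ^ 2 * (D ^ 2 / δ) =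
        256 * (n : ℝ) ^ 8 * (m : ℝ) ^ 2 * (K * R ^ 2) ^ 2 / ε ^ 2 := by
      calc (n : ℝ) ^ 2 * (m : ℝ) ^ 2 * (D ^ 2 / δ) =
          (m : ℝ) ^ 2 * ((n : ℝ) ^ 2 * (D ^ 2 / δ)) := by ring
        _ = _ := by rw [hratio]; ring
    rw [heq] at hmain
    exact absurd hlt (not_lt.2 hmain)
  · rw [hZ, zero_add]
    exact hY

end Pool.Agent.ROT
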