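import Pool.Agent.ROT.Base

/-!
# ROT-3: what happens near `t`

* `near`: for small `ε > 0` the sets optimal at `t + ε w` are the sets optimal at `t` that
  minimise `dt w (bs S)` among the sets optimal at `t`.
  Proof.  If no set has `M` elements both sides are false.  Otherwise `opts t` is nonempty.
  For a set `R` of size `M` that is not optimal at `t` and an optimal `S` one has
  `h S t < h R t`; there are finitely many pairs, so there is `ε0 > 0` with
  `h S t + ε dt w (bs S) < h R t + ε dt w (bs R)` for all such pairs and `0 < ε ≤ ε0`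
  (e.g. `ε0 = g / (2 K + 1)` with `g` the least gap and `K` a bound of all `|dt w (bs S)|`; or use
  filters: each strict inequality holds for all `ε` in a neighbourhood of `0`, and a finite
  intersection of neighbourhoods is a neighbourhood: `Filter.eventually_all`).
  (→) if `S` is optimal at `t + ε w`, it is optimal at `t` (otherwise an optimal set at `t` beats
  it), and for `R` optimal at `t`: `h S t + ε dt w (bs S) ≤ h R t + ε dt w (bs R)`, `h S t = h R t`.
  (←) for `R` optimal at `t` compare the two terms; for `R` not optimal at `t` use `ε ≤ ε0`.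
* `isStart_iff`: (→) with `w = dir S R`: both are optimal at `t + ε w` for some `ε > 0`, so for
  `Q` optimal at `t`: `h S t + ε dt w (bs S) ≤ h Q t + ε dt w (bs Q)` and `h S t = h Q t`, hence
  `0 ≤ dt w (bs Q - bs S) = cr (bs R - bs S) (bs Q - bs S)` (`dt_dir`).  If there is no `Q` with a
  positive value, all values are `0` and `near` with the direction `-w` shows that `S`, `R` are
  optimal at `t - ε w` for small `ε`, a contradiction.
  (←) `near` with `w` gives both optimal at `t + ε w` for small `ε`; and both optimal at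
  `t - ε w` would give `dt w (bs Q - bs S) ≤ 0` for every `Q` optimal at `t`.
* `three_of_start`: `Q` of `isStart_iff` is different from `S` and `R` (their cross product
  is 0), so `S, R, Q` are three elements of `opts t`.
* `wall_of_le`: `near` gives a second point `t + ε w`, different from `t` because
  `w = rot (bs R - bs S) ≠ 0`.
* `wall_of_start`: from the definition (`t ≠ t + ε w`: otherwise `w = 0`, hence `t - ε w = t`,
  which contradicts the last part of `IsStart`).
-/

set_option autoImplicit false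

namespace Pool.Agent.ROT.Sys

variable {N : ℕ} {s : Sys N}

theorem near (s : Sys N) (t w : ℝ × ℝ) : ∃ ε0 : ℝ, 0 < ε0 ∧ ∀ ε : ℝ, 0 < ε → ε ≤ ε0 →
    ∀ S, s.Opt (t + ε • w) S ↔
      s.Opt t S ∧ ∀ R, s.Opt t R → dt w (s.bs S) ≤ dt w (s.bs R) := by
  have h1 : ∀ᶠ ε : ℝ in nhds 0, ∀ S R : Finset (Fin N), s.h S t < s.h R t →
      s.h S t + ε * dt w (s.bs S) < s.h R t + ε * dt w (s.bs R) := by
    rw [Filter.eventually_all]
    intro S
    rw [Filter.eventually_all]
    intro R
    by_cases h : s.h S t < s.h R t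
    · have h2 : Filter.Tendsto (fun ε : ℝ => s.h S t + ε * dt w (s.bs S)) (nhds 0)
          (nhds (s.h S t)) := by
        have : Continuous (fun ε : ℝ => s.h S t + ε * dt w (s.bs S)) := by fun_prop
        have h3 := this.tendsto 0
        simpa using h3
      have h3 : Filter.Tendsto (fun ε : ℝ => s.h R t + ε * dt w (s.bs R)) (nhds 0)
          (nhds (s.h R t)) := by
        have : Continuous (fun ε : ℝ => s.h R t + ε * dt w (s.bs R)) := by fun_prop
        have h3 := this.tendsto 0
        simpa using h3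
      filter_upwards [h2.eventually_lt h3 h] with ε hε _
      exact hε
    · exact Filter.Eventually.of_forall fun ε h' => absurd h' h
  obtain ⟨δ, hδ, h2⟩ := Metric.eventually_nhds_iff.1 h1
  refine ⟨δ / 2, by positivity, fun ε hε hε2 S => ?_⟩
  have key := h2 (y := ε) (by
    rw [Real.dist_eq, sub_zero, abs_of_pos hε]
    linarith)
  constructor
  · intro hS
    have hO : s.Opt t S := by
      refine ⟨hS.1, fun R hR => ?_⟩
      by_contra hc
      have h3 := key R S (not_le.1 hc)
      have h4 := hS.2 R hR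
      rw [s.h_add_smul, s.h_add_smul] at h4
      linarith
    refine ⟨hO, fun R hR => ?_⟩
    have h4 := hS.2 R hR.1
    rw [s.h_add_smul, s.h_add_smul, hO.eq hR] at h4
    have h5 : ε * dt w (s.bs S) ≤ ε * dt w (s.bs R) := by linarith
    exact le_of_mul_le_mul_left h5 hε
  · rintro ⟨hO, h⟩
    refine ⟨hO.1, fun R hR => ?_⟩
    rw [s.h_add_smul, s.h_add_smul]
    by_cases h3 : s.h S t < s.h R t
    · exact (key S R h3).le
    · have h4 := hO.of_le hR (not_lt.1 h3)
      have h5 := mul_le_mul_of_nonneg_left (h R h4) hε.le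
      have h6 := hO.eq h4
      linarith

theorem isStart_iff {t : ℝ × ℝ} {S R : Finset (Fin N)} (hS : s.Opt t S) (hR : s.Opt t R)
    (hne : S ≠ R) : s.IsStart S R t ↔
      (∀ Q, s.Opt t Q → 0 ≤ cr (s.bs R - s.bs S) (s.bs Q - s.bs S)) ∧
        ∃ Q, s.Opt t Q ∧ 0 < cr (s.bs R - s.bs S) (s.bs Q - s.bs S) := by
  have hd : ∀ Q, cr (s.bs R - s.bs S) (s.bs Q - s.bs S) =
      dt (s.dir S R) (s.bs Q) - dt (s.dir S R) (s.bs S) := by
    intro Q
    rw [← s.dt_dir, dt_sub_right]
  have hRS : dt (s.dir S R) (s.bs R) = dt (s.dir S R) (s.bs S) := by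
    have := s.dt_dir_self S R
    rw [dt_sub_right] at this
    linarith
  constructor
  · rintro ⟨-, -, ⟨ε, hε, hB⟩, hlast⟩
    have h1 : ∀ Q, s.Opt t Q → 0 ≤ cr (s.bs R - s.bs S) (s.bs Q - s.bs S) := by
      intro Q hQ
      have h4 := hB.1.2 Q hQ.1
      rw [s.h_add_smul, s.h_add_smul, hS.eq hQ] at h4
      have h5 : ε * dt (s.dir S R) (s.bs S) ≤ ε * dt (s.dir S R) (s.bs Q) := by linarith
      have h6 := le_of_mul_le_mul_left h5 hε
      rw [hd]
      linarith
    refine ⟨h1, ?_⟩
    by_contra hc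
    push Not at hc
    have h2 : ∀ Q, s.Opt t Q → dt (s.dir S R) (s.bs Q) = dt (s.dir S R) (s.bs S) := by
      intro Q hQ
      have h3 := h1 Q hQ
      have h4 := hc Q hQ
      rw [hd] at h3 h4
      linarith
    obtain ⟨ε0, hε0, h3⟩ := near s t (-(s.dir S R))
    have hneg : ∀ Q, dt (-(s.dir S R)) (s.bs Q) = - dt (s.dir S R) (s.bs Q) := by
      intro Q
      simp only [dt, Prod.fst_neg, Prod.snd_neg]
      ring
    have h5 : t + ε0 • (-(s.dir S R)) = t - ε0 • s.dir S R := by
      rw [smul_neg, sub_eq_add_neg]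
    refine hlast ε0 hε0 ⟨?_, ?_⟩
    · rw [← h5, h3 ε0 hε0 le_rfl]
      refine ⟨hS, fun Q hQ => ?_⟩
      rw [hneg, hneg, h2 Q hQ]
    · rw [← h5, h3 ε0 hε0 le_rfl]
      refine ⟨hR, fun Q hQ => ?_⟩
      rw [hneg, hneg, h2 Q hQ, hRS]
  · rintro ⟨h1, Q, hQ, h2⟩
    refine ⟨hne, ⟨hS, hR⟩, ?_, ?_⟩
    · obtain ⟨ε0, hε0, h3⟩ := near s t (s.dir S R)
      refine ⟨ε0, hε0, ?_, ?_⟩
      · rw [h3 ε0 hε0 le_rfl]
        refine ⟨hS, fun Q hQ => ?_⟩
        have := h1 Q hQ
        rw [hd] at this
        linarith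
      · rw [h3 ε0 hε0 le_rfl]
        refine ⟨hR, fun Q hQ => ?_⟩
        have := h1 Q hQ
        rw [hd] at this
        linarith
    · intro ε hε hB
      have h4 := hB.1.2 Q hQ.1
      rw [s.h_sub_smul, s.h_sub_smul, hS.eq hQ] at h4
      have h5 : ε * dt (s.dir S R) (s.bs Q) ≤ ε * dt (s.dir S R) (s.bs S) := by linarith
      have h6 := le_of_mul_le_mul_left h5 hε
      rw [hd] at h2
      linarith

theorem three_of_start {t : ℝ × ℝ} {S R : Finset (Fin N)} (h : s.IsStart S R t) :
    3 ≤ (s.opts t).card := by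
  have hne := h.1
  have hS := h.2.1.1
  have hR := h.2.1.2
  obtain ⟨_, Q, hQ, h2⟩ := (isStart_iff hS hR hne).1 h
  have hQS : Q ≠ S := by
    rintro rfl
    rw [sub_self] at h2
    simp [cr] at h2
  have hQR : Q ≠ R := by
    rintro rfl
    rw [cr_self] at h2
    exact lt_irrefl _ h2
  have hsub : {S, R, Q} ⊆ s.opts t := by
    intro T hT
    rw [Finset.mem_insert, Finset.mem_insert, Finset.mem_singleton] at hT
    rw [s.mem_opts]
    rcases hT with rfl | rfl | rfl
    · exact hS
    · exact hR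
    · exact hQ
  have hcard : ({S, R, Q} : Finset (Finset (Fin N))).card = 3 :=
    Finset.card_eq_three.2 ⟨S, R, Q, hne, hQS.symm, hQR.symm, rfl⟩
  rw [← hcard]
  exact Finset.card_le_card hsub

lemma near_dir_ne {S R : Finset (Fin N)} (hb : s.bs S ≠ s.bs R) : s.dir S R ≠ 0 := by
  intro h0
  apply hb
  have h1 := congrArg Prod.fst h0
  have h2 := congrArg Prod.snd h0
  simp only [dir, rot, Prod.fst_sub, Prod.snd_sub, Prod.fst_zero, Prod.snd_zero] at h1 h2
  ext
  · linarith
  · linarith

theorem wall_of_le {t : ℝ × ℝ} {S R : Finset (Fin N)} (hS : s.Opt t S) (hR : s.Opt t R)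
    (hb : s.bs S ≠ s.bs R)
    (h : ∀ Q, s.Opt t Q → 0 ≤ cr (s.bs R - s.bs S) (s.bs Q - s.bs S)) : s.Wall S R := by
  have hd : ∀ Q, cr (s.bs R - s.bs S) (s.bs Q - s.bs S) =
      dt (s.dir S R) (s.bs Q) - dt (s.dir S R) (s.bs S) := by
    intro Q
    rw [← s.dt_dir, dt_sub_right]
  have hRS : dt (s.dir S R) (s.bs R) = dt (s.dir S R) (s.bs S) := by
    have := s.dt_dir_self S R
    rw [dt_sub_right] at this
    linarith
  obtain ⟨ε0, hε0, h3⟩ := near s t (s.dir S R)
  refine ⟨fun h => hb (by rw [h]), t, t + ε0 • s.dir S R, ?_, ⟨hS, hR⟩, ?_, ?_⟩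
  · intro h4
    have h5 : ε0 • s.dir S R = 0 := by
      have := h4.symm
      rwa [add_eq_left] at this
    rcases smul_eq_zero.1 h5 with h6 | h6
    · exact hε0.ne' h6
    · exact near_dir_ne hb h6
  · rw [h3 ε0 hε0 le_rfl]
    refine ⟨hS, fun Q hQ => ?_⟩
    have := h Q hQ
    rw [hd] at this
    linarith
  · rw [h3 ε0 hε0 le_rfl]
    refine ⟨hR, fun Q hQ => ?_⟩
    have := h Q hQ
    rw [hd] at this
    linarith

theorem wall_of_start {t : ℝ × ℝ} {S R : Finset (Fin N)} (h : s.IsStart S R t) :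
    s.Wall S R := by
  obtain ⟨hne, hB, ⟨ε, hε, hB2⟩, hlast⟩ := h
  refine ⟨hne, t, t + ε • s.dir S R, ?_, hB, hB2⟩
  intro h4
  have h5 : ε • s.dir S R = 0 := by
    have := h4.symm
    rwa [add_eq_left] at this
  refine hlast ε hε ?_
  rw [h5, sub_zero]
  exact hB

end Pool.Agent.ROT.Sys
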