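import Pool.Agent.ROT.Conv
import Pool.Agent.ROT.Pert

/-!
# ROT-20: points in convex position can be listed counterclockwise

Write `[x,y,z] = cr (q y - q x) (q z - q x)` with `q = pt ∘ B` (alternating in `x,y,z`).

0. `q` is convex independent in `ℝ × ℝ`: `pt` is an injective linear map `L` (make it a
   `LinearMap`), and `L '' convexHull X = convexHull (L '' X)` (`LinearMap.image_convexHull`), so
   `L (B x) ∈ convexHull (L ∘ B '' S)` gives `B x ∈ convexHull (B '' S)` and `x ∈ S`.
   In particular: no `q x` is in the segment or in the triangle spanned by other points; `q` is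
   injective.
1. If `ι` is empty the claim is trivial.  Let `o` be the index whose point is lexicographically
   smallest: for all `x ≠ o`: `(q o).1 < (q x).1` or (`(q o).1 = (q x).1` and `(q o).2 < (q x).2`).
   Let `H` be the set of vectors `u` with `0 < u.1 ∨ (u.1 = 0 ∧ 0 < u.2)`, so
   `u_x := q x - q o ∈ H` for `x ≠ o`.
2. For `x ≠ y`, both `≠ o`: `[o,x,y] ≠ 0`: if `cr u_x u_y = 0` with `u_x, u_y ∈ H`, then
   `u_y = c u_x` with `c > 0`; if `c ≤ 1` then `q y` is on the segment from `q o` to `q x`, if
   `c ≥ 1` then `q x` is on the segment from `q o` to `q y`; contradiction.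
3. Transitivity: `u, v, w ∈ H`, `cr u v > 0`, `cr v w > 0` imply `cr u w > 0` (identity
   `v.1 * cr u w = u.1 * cr v w + w.1 * cr u v`, with the analogous identity for the second
   coordinates in the boundary cases).
4. So `x < y :⟺ x = o ≠ y ∨ (x ≠ o ∧ y ≠ o ∧ 0 < [o,x,y])` is a strict total order on `ι`; list
   `ι` in this order (e.g. make a `LinearOrder` on `ι`, or use `List.insertionSort`/
   `Finset.orderIsoOfFin`/`Fintype.orderIsoFinOfCardEq`, or induction on the cardinality).
5. `CCW`: let `x < y < z` in this order.  If `x = o` this is the definition.  Otherwise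
   `a = [o,x,y] > 0`, `b = [o,y,z] > 0`, `c = [o,x,z] > 0`, and
   `[x,y,z] = a + b - c`.  Barycentric identity: `c • q y = (c - a - b) • q o + b • q x + a • q z`
   (check in coordinates).  If `[x,y,z] ≤ 0` then `c - a - b ≥ 0`, so `q y` is a convex combination
   of `q o, q x, q z`, contradiction to convex independence.  So `[x,y,z] > 0`.
-/

set_option autoImplicit false

namespace Pool.Agent.ROT

lemma Ord_ci {ι : Type} (B : ι → EuclideanSpace ℝ (Fin 2)) (hB : ConvexIndependent ℝ B)
    {o x y z : ι} {α β γ : ℝ} (hα : 0 ≤ α) (hβ : 0 ≤ β) (hγ : 0 ≤ γ) (hs : α + β + γ = 1)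
    (h : pt (B y) = α • pt (B o) + β • pt (B x) + γ • pt (B z)) : y = o ∨ y = x ∨ y = z := by
  have h0 : B y = α • B o + β • B x + γ • B z := by
    have h1 := congrArg Prod.fst h
    have h2 := congrArg Prod.snd h
    simp [pt] at h1 h2
    ext i
    fin_cases i
    · simpa using h1
    · simpa using h2
  have hmem : B y ∈ convexHull ℝ (B '' {o, x, z}) := by
    have hsub : B '' {o, x, z} ⊆ convexHull ℝ (B '' {o, x, z}) := subset_convexHull ℝ _
    have := (convex_convexHull ℝ (B '' {o, x, z})).sum_mem (t := (Finset.univ : Finset (Fin 3)))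
      (w := ![α, β, γ]) (z := ![B o, B x, B z]) ?_ ?_ ?_
    · rw [h0]
      simpa [Fin.sum_univ_three] using this
    · intro i _
      fin_cases i
      · exact hα
      · exact hβ
      · exact hγ
    · simpa [Fin.sum_univ_three] using hs
    · intro i _
      fin_cases i
      · exact hsub ⟨o, by simp, rfl⟩
      · exact hsub ⟨x, by simp, rfl⟩
      · exact hsub ⟨z, by simp, rfl⟩
  have := hB {o, x, z} y hmem
  simpa using this

/-- the half plane -/
def OrdH (u : ℝ × ℝ) : Prop := 0 < u.1 ∨ (u.1 = 0 ∧ 0 < u.2)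

lemma Ord_par {u v : ℝ × ℝ} (hu : OrdH u) (hv : OrdH v) (h : cr u v = 0) :
    ∃ c : ℝ, 0 < c ∧ v = c • u := by
  simp only [cr] at h
  rcases hu with hu | ⟨hu1, hu2⟩
  · rcases hv with hv | ⟨hv1, hv2⟩
    · refine ⟨v.1 / u.1, div_pos hv hu, ?_⟩
      ext
      · simp only [Prod.smul_fst, smul_eq_mul]; field_simp
      · simp only [Prod.smul_snd, smul_eq_mul]
        field_simp
        linarith
    · rw [hv1] at h
      have : u.1 * v.2 = 0 := by linarith
      rcases mul_eq_zero.1 this with h' | h' <;> linarith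
  · rw [hu1] at h
    have h3 : u.2 * v.1 = 0 := by linarith
    have h4 : v.1 = 0 := by
      rcases mul_eq_zero.1 h3 with h' | h'
      · linarith
      · exact h'
    rcases hv with hv | ⟨hv1, hv2⟩
    · linarith
    · refine ⟨v.2 / u.2, div_pos hv2 hu2, ?_⟩
      ext
      · simp [h4, hu1]
      · simp only [Prod.smul_snd, smul_eq_mul]; field_simp

lemma Ord_trans {u v w : ℝ × ℝ} (hu : OrdH u) (hv : OrdH v) (hw : OrdH w)
    (h1 : 0 < cr u v) (h2 : 0 < cr v w) : 0 < cr u w := by
  have e1 : v.1 * cr u w = u.1 * cr v w + w.1 * cr u v := by simp [cr]; ring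
  have e2 : v.2 * cr u w = u.2 * cr v w + w.2 * cr u v := by simp [cr]; ring
  have nn : ∀ {x : ℝ × ℝ}, OrdH x → 0 ≤ x.1 := by
    rintro x (h | ⟨h, -⟩)
    · exact h.le
    · exact h.ge
  rcases hv with hv | ⟨hv1, hv2⟩
  · -- v.1 > 0
    have hpos : 0 < u.1 * cr v w + w.1 * cr u v := by
      rcases hu with hu | ⟨hu1, hu2⟩
      · have := mul_pos hu h2
        have := mul_nonneg (nn hw) h1.le
        linarith
      · -- u.1 = 0, u.2 > 0: cr u v = - u.2 v.1 < 0
        exfalso
        simp only [cr, hu1] at h1
        nlinarith [mul_pos hu2 hv]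
    rw [← e1] at hpos
    exact pos_of_mul_pos_right hpos hv.le
  · -- v.1 = 0: then w.1 > 0 impossible
    exfalso
    simp only [cr, hv1] at h2
    have := mul_nonneg hv2.le (nn hw)
    linarith

theorem ccw_enum {ι : Type} [Fintype ι] (B : ι → EuclideanSpace ℝ (Fin 2))
    (hB : ConvexIndependent ℝ B) :
    ∃ e : Fin (Fintype.card ι) ≃ ι, CCW (fun i => pt (B (e i))) := by
  classical
  rcases isEmpty_or_nonempty ι with hι | hι
  · refine ⟨(Fintype.equivFin ι).symm, ?_⟩
    intro i
    exact (hι.false ((Fintype.equivFin ι).symm i)).elim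
  obtain ⟨o, -, ho⟩ := Finset.exists_min_image (Finset.univ : Finset ι)
    (fun x => toLex (pt (B x))) Finset.univ_nonempty
  have hinj : ∀ x y, pt (B x) = pt (B y) → x = y := by
    intro x y hxy
    have := Ord_ci B hB (o := y) (x := y) (y := x) (z := y) (α := 1) (β := 0) (γ := 0)
      zero_le_one le_rfl le_rfl (by norm_num) (by simp [hxy])
    tauto
  have hH : ∀ x, x ≠ o → OrdH (pt (B x) - pt (B o)) := by
    intro x hx
    have h1 : toLex (pt (B o)) ≤ toLex (pt (B x)) := ho x (Finset.mem_univ _)
    have h2 : toLex (pt (B o)) < toLex (pt (B x)) := by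
      refine lt_of_le_of_ne h1 fun h => hx ?_
      exact (hinj o x (toLex.injective h)).symm
    rcases Prod.Lex.lt_iff.1 h2 with h | ⟨h, h'⟩
    · left
      simpa using h
    · right
      constructor
      · simp at h ⊢; linarith
      · simpa using h'
  let br : ι → ι → ℝ := fun x y => cr (pt (B x) - pt (B o)) (pt (B y) - pt (B o))
  have hbr : ∀ x y, br x y = - br y x := fun x y => cr_neg_comm _ _
  have hne : ∀ x y, x ≠ o → y ≠ o → x ≠ y → br x y ≠ 0 := by
    intro x y hx hy hxy h0
    obtain ⟨c, hc, hcv⟩ := Ord_par (hH x hx) (hH y hy) h0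
    have hy' : pt (B y) = (1 - c) • pt (B o) + c • pt (B x) := by
      have : pt (B y) = (pt (B y) - pt (B o)) + pt (B o) := by abel
      rw [this, hcv]
      module
    rcases le_total c 1 with h | h
    · have := Ord_ci B hB (o := o) (x := x) (y := y) (z := o) (α := 1 - c) (β := c) (γ := 0)
        (by linarith) hc.le le_rfl (by ring) (by rw [hy']; simp)
      rcases this with h' | h' | h'
      · exact hy h'
      · exact hxy h'.symm
      · exact hy h'
    · have hcc : 0 < 1 / c := by positivity
      have hx' : pt (B x) = (1 - 1 / c) • pt (B o) + (1 / c) • pt (B y) := by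
        rw [hy', smul_add, smul_smul, smul_smul, one_div_mul_cancel hc.ne', one_smul,
          ← add_assoc, ← add_smul]
        have : 1 - 1 / c + 1 / c * (1 - c) = 0 := by field_simp; ring
        rw [this, zero_smul, zero_add]
      have h1c : 1 / c ≤ 1 := by
        rw [div_le_one hc]; exact h
      have := Ord_ci B hB (o := o) (x := y) (y := x) (z := o) (α := 1 - 1 / c) (β := 1 / c)
        (γ := 0) (by linarith) hcc.le le_rfl (by ring) (by rw [hx']; simp)
      rcases this with h' | h' | h'
      · exact hx h'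
      · exact hxy h'
      · exact hx h'
  let r : ι → ι → Prop := fun x y => (x = o ∧ y ≠ o) ∨ (x ≠ o ∧ y ≠ o ∧ 0 < br x y)
  haveI : IsStrictTotalOrder ι r :=
    { trichotomous := by
        intro x y hxy hyx
        by_contra hne'
        simp only [r, not_or, not_and] at hxy hyx
        by_cases hx : x = o
        · exact hxy.1 hx (fun hy => hne' (hx.trans hy.symm))
        · by_cases hy : y = o
          · exact hyx.1 hy hx
          · have h1 := hxy.2 hx hy
            have h2 := hyx.2 hy hx
            rw [hbr y x] at h2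
            have : br x y = 0 := by linarith
            exact hne x y hx hy hne' this
      irrefl := by
        rintro x (⟨h1, h2⟩ | ⟨h1, h2, h3⟩)
        · exact h2 h1
        · have := hbr x x
          linarith
      trans := by
        rintro x y z (⟨h1, h2⟩ | ⟨h1, h2, h3⟩) (⟨g1, g2⟩ | ⟨g1, g2, g3⟩)
        · exact absurd g1 h2
        · exact Or.inl ⟨h1, g2⟩
        · exact absurd g1 h2
        · exact Or.inr ⟨h1, g2, Ord_trans (hH x h1) (hH y h2) (hH z g2) h3 g3⟩ }
  letI : LinearOrder ι := linearOrderOfSTO r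
  have hlt : ∀ x y : ι, x < y → r x y := fun x y h => h
  let e := Fintype.orderIsoFinOfCardEq ι rfl
  refine ⟨e.toEquiv, ?_⟩
  intro i j k hij hjk
  have h1 : r (e i) (e j) := hlt _ _ (e.lt_iff_lt.2 hij)
  have h2 : r (e j) (e k) := hlt _ _ (e.lt_iff_lt.2 hjk)
  show 0 < cr (pt (B (e j)) - pt (B (e i))) (pt (B (e k)) - pt (B (e i)))
  generalize e i = x at h1 ⊢
  generalize e j = y at h1 h2 ⊢
  generalize e k = z at h2 ⊢
  have hyo : y ≠ o := by
    rcases h1 with ⟨-, h⟩ | ⟨-, h, -⟩ <;> exact h
  rcases h2 with ⟨h, -⟩ | ⟨-, hzo, hyz⟩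
  · exact absurd h hyo
  rcases h1 with ⟨hx, -⟩ | ⟨hxo, -, hxy⟩
  · rw [hx]; exact hyz
  · by_contra hcon
    have hxz : 0 < br x z := Ord_trans (hH x hxo) (hH y hyo) (hH z hzo) hxy hyz
    have hb : cr (pt (B y) - pt (B x)) (pt (B z) - pt (B x)) = br x y + br y z - br x z := by
      simp only [br, cr, Prod.fst_sub, Prod.snd_sub]; ring
    rw [hb] at hcon
    push Not at hcon
    have hid : pt (B y) = ((br x z - br x y - br y z) / br x z) • pt (B o) +
        (br y z / br x z) • pt (B x) + (br x y / br x z) • pt (B z) := by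
      have h0 : br x z ≠ 0 := hxz.ne'
      ext
      · simp only [Prod.fst_add, Prod.smul_fst, smul_eq_mul]
        field_simp
        simp only [br, cr, Prod.fst_sub, Prod.snd_sub]
        ring
      · simp only [Prod.snd_add, Prod.smul_snd, smul_eq_mul]
        field_simp
        simp only [br, cr, Prod.fst_sub, Prod.snd_sub]
        ring
    have := Ord_ci B hB (div_nonneg (by linarith) hxz.le) (div_nonneg hyz.le hxz.le)
      (div_nonneg hxy.le hxz.le) (by field_simp; ring) hid
    rcases this with h | h | h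
    · exact hyo h
    · rw [h] at hxy
      have := hbr x x
      linarith
    · rw [h] at hyz
      have := hbr z z
      linarith

end Pool.Agent.ROT
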