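import Pool.Agent.ROT.Gen

/-!
# ROT-18: the system of a matching problem with a fixed part `J` of the image

`e : Fin N ↪ Fin n` enumerates the points that are free, `J` is the set of the other points in the
image.  A set `S` of `Fin N` of size `m - card J` stands for the image `J ∪ e(S)`.

`sysOf_good`.  Let `T S = J ∪ S.map e`; `J` and `S.map e` are disjoint (`hJ`), so
`card (T S) = m` iff `card S = m - card J` (`hJm`), `T` is injective on sets, and
`T (S - i + j) = T S - e i + e j`.
 - `exch`: apply `fm_exch` to `T S`, `T R`, `x = e i ∈ T S \ T R`; the element `y` lies in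
   `T R \ T S = (R \ S).map e`, so `y = e j` with `j ∈ R \ S`.
 - `gen`: let `t`, `μ` be as in `Good.gen`.  For every `S` with `card S = m - card J` choose by
   `fm_eq` a matching `g S` with `im (g S) = T S` and `fm c (T S) = cst c (g S)`; `g` is injective
   on these sets (since `T` is).  All `S` with `μ S ≠ 0` are optimal at `t`, so they have
   the right size and the same value of `h`: `fm c (T S) + dt t (bs S)`; and
   `bm b (g S) = ∑_{x ∈ T S} b x = ∑_{x ∈ J} b x + bs S` (a matching is injective, so the sum over
   `i` is the sum over the image: `Finset.sum_map`).  Let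
   `ν π = ∑_{S : μ S ≠ 0, g S = π} μ S`.  If `ν π ≠ 0` then `π = g S` for some `S` with
   `μ S ≠ 0`; so the support of `ν` is tied at `t`.  `∑ ν = ∑ μ = 0`,
   `∑ ν π • bm b π = ∑ μ S • bm b (g S) = (∑ μ S) • (...) + ∑ μ S • bs S = 0`.  By `hc`:
   `∑_{S : g S i = y} μ S = 0` for all `i`, `y`; sum over `i` with `y = e l`:
   `∑_{S : e l ∈ T S} μ S = 0`, and `e l ∈ T S ↔ l ∈ S`.
-/

set_option autoImplicit false

namespace Pool.Agent.ROT

variable {m n N : ℕ}

/-- The system of the matchings whose image consists of `J` and of points `e l`. -/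
noncomputable def sysOf (c : Fin m → Fin n → ℝ) (b : Fin n → ℝ × ℝ) (e : Fin N ↪ Fin n)
    (J : Finset (Fin n)) : Sys N where
  f S := fm c (J ∪ S.map e)
  b l := b (e l)
  M := m - J.card

lemma red_mem {e : Fin N ↪ Fin n} {J : Finset (Fin n)} {S : Finset (Fin N)} {x : Fin n} :
    x ∈ J ∪ S.map e ↔ x ∈ J ∨ ∃ l ∈ S, e l = x := by
  simp only [Finset.mem_union, Finset.mem_map]

lemma red_mem' {e : Fin N ↪ Fin n} {J : Finset (Fin n)} (hJ : ∀ l, e l ∉ J)
    {S : Finset (Fin N)} {l : Fin N} : e l ∈ J ∪ S.map e ↔ l ∈ S := by
  rw [red_mem]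
  constructor
  · rintro (h | ⟨l', hl', he⟩)
    · exact absurd h (hJ l)
    · rw [← e.injective he]
      exact hl'
  · exact fun h => Or.inr ⟨l, h, rfl⟩

lemma red_disj {e : Fin N ↪ Fin n} {J : Finset (Fin n)} (hJ : ∀ l, e l ∉ J)
    (S : Finset (Fin N)) : Disjoint J (S.map e) := by
  rw [Finset.disjoint_left]
  intro x hx hx'
  rw [Finset.mem_map] at hx'
  obtain ⟨l, _, rfl⟩ := hx'
  exact hJ l hx

lemma red_card {e : Fin N ↪ Fin n} {J : Finset (Fin n)} (hJ : ∀ l, e l ∉ J)
    (hJm : J.card ≤ m) {S : Finset (Fin N)} (hS : S.card = m - J.card) :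
    (J ∪ S.map e).card = m := by
  rw [Finset.card_union_of_disjoint (red_disj hJ S), Finset.card_map, hS]
  omega

lemma red_exch {e : Fin N ↪ Fin n} {J : Finset (Fin n)} (hJ : ∀ l, e l ∉ J)
    (S : Finset (Fin N)) (i j : Fin N) :
    J ∪ (insert j (S.erase i)).map e = insert (e j) ((J ∪ S.map e).erase (e i)) := by
  ext x
  rw [red_mem, Finset.mem_insert, Finset.mem_erase, red_mem]
  constructor
  · rintro (h | ⟨l, hl, rfl⟩)
    · right
      refine ⟨?_, Or.inl h⟩
      rintro rfl
      exact hJ i h
    · rw [Finset.mem_insert, Finset.mem_erase] at hl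
      rcases hl with rfl | ⟨h1, h2⟩
      · exact Or.inl rfl
      · exact Or.inr ⟨fun he => h1 (e.injective he), Or.inr ⟨l, h2, rfl⟩⟩
  · rintro (rfl | ⟨h1, h | ⟨l, hl, rfl⟩⟩)
    · exact Or.inr ⟨j, Finset.mem_insert_self _ _, rfl⟩
    · exact Or.inl h
    · refine Or.inr ⟨l, Finset.mem_insert_of_mem (Finset.mem_erase.2 ⟨?_, hl⟩), rfl⟩
      rintro rfl
      exact h1 rfl

theorem sysOf_good {c : Fin m → Fin n → ℝ} {b : Fin n → ℝ × ℝ} (hc : Gen c b)
    (e : Fin N ↪ Fin n) {J : Finset (Fin n)} (hJ : ∀ l, e l ∉ J) (hJm : J.card ≤ m) :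
    (sysOf c b e J).Good := by
  classical
  refine ⟨fun S R hS hR i hi => ?_, fun t μ hμ h0 h1 l => ?_⟩
  · have hS' : S.card = m - J.card := hS
    have hR' : R.card = m - J.card := hR
    rw [Finset.mem_sdiff] at hi
    have hx : e i ∈ (J ∪ S.map e) \ (J ∪ R.map e) := by
      rw [Finset.mem_sdiff, red_mem' hJ, red_mem' hJ]
      exact hi
    obtain ⟨y, hy, hle⟩ := fm_exch c (red_card hJ hJm hS') (red_card hJ hJm hR') hx
    rw [Finset.mem_sdiff] at hy
    obtain ⟨hy1, hy2⟩ := hy
    rw [red_mem] at hy1
    rcases hy1 with h | ⟨j, hj, rfl⟩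
    · exact absurd (red_mem.2 (Or.inl h)) hy2
    · refine ⟨j, Finset.mem_sdiff.2 ⟨hj, fun h => hy2 ((red_mem' hJ).2 h)⟩, ?_⟩
      show fm c (J ∪ (insert j (S.erase i)).map e) + fm c (J ∪ (insert i (R.erase j)).map e) ≤
        fm c (J ∪ S.map e) + fm c (J ∪ R.map e)
      rw [red_exch hJ, red_exch hJ]
      exact hle
  · by_cases hne : ∃ S, μ S ≠ 0
    · obtain ⟨S₀, hS₀⟩ := hne
      have hcard : ∀ S, μ S ≠ 0 → (J ∪ S.map e).card = m := fun S hS =>
        red_card hJ hJm (hμ S hS).1
      obtain ⟨π₀, -, -⟩ := fm_eq c (hcard S₀ hS₀)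
      have : Nonempty (Fin m ↪ Fin n) := ⟨π₀⟩
      have hex : ∀ S : Finset (Fin N), (J ∪ S.map e).card = m → ∃ π : Fin m ↪ Fin n,
          im π = J ∪ S.map e ∧ fm c (J ∪ S.map e) = cst c π := fun S hS => fm_eq c hS
      choose! g hg using hex
      have hg' : ∀ S, μ S ≠ 0 → im (g S) = J ∪ S.map e ∧ fm c (J ∪ S.map e) = cst c (g S) :=
        fun S hS => hg S (hcard S hS)
      have hbm : ∀ S, μ S ≠ 0 → bm b (g S) = ∑ x ∈ J, b x + (sysOf c b e J).bs S := by
        intro S hS
        have e1 : bm b (g S) = ∑ x ∈ im (g S), b x := by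
          rw [bm, im, Finset.sum_map]
        rw [e1, (hg' S hS).1, Finset.sum_union (red_disj hJ S), Finset.sum_map]
        rfl
      set ν : (Fin m ↪ Fin n) → ℝ := fun π => ∑ S, (if g S = π then μ S else 0) with hν
      have key := hc t ν ?_ ?_ ?_
      · have h3 : ∀ i : Fin m, ∑ S, (if g S i = e l then μ S else 0) = 0 := by
          intro i
          refine Eq.trans ?_ (key i (e l))
          have e1 : ∀ π : Fin m ↪ Fin n, (if π i = e l then ν π else 0) =
              ∑ S, (if g S = π then (if g S i = e l then μ S else 0) else 0) := by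
            intro π
            by_cases h : π i = e l
            · rw [if_pos h]
              refine Finset.sum_congr rfl fun S _ => ?_
              by_cases h' : g S = π
              · rw [if_pos h', if_pos h', h', if_pos h]
              · rw [if_neg h', if_neg h']
            · rw [if_neg h]
              symm
              refine Finset.sum_eq_zero fun S _ => ?_
              by_cases h' : g S = π
              · rw [if_pos h', h', if_neg h]
              · rw [if_neg h']
          rw [Finset.sum_congr rfl fun π _ => e1 π, Finset.sum_comm]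
          refine Finset.sum_congr rfl fun S _ => ?_
          rw [Finset.sum_ite_eq, if_pos (Finset.mem_univ _)]
        have h4 : ∀ S, ∑ i : Fin m, (if g S i = e l then μ S else 0) =
            if l ∈ S then μ S else 0 := by
          intro S
          by_cases hS : μ S = 0
          · simp [hS]
          · have himS := (hg' S hS).1
            by_cases hl : l ∈ S
            · rw [if_pos hl]
              have h5 : e l ∈ im (g S) := by
                rw [himS, red_mem' hJ]
                exact hl
              obtain ⟨i₀, hi₀⟩ := mem_im.1 h5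
              rw [Finset.sum_eq_single i₀, if_pos hi₀]
              · intro i _ hi
                rw [if_neg]
                intro h
                exact hi ((g S).injective (h.trans hi₀.symm))
              · intro h
                exact absurd (Finset.mem_univ _) h
            · rw [if_neg hl]
              refine Finset.sum_eq_zero fun i _ => ?_
              rw [if_neg]
              intro h
              apply hl
              rw [← red_mem' hJ (S := S), ← himS, mem_im]
              exact ⟨i, h⟩
        rw [← Finset.sum_congr rfl fun S _ => h4 S, Finset.sum_comm]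
        exact Finset.sum_eq_zero fun i _ => h3 i
      · intro π σ hπ hσ
        have hval : ∀ π, ν π ≠ 0 → ∃ S, μ S ≠ 0 ∧ cst c π + dt t (bm b π) =
            dt t (∑ x ∈ J, b x) + (sysOf c b e J).h S t := by
          intro π hπ
          obtain ⟨S, -, hS⟩ := Finset.exists_ne_zero_of_sum_ne_zero hπ
          have h5 : g S = π := by
            by_contra h
            rw [if_neg h] at hS
            exact hS rfl
          rw [if_pos h5] at hS
          refine ⟨S, hS, ?_⟩
          have h6 : (sysOf c b e J).h S t = fm c (J ∪ S.map e) + dt t ((sysOf c b e J).bs S) := rfl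
          rw [h6, ← h5, (hg' S hS).2, hbm S hS, dt_add_right]
          ring
        obtain ⟨S, hS, e1⟩ := hval π hπ
        obtain ⟨R, hR, e2⟩ := hval σ hσ
        rw [e1, e2, Sys.Opt.eq (hμ S hS) (hμ R hR)]
      · simp only [hν]
        rw [Finset.sum_comm]
        refine Eq.trans ?_ h0
        refine Finset.sum_congr rfl fun S _ => ?_
        rw [Finset.sum_ite_eq, if_pos (Finset.mem_univ _)]
      · simp only [hν, Finset.sum_smul]
        rw [Finset.sum_comm]
        have e1 : ∀ S : Finset (Fin N), ∑ π : Fin m ↪ Fin n,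
            (if g S = π then μ S else 0) • bm b π =
            μ S • ∑ x ∈ J, b x + μ S • (sysOf c b e J).bs S := by
          intro S
          rw [Finset.sum_eq_single (g S), if_pos rfl]
          · by_cases hS : μ S = 0
            · simp [hS]
            · rw [hbm S hS, smul_add]
          · intro π _ hπ
            rw [if_neg (fun h => hπ h.symm), zero_smul]
          · intro h
            exact absurd (Finset.mem_univ _) h
        rw [Finset.sum_congr rfl fun S _ => e1 S, Finset.sum_add_distrib, ← Finset.sum_smul, h0,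
          h1, zero_smul, add_zero]
    · push Not at hne
      refine Finset.sum_eq_zero fun S _ => ?_
      rw [hne S, ite_self]

end Pool.Agent.ROT
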