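import Pool.Agent.ROT.Flag

/-!
# ROT-6: the local sums of a form

Let `phi` be antisymmetric, `om phi S R = ∑ p ∈ S, ∑ q ∈ R, phi p q` (bilinear in the indicator
vectors; `om_insert_left`, `om_insert_right`, `om_anti`, `om_self`).

* White triangle: with `x` the indicator vector of `X` the sum over the three flags is
  `om(x+e_i, x+e_j) + om(x+e_j, x+e_k) + om(x+e_k, x+e_i) = phi i j + phi j k + phi k i`.
* Black triangle: `om(x-e_i, x-e_j) + ... = phi i j + phi j k + phi k i`, `x` the indicator of `T`
  (write `T = insert i (T.erase i)` etc.).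
* Parallelogram: `om(y+e_i+e_k, y+e_j+e_k) + om(y+e_j+e_k, y+e_j+e_l) + om(y+e_j+e_l, y+e_i+e_l)
  + om(y+e_i+e_l, y+e_i+e_k) = 2 (phi j l - phi j k - phi i l + phi i k)`.
* `flagsAt_bound`: if `flagsAt t` is empty both sides are `0`.  Otherwise `three_of_start` and
  `classify` give the type.  For the triangles `opts t` and `flagsAt t` have exactly three elements
  (they are distinct) and the sum is `≥ 1` by `hphi.tri` (`pos`).  For the parallelogram
  `opts t` has four elements, so the left side is `0`, and the sum is `≥ 0` by `hphi.par`.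
-/

set_option autoImplicit false

namespace Pool.Agent.ROT.Sys

variable {N : ℕ} {s : Sys N}

lemma vsum_ne {S R : Finset (Fin N)} {x : Fin N} (h1 : x ∈ S) (h2 : x ∉ R) : S ≠ R :=
  fun h => h2 (h ▸ h1)

/-- `om` on two sets obtained by inserting one element. -/
lemma vsum_om1 {phi : Fin N → Fin N → ℝ} (h : ∀ p q, phi p q = - phi q p)
    {X : Finset (Fin N)} {a c : Fin N} (ha : a ∉ X) (hc : c ∉ X) :
    om phi (insert a X) (insert c X) =
      ∑ q ∈ X, phi a q - ∑ q ∈ X, phi c q + phi a c := by
  rw [om_insert_left ha, om_insert_right hc, om_self h, Finset.sum_insert hc]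
  have h1 : ∑ q ∈ X, phi q c = - ∑ q ∈ X, phi c q := by
    rw [← Finset.sum_neg_distrib]
    exact Finset.sum_congr rfl fun q _ => h q c
  rw [h1]
  ring

/-- `om` on two sets obtained by erasing one element. -/
lemma vsum_om2 {phi : Fin N → Fin N → ℝ} (h : ∀ p q, phi p q = - phi q p)
    {T : Finset (Fin N)} {a c : Fin N} (ha : a ∈ T) (hc : c ∈ T) :
    om phi (T.erase a) (T.erase c) =
      ∑ q ∈ T, phi c q - ∑ q ∈ T, phi a q + phi a c := by
  have e1 : om phi T (T.erase c) = ∑ q ∈ T.erase c, phi a q + om phi (T.erase a) (T.erase c) := by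
    have h1 := om_insert_left (phi := phi) (Finset.notMem_erase a T) (T.erase c)
    rwa [Finset.insert_erase ha] at h1
  have e2 : om phi T T = ∑ q ∈ T, phi q c + om phi T (T.erase c) := by
    have h1 := om_insert_right (phi := phi) (Finset.notMem_erase c T) T
    rwa [Finset.insert_erase hc] at h1
  have e3 : ∑ q ∈ T, phi a q = phi a c + ∑ q ∈ T.erase c, phi a q := by
    rw [Finset.add_sum_erase T _ hc]
  have e4 : ∑ q ∈ T, phi q c = - ∑ q ∈ T, phi c q := by
    rw [← Finset.sum_neg_distrib]
    exact Finset.sum_congr rfl fun q _ => h q c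
  rw [om_self h] at e2
  linarith

/-- `om` on two sets obtained by inserting two elements. -/
lemma vsum_om3 {phi : Fin N → Fin N → ℝ} (h : ∀ p q, phi p q = - phi q p)
    {Y : Finset (Fin N)} {a b c d : Fin N} (ha : a ∉ Y) (hb : b ∉ Y) (hc : c ∉ Y) (hd : d ∉ Y)
    (hab : a ≠ b) (hcd : c ≠ d) :
    om phi (insert a (insert b Y)) (insert c (insert d Y)) =
      ∑ q ∈ Y, phi a q + ∑ q ∈ Y, phi b q - ∑ q ∈ Y, phi c q - ∑ q ∈ Y, phi d q +
        (phi a c + phi a d + phi b c + phi b d) := by
  have ha' : a ∉ insert b Y := by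
    rw [Finset.mem_insert]
    exact fun h => h.elim hab ha
  have hc' : c ∉ insert d Y := by
    rw [Finset.mem_insert]
    exact fun h => h.elim hcd hc
  have h1 : ∀ c, ∑ q ∈ Y, phi q c = - ∑ q ∈ Y, phi c q := fun c => by
    rw [← Finset.sum_neg_distrib]
    exact Finset.sum_congr rfl fun q _ => h q c
  rw [om_insert_left ha', om_insert_left hb, om_insert_right hc', om_insert_right hd, om_self h,
    Finset.sum_insert hc', Finset.sum_insert hc', Finset.sum_insert hd, Finset.sum_insert hd,
    h1, h1]
  ring

theorem flagsAt_bound (hs : s.Good) {phi : Fin N → Fin N → ℝ} (hphi : s.Form phi) (t : ℝ × ℝ) :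
    (if (s.opts t).card = 3 then ((s.flagsAt t).card : ℝ) else 0) ≤
      3 * ∑ p ∈ s.flagsAt t, om phi p.1 p.2 := by
  have ha := hphi.anti
  rcases (s.flagsAt t).eq_empty_or_nonempty with he | ⟨p, hp⟩
  · rw [he]
    simp
  rw [s.mem_flagsAt] at hp
  have h3 := three_of_start hp
  have hle : ∀ a b c : Finset (Fin N) × Finset (Fin N), s.flagsAt t = {a, b, c} →
      1 ≤ ∑ p ∈ s.flagsAt t, om phi p.1 p.2 →
      (if (s.opts t).card = 3 then ((s.flagsAt t).card : ℝ) else 0) ≤
        3 * ∑ p ∈ s.flagsAt t, om phi p.1 p.2 := by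
    intro a b c h1 h2
    have h4 : (s.flagsAt t).card ≤ 3 := by
      rw [h1]
      exact Finset.card_le_three
    have h5 : ((s.flagsAt t).card : ℝ) ≤ 3 := by exact_mod_cast h4
    split_ifs
    · linarith
    · linarith
  rcases classify hs h3 with ⟨X, i, j, k, h⟩ | ⟨T, i, j, k, h⟩ | ⟨Y, i, j, k, l, h⟩
  · have h1 : insert i X ≠ insert j X := vsum_ne (x := i) (Finset.mem_insert_self _ _) (by
      rw [Finset.mem_insert]; exact fun h' => h'.elim h.hij h.hi)
    have h2 : insert j X ≠ insert k X := vsum_ne (x := j) (Finset.mem_insert_self _ _) (by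
      rw [Finset.mem_insert]; exact fun h' => h'.elim h.hjk h.hj)
    have h3 : insert i X ≠ insert k X := vsum_ne (x := i) (Finset.mem_insert_self _ _) (by
      rw [Finset.mem_insert]; exact fun h' => h'.elim h.hik h.hi)
    refine hle _ _ _ h.flagsAt_eq ?_
    rw [h.flagsAt_eq, Finset.sum_insert (by
        simp only [Finset.mem_insert, Finset.mem_singleton, Prod.mk.injEq, not_or, not_and]
        exact ⟨fun h' => absurd h' h1, fun h' => absurd h' h3⟩),
      Finset.sum_insert (by
        simp only [Finset.mem_singleton, Prod.mk.injEq, not_and]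
        exact fun h' => absurd h' h2), Finset.sum_singleton]
    simp only
    rw [vsum_om1 ha h.hi h.hj, vsum_om1 ha h.hj h.hk, vsum_om1 ha h.hk h.hi]
    have := hphi.tri i j k h.pos
    linarith
  · have h1 : T.erase i ≠ T.erase j := (vsum_ne (x := i) (Finset.mem_erase.2 ⟨h.hij, h.hi⟩)
      (Finset.notMem_erase _ _)).symm
    have h2 : T.erase j ≠ T.erase k := (vsum_ne (x := j) (Finset.mem_erase.2 ⟨h.hjk, h.hj⟩)
      (Finset.notMem_erase _ _)).symm
    have h3 : T.erase i ≠ T.erase k := (vsum_ne (x := i) (Finset.mem_erase.2 ⟨h.hik, h.hi⟩)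
      (Finset.notMem_erase _ _)).symm
    refine hle _ _ _ h.flagsAt_eq ?_
    rw [h.flagsAt_eq, Finset.sum_insert (by
        simp only [Finset.mem_insert, Finset.mem_singleton, Prod.mk.injEq, not_or, not_and]
        exact ⟨fun h' => absurd h' h1, fun h' => absurd h' h3⟩),
      Finset.sum_insert (by
        simp only [Finset.mem_singleton, Prod.mk.injEq, not_and]
        exact fun h' => absurd h' h2), Finset.sum_singleton]
    simp only
    rw [vsum_om2 ha h.hi h.hj, vsum_om2 ha h.hj h.hk, vsum_om2 ha h.hk h.hi]
    have := hphi.tri i j k h.pos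
    linarith
  · obtain ⟨hi, hj, hk, hl, hij, hik, hil, hjk, hjl, hkl, hpos, hopt⟩ := id h
    have n1 : insert i (insert k Y) ≠ insert j (insert k Y) := vsum_ne (x := i)
      (by simp) (by simp [hij, hik, hi])
    have n2 : insert i (insert k Y) ≠ insert j (insert l Y) := vsum_ne (x := i)
      (by simp) (by simp [hij, hil, hi])
    have n3 : insert i (insert k Y) ≠ insert i (insert l Y) := vsum_ne (x := k)
      (by simp) (by simp [hik.symm, hkl, hk])
    have n4 : insert j (insert k Y) ≠ insert j (insert l Y) := vsum_ne (x := k)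
      (by simp) (by simp [hjk.symm, hkl, hk])
    have n5 : insert j (insert k Y) ≠ insert i (insert l Y) := vsum_ne (x := j)
      (by simp) (by simp [hij.symm, hjl, hj])
    have n6 : insert j (insert l Y) ≠ insert i (insert l Y) := vsum_ne (x := j)
      (by simp) (by simp [hij.symm, hjl, hj])
    have hc : (s.opts t).card = 4 := by
      have : s.opts t = {insert i (insert k Y), insert j (insert k Y), insert j (insert l Y),
          insert i (insert l Y)} := by
        ext S
        rw [s.mem_opts, hopt S]
        simp only [Finset.mem_insert, Finset.mem_singleton]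
      rw [this, Finset.card_insert_of_notMem, Finset.card_insert_of_notMem,
        Finset.card_insert_of_notMem, Finset.card_singleton]
      · simpa using n6
      · simp only [Finset.mem_insert, Finset.mem_singleton, not_or]
        exact ⟨n4, n5⟩
      · simp only [Finset.mem_insert, Finset.mem_singleton, not_or]
        exact ⟨n1, n2, n3⟩
    rw [if_neg (by omega), h.flagsAt_eq, Finset.sum_insert (by
        simp only [Finset.mem_insert, Finset.mem_singleton, Prod.mk.injEq, not_or, not_and]
        exact ⟨fun h' => absurd h' n1, fun h' => absurd h' n2, fun h' => absurd h' n3⟩),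
      Finset.sum_insert (by
        simp only [Finset.mem_insert, Finset.mem_singleton, Prod.mk.injEq, not_or, not_and]
        exact ⟨fun h' => absurd h' n4, fun h' => absurd h' n5⟩),
      Finset.sum_insert (by
        simp only [Finset.mem_singleton, Prod.mk.injEq, not_and]
        exact fun h' => absurd h' n6), Finset.sum_singleton]
    simp only
    rw [vsum_om3 ha hi hk hj hk hik hjk, vsum_om3 ha hj hk hj hl hjk hjl,
      vsum_om3 ha hj hl hi hl hjl hil, vsum_om3 ha hi hl hi hk hil hik]
    have := hphi.par i j k l hij hik hil hjk hjl hkl hpos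
    have a1 := ha i j
    have a2 := ha i i
    have a3 := ha j j
    have a4 := ha k k
    have a5 := ha l l
    have a6 := ha k l
    have a7 := ha k j
    have a8 := ha l i
    linarith

end Pool.Agent.ROT.Sys
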